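import Pool.Agent.H570R2.Modp.Stubs2
import Pool.Agent.H671R2.PolyAuto
import Pool.Agent.H549R2.PM9

/-!
# AP: `addC` in polynomial time
-/

namespace Pool.Agent.NPC.H570Mono

open Pool.Agent.NPC Pool.Agent.NPC.Cnt Pool.Agent.H549R2.PM Pool.Agent.H570R2.Mono

theorem AP_filter (c i : ℕ) (h : i ≤ c) :
    List.range i = (List.range c).filter (fun j => decide (j < i)) := by
  induction c with
  | zero =>
    have : i = 0 := by omega
    subst this
    rfl
  | succ c ih =>
    rw [List.range_succ, List.filter_append]
    rcases Nat.lt_or_ge c i with h1 | h1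
    · have h2 : i = c + 1 := by omega
      subst h2
      rw [List.range_succ]
      congr 1
      · symm
        rw [List.filter_eq_self]
        intro a ha
        rw [List.mem_range] at ha
        simp only [decide_eq_true_eq]
        omega
      · simp
    · rw [← ih h1]
      have : ¬ c < i := by omega
      simp [this]

theorem AP_aux {α : Type} [TEnc α] (R : α → List ℕ) (F : α → ℕ) (V : α → List ℕ) (φ : α → CNF ℕ)
    (hR : Poly R) (hF : Poly F) (hV : Poly V) (hφ : Poly φ) :
    Poly (fun a => (φ a).map (fun C => C ++ (R a).map (fun i => (true, F a + i))) ++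
      (R a).flatMap (fun i => ((R a).filter (fun j => decide (j < i))).map (fun j =>
        [(false, F a + i), (false, F a + j)])) ++
      (R a).flatMap (fun i => (V a).map (fun v => [(false, F a + i), (true, v)])) ++
      (R a).map (fun i => [(true, F a + i), (false, F a + i)])) := by
  fun_prop

theorem stub_add_poly : StubAddPoly := by
  intro α _ c φ hc hφ
  have hR : Poly (fun a => List.range (c a)) := hc.range
  have hV : Poly (fun a => vsL (φ a)) := Pool.Agent.NPC.H549PM.vsL_poly.comp hφ
  have hF : Poly (fun a => freshV (φ a)) := by
    unfold freshV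
    fun_prop
  refine (AP_aux (fun a => List.range (c a)) (fun a => freshV (φ a)) (fun a => vsL (φ a)) φ
    hR hF hV hφ).congr ?_
  intro a
  unfold addC
  congr 3
  apply List.flatMap_congr
  intro i hi
  rw [List.mem_range] at hi
  rw [← AP_filter (c a) i hi.le]

end Pool.Agent.NPC.H570Mono
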