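import Pool.Agent.H570R2.Modp.Stubs

/-!
# BL: extraction of the private variables of a block
-/

namespace Pool.Agent.H570R2.Mono

open Pool.Agent.NPC.Cnt Pool.Agent.H549R2.PM MvPolynomial

namespace BL

/-- substitution of `0` for `X v` -/
noncomputable def sub (v : ℕ) : MvPolynomial ℕ ℤ →ₐ[ℤ] MvPolynomial ℕ ℤ :=
  aeval (fun i => if i = v then (0 : MvPolynomial ℕ ℤ) else X i)

theorem Ev_def (v : ℕ) (f : MvPolynomial ℕ ℤ) : Ev v f = sub v (pderiv v f) := rfl

/-- polynomials without the variable `v` -/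
def Free (v : ℕ) (g : MvPolynomial ℕ ℤ) : Prop := sub v g = g

theorem sub_X_self (v : ℕ) : sub v (X v) = 0 := by simp [sub]

theorem sub_X_ne {v i : ℕ} (h : i ≠ v) : sub v (X i) = X i := by simp [sub, h]

theorem free_X {v i : ℕ} (h : i ≠ v) : Free v (X i) := sub_X_ne h

theorem free_C (v : ℕ) (a : ℤ) : Free v (C a) := by
  unfold Free
  simp [sub]

theorem free_zero (v : ℕ) : Free v 0 := map_zero _
theorem free_one (v : ℕ) : Free v 1 := map_one _

theorem Free.add {v : ℕ} {f g : MvPolynomial ℕ ℤ} (hf : Free v f) (hg : Free v g) :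
    Free v (f + g) := by
  unfold Free at *
  rw [map_add, hf, hg]

theorem Free.mul {v : ℕ} {f g : MvPolynomial ℕ ℤ} (hf : Free v f) (hg : Free v g) :
    Free v (f * g) := by
  unfold Free at *
  rw [map_mul, hf, hg]

theorem Free.neg {v : ℕ} {f : MvPolynomial ℕ ℤ} (hf : Free v f) : Free v (-f) := by
  unfold Free at *
  rw [map_neg, hf]

theorem Free.sub {v : ℕ} {f g : MvPolynomial ℕ ℤ} (hf : Free v f) (hg : Free v g) :
    Free v (f - g) := by
  unfold Free at *
  rw [map_sub, hf, hg]

theorem free_prod {v : ℕ} (l : List (MvPolynomial ℕ ℤ)) (h : ∀ g ∈ l, Free v g) :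
    Free v l.prod := by
  induction l with
  | nil => exact free_one v
  | cons a l ih =>
    rw [List.prod_cons]
    exact (h a (by simp)).mul (ih fun g hg => h g (by simp [hg]))

theorem free_lin {v : ℕ} (l : List ℕ) (h : ∀ x ∈ l, x ≠ v) : Free v (lin l) := by
  unfold lin
  induction l with
  | nil => exact free_zero v
  | cons a l ih =>
    rw [List.map_cons, List.sum_cons]
    exact (free_X (h a (by simp))).add (ih fun g hg => h g (by simp [hg]))

theorem pderiv_sub (v : ℕ) (g : MvPolynomial ℕ ℤ) : pderiv v (sub v g) = 0 := by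
  induction g using MvPolynomial.induction_on with
  | C a => simp [BL.sub]
  | add p q hp hq => rw [map_add, map_add, hp, hq, add_zero]
  | mul_X p i hp =>
    rw [map_mul, Derivation.leibniz, hp]
    by_cases h : i = v
    · subst h
      simp [sub_X_self]
    · rw [sub_X_ne h, pderiv_X_of_ne (by exact h)]
      simp

theorem Free.pderiv {v : ℕ} {g : MvPolynomial ℕ ℤ} (hg : Free v g) :
    MvPolynomial.pderiv v g = 0 := by
  have := pderiv_sub v g
  rwa [hg] at this

theorem Ev_mul {v : ℕ} {g : MvPolynomial ℕ ℤ} (hg : Free v g) (f : MvPolynomial ℕ ℤ) :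
    Ev v (g * f) = g * Ev v f := by
  rw [Ev_def, Ev_def, Derivation.leibniz, hg.pderiv]
  simp only [smul_eq_mul, mul_zero, add_zero, map_mul]
  rw [hg]

theorem EvL_mul {l : List ℕ} {g : MvPolynomial ℕ ℤ} (hg : ∀ v ∈ l, Free v g)
    (f : MvPolynomial ℕ ℤ) : EvL l (g * f) = g * EvL l f := by
  induction l with
  | nil => rfl
  | cons v l ih =>
    show Ev v (EvL l (g * f)) = g * Ev v (EvL l f)
    rw [ih fun w hw => hg w (by simp [hw]), Ev_mul (hg v (by simp))]

theorem EvL_append (l l' : List ℕ) (f : MvPolynomial ℕ ℤ) :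
    EvL (l ++ l') f = EvL l (EvL l' f) := by
  simp [EvL, List.foldr_append]

theorem Ev_eq {v : ℕ} {g0 g1 : MvPolynomial ℕ ℤ} (h : MvPolynomial ℕ ℤ) (h0 : Free v g0)
    (h1 : Free v g1) : Ev v (g0 + X v * g1 + X v ^ 2 * h) = g1 := by
  rw [Ev_def]
  simp only [map_add, Derivation.leibniz, h0.pderiv, h1.pderiv, smul_eq_mul, map_mul,
    Derivation.leibniz_pow, pderiv_X_self, mul_zero, mul_one, zero_add, map_pow, sub_X_self]
  rw [h1]
  simp [sub_X_self]

/-- extraction of the three variables of a gadget -/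
theorem gadget {w1 w2 z : ℕ} (h12 : w1 ≠ w2) (h1z : w1 ≠ z) (h2z : w2 ≠ z)
    {x A B P Q : MvPolynomial ℕ ℤ}
    (hx : Free w1 x ∧ Free w2 x ∧ Free z x) (hA : Free w1 A ∧ Free w2 A ∧ Free z A)
    (hB : Free w1 B ∧ Free w2 B ∧ Free z B) (hP : Free w1 P ∧ Free w2 P ∧ Free z P)
    (hQ : Free w1 Q ∧ Free w2 Q ∧ Free z Q) :
    Ev w1 (Ev w2 (Ev z ((-x + X w1 + X w2) * (A + X w1 + X w2) * (B + X w1 - X w2) *
      (X z + X w1 - X w2) * (X z * P + Q)))) = 2 * (x * A * P + B * Q) := by
  have f12 := free_X (v := w1) (i := w2) h12.symm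
  have f21 := free_X (v := w2) (i := w1) h12
  have fz1 := free_X (v := z) (i := w1) h1z
  have fz2 := free_X (v := z) (i := w2) h2z
  have e1 : (-x + X w1 + X w2) * (A + X w1 + X w2) * (B + X w1 - X w2) *
      (X z + X w1 - X w2) * (X z * P + Q) =
      (-x + X w1 + X w2) * (A + X w1 + X w2) * (B + X w1 - X w2) * ((X w1 - X w2) * Q) +
      X z * ((-x + X w1 + X w2) * (A + X w1 + X w2) * (B + X w1 - X w2) *
        ((X w1 - X w2) * P + Q)) +
      X z ^ 2 * ((-x + X w1 + X w2) * (A + X w1 + X w2) * (B + X w1 - X w2) * P) := by ring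
  have s1 : Free z ((-x + X w1 + X w2) * (A + X w1 + X w2) * (B + X w1 - X w2)) :=
    (((hx.2.2.neg.add fz1).add fz2).mul ((hA.2.2.add fz1).add fz2)).mul
      ((hB.2.2.add fz1).sub fz2)
  rw [e1, Ev_eq _ (s1.mul ((fz1.sub fz2).mul hQ.2.2))
    (s1.mul (((fz1.sub fz2).mul hP.2.2).add hQ.2.2))]
  have e2 : (-x + X w1 + X w2) * (A + X w1 + X w2) * (B + X w1 - X w2) *
        ((X w1 - X w2) * P + Q) =
      (-x + X w1) * (A + X w1) * (B + X w1) * (X w1 * P + Q) +
      X w2 * ((A + X w1) * (B + X w1) * (X w1 * P + Q) +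
        (-x + X w1) * (B + X w1) * (X w1 * P + Q) -
        (-x + X w1) * (A + X w1) * (X w1 * P + Q) -
        (-x + X w1) * (A + X w1) * (B + X w1) * P) +
      X w2 ^ 2 * ((-x + X w1) * (A + X w1) * P -
        (-x + X w1 + (A + X w1)) * ((B + X w1) * P + (X w1 * P + Q)) +
        (B + X w1) * (X w1 * P + Q) +
        X w2 * ((-x + X w1 + (A + X w1)) * P - ((B + X w1) * P + (X w1 * P + Q))) +
        X w2 ^ 2 * P) := by ring
  have a1 := hx.2.1.neg.add f21
  have a2 := hA.2.1.add f21
  have a3 := hB.2.1.add f21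
  have a4 := (f21.mul hP.2.1).add hQ.2.1
  rw [e2, Ev_eq _ (((a1.mul a2).mul a3).mul a4)
    (((((a2.mul a3).mul a4).add ((a1.mul a3).mul a4)).sub ((a1.mul a2).mul a4)).sub
      (((a1.mul a2).mul a3).mul hP.2.1))]
  have e3 : (A + X w1) * (B + X w1) * (X w1 * P + Q) +
        (-x + X w1) * (B + X w1) * (X w1 * P + Q) -
        (-x + X w1) * (A + X w1) * (X w1 * P + Q) -
        (-x + X w1) * (A + X w1) * (B + X w1) * P =
      (A * B * Q - x * B * Q + x * A * Q + x * A * B * P) +
      X w1 * (2 * (x * A * P + B * Q)) + X w1 ^ 2 * (B * P + x * P - A * P + Q) := by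
    ring
  have f2 : Free w1 2 := by
    have : (2 : MvPolynomial ℕ ℤ) = C 2 := by simp
    rw [this]
    exact free_C _ _
  rw [e3, Ev_eq _
    (((((hA.1.mul hB.1).mul hQ.1).sub ((hx.1.mul hB.1).mul hQ.1)).add
      ((hx.1.mul hA.1).mul hQ.1)).add (((hx.1.mul hA.1).mul hB.1).mul hP.1))
    (f2.mul (((hx.1.mul hA.1).mul hP.1).add (hB.1.mul hQ.1)))]

theorem form_nil : form [] = 0 := rfl

theorem form_cons (x : ℕ × Bool) (l : List (ℕ × Bool)) :
    form (x :: l) = C (bif x.2 then (1 : ℤ) else -1) * X x.1 + form l := by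
  simp [form]

theorem form_append (l l' : List (ℕ × Bool)) : form (l ++ l') = form l + form l' := by
  simp [form]

theorem form_lin (a : List ℕ) : form (a.map (fun x => (x, true))) = lin a := by
  induction a with
  | nil => rfl
  | cons x a ih => 
    rw [List.map_cons, form_cons, ih]
    simp [lin]

/-- extraction of the private variables of a chain except the first one -/
theorem chain (ps : List (List ℕ × List ℕ)) : ∀ (c : ℕ) (Y : MvPolynomial ℕ ℤ),
    (∀ v, c < v → Free v Y) → (∀ ab ∈ ps, (∀ x ∈ ab.1, x ≤ c) ∧ ∀ x ∈ ab.2, x ≤ c) →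
    EvL (List.range' (c + 1) (3 * ps.length))
      (((chainR c ps).map form).prod * (X (c + 3 * ps.length) + Y)) =
    C (2 ^ ps.length) * (X c * (ps.map (fun ab => lin ab.1)).prod +
      Y * (ps.map (fun ab => lin ab.2)).prod) := by
  induction ps with
  | nil =>
    intro c Y _ _
    simp [chainR, EvL]
  | cons ab ps ih =>
    intro c Y hY hab
    obtain ⟨a, b⟩ := ab
    have hab' : ∀ ab ∈ ps, (∀ x ∈ ab.1, x ≤ c + 3) ∧ ∀ x ∈ ab.2, x ≤ c + 3 := fun ab h =>
      ⟨fun x hx => ((hab ab (by simp [h])).1 x hx).trans (by omega),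
        fun x hx => ((hab ab (by simp [h])).2 x hx).trans (by omega)⟩
    have ha : ∀ v, c < v → Free v (lin a) := fun v hv =>
      free_lin a fun x hx => by
        have := (hab (a, b) (by simp)).1 x hx
        omega
    have hb : ∀ v, c < v → Free v (lin b) := fun v hv =>
      free_lin b fun x hx => by
        have := (hab (a, b) (by simp)).2 x hx
        omega
    have hps1 : ∀ v, c < v → Free v (ps.map (fun ab => lin ab.1)).prod := fun v hv =>
      free_prod _ fun g hg => by
        obtain ⟨ab, h1, rfl⟩ := List.mem_map.1 hg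
        exact free_lin _ fun x hx => by
          have := (hab ab (by simp [h1])).1 x hx
          omega
    have hps2 : ∀ v, c < v → Free v (ps.map (fun ab => lin ab.2)).prod := fun v hv =>
      free_prod _ fun g hg => by
        obtain ⟨ab, h1, rfl⟩ := List.mem_map.1 hg
        exact free_lin _ fun x hx => by
          have := (hab ab (by simp [h1])).2 x hx
          omega
    have hx : ∀ v, c < v → Free v (X c) := fun v hv => free_X (by omega)
    have IH := ih (c + 3) Y (fun v hv => hY v (by omega)) hab'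
    have er : List.range' (c + 1) (3 * ((a, b) :: ps).length) =
        [c + 1, c + 2, c + 3] ++ List.range' (c + 3 + 1) (3 * ps.length) := by
      have : 3 * ((a, b) :: ps).length = 3 * ps.length + 1 + 1 + 1 := by simp; ring
      rw [this, List.range'_succ, List.range'_succ, List.range'_succ]
      rfl
    have el : c + 3 * ((a, b) :: ps).length = c + 3 + 3 * ps.length := by simp; ring
    have ec : ((chainR c ((a, b) :: ps)).map form).prod =
        ((-X c + X (c + 1) + X (c + 2)) * (lin a + X (c + 1) + X (c + 2)) *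
          (lin b + X (c + 1) - X (c + 2)) * (X (c + 3) + X (c + 1) - X (c + 2))) *
          ((chainR (c + 3) ps).map form).prod := by
      simp only [chainR, List.map_cons, List.prod_cons, form_append, form_lin, form_cons, form_nil]
      simp
      ring
    have hfree : ∀ v ∈ List.range' (c + 3 + 1) (3 * ps.length),
        Free v ((-X c + X (c + 1) + X (c + 2)) * (lin a + X (c + 1) + X (c + 2)) *
          (lin b + X (c + 1) - X (c + 2)) * (X (c + 3) + X (c + 1) - X (c + 2))) := by
      intro v hv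
      rw [List.mem_range'_1] at hv
      have h1 := free_X (v := v) (i := c + 1) (by omega)
      have h2 := free_X (v := v) (i := c + 2) (by omega)
      have h3 := free_X (v := v) (i := c + 3) (by omega)
      exact (((((hx v (by omega)).neg.add h1).add h2).mul
        (((ha v (by omega)).add h1).add h2)).mul (((hb v (by omega)).add h1).sub h2)).mul
        ((h3.add h1).sub h2)
    rw [er, el, ec, EvL_append, mul_assoc, EvL_mul hfree, IH]
    have e4 : ((-X c + X (c + 1) + X (c + 2)) * (lin a + X (c + 1) + X (c + 2)) *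
          (lin b + X (c + 1) - X (c + 2)) * (X (c + 3) + X (c + 1) - X (c + 2))) *
        (C (2 ^ ps.length) * (X (c + 3) * (ps.map (fun ab => lin ab.1)).prod +
          Y * (ps.map (fun ab => lin ab.2)).prod)) =
        C (2 ^ ps.length) *
        ((-X c + X (c + 1) + X (c + 2)) * (lin a + X (c + 1) + X (c + 2)) *
          (lin b + X (c + 1) - X (c + 2)) * (X (c + 3) + X (c + 1) - X (c + 2)) *
        (X (c + 3) * (ps.map (fun ab => lin ab.1)).prod +
          Y * (ps.map (fun ab => lin ab.2)).prod)) := by ring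
    rw [e4, EvL_mul (fun v _ => free_C v _)]
    have e5 : ∀ f : MvPolynomial ℕ ℤ, EvL [c + 1, c + 2, c + 3] f =
        Ev (c + 1) (Ev (c + 2) (Ev (c + 3) f)) := fun f => rfl
    rw [e5, gadget (by omega) (by omega) (by omega)
      ⟨hx _ (by omega), hx _ (by omega), hx _ (by omega)⟩
      ⟨ha _ (by omega), ha _ (by omega), ha _ (by omega)⟩
      ⟨hb _ (by omega), hb _ (by omega), hb _ (by omega)⟩
      ⟨hps1 _ (by omega), hps1 _ (by omega), hps1 _ (by omega)⟩
      ⟨(hY _ (by omega)).mul (hps2 _ (by omega)), (hY _ (by omega)).mul (hps2 _ (by omega)),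
        (hY _ (by omega)).mul (hps2 _ (by omega))⟩]
    simp only [List.length_cons, List.map_cons, List.prod_cons, pow_succ, map_mul]
    have : (C (2 : ℤ) : MvPolynomial ℕ ℤ) = 2 := by simp
    rw [this]
    ring

end BL

theorem stub_block : StubBlock := by
  intro o b hb
  obtain ⟨s, ps⟩ := b
  have h := BL.chain ps o (C (sgB s) * X o) (fun v hv => (BL.free_C v _).mul
    (BL.free_X (by omega))) (fun ab h => ⟨fun x hx => ((hb ab h).1 x hx).le,
      fun x hx => ((hb ab h).2 x hx).le⟩)
  have er : List.range' o (3 * (s, ps).2.length + 1) =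
      [o] ++ List.range' (o + 1) (3 * ps.length) := by
    rw [List.range'_succ]
    rfl
  have ef : ((blockR o (s, ps)).map form).prod =
      ((chainR o ps).map form).prod * (X (o + 3 * ps.length) + C (sgB s) * X o) := by
    unfold blockR
    rw [List.map_append, List.prod_append]
    congr 1
    simp only [List.map_cons, List.map_nil, List.prod_cons, List.prod_nil, BL.form_cons,
      BL.form_nil, sgB]
    simp
    ring
  have e5 : ∀ f : MvPolynomial ℕ ℤ, EvL [o] f = Ev o f := fun f => rfl
  rw [er, ef, BL.EvL_append, h, e5]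
  have hps1 : BL.Free o (ps.map (fun ab => lin ab.1)).prod :=
      BL.free_prod _ fun g hg => by
        obtain ⟨ab, h1, rfl⟩ := List.mem_map.1 hg
        exact BL.free_lin _ fun x hx => by
          have := (hb ab h1).1 x hx
          omega
  have hps2 : BL.Free o (ps.map (fun ab => lin ab.2)).prod :=
      BL.free_prod _ fun g hg => by
        obtain ⟨ab, h1, rfl⟩ := List.mem_map.1 hg
        exact BL.free_lin _ fun x hx => by
          have := (hb ab h1).2 x hx
          omega
  have e1 : (C (2 ^ ps.length) * (X o * (ps.map (fun ab => lin ab.1)).prod +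
      C (sgB s) * X o * (ps.map (fun ab => lin ab.2)).prod) : MvPolynomial ℕ ℤ) =
      0 + X o * (C (2 ^ ps.length) * ((ps.map (fun ab => lin ab.1)).prod +
        C (sgB s) * (ps.map (fun ab => lin ab.2)).prod)) + X o ^ 2 * 0 := by ring
  rw [e1, BL.Ev_eq _ (BL.free_zero o)
    ((BL.free_C _ _).mul (hps1.add ((BL.free_C _ _).mul hps2)))]
  rfl

end Pool.Agent.H570R2.Mono
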