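import Pool.Agent.H570R2.Modp.Stubs2
import Pool.Agent.H539R2.MonoP

/-!
# Primes and Chinese remaindering in polynomial time
-/

namespace Pool.Agent.NPC.H570Mono

open Pool.Agent.H549R2.Convex Pool.Agent.NPC.Cnt Pool.Agent.NPC.H549Convex Pool.Agent.H570R2.Mono
  Pool.Agent.H549R2.PM Pool.Agent.NPC.H549PM

namespace CP

variable {α : Type} [TEnc α]

theorem P_isPr {f : α → ℕ} (hf : UPoly f) : NPC.Poly (fun a => isPr (f a)) := by
  have h1 : NPC.Poly f := hf.toPoly
  refine NPC.Poly.and (NPC.Poly.decide_le (NPC.Poly.const 2) h1) ?_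
  refine NPC.Poly.all (p := fun a (d : ℕ) => decide (d < 2) || !decide (f a % d = 0)) hf.range ?_
  exact NPC.Poly.or (NPC.Poly.decide_lt P_snd (NPC.Poly.const 2))
    (NPC.Poly.not (NPC.Poly.decide_eq (NPC.Poly.mod (h1.comp P_fst) P_snd) (NPC.Poly.const 0)))

theorem P_oddPr {B : α → ℕ} (hB : UPoly B) : NPC.Poly (fun a => oddPr (B a)) := by
  have h1 : UPoly (fun p : α × ℕ => min p.2 (B p.1)) :=
    UPoly.of_le (NPC.Poly.min P_snd (hB.toPoly.comp P_fst)) (hB.comp P_fst)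
      fun p => min_le_right _ _
  have h2 : NPC.Poly (fun p : α × ℕ => isPr (min p.2 (B p.1)) && !decide (p.2 = 2)) :=
    NPC.Poly.and (P_isPr h1) (NPC.Poly.not (NPC.Poly.decide_eq P_snd (NPC.Poly.const 2)))
  refine (NPC.Poly.filter (p := fun a (n : ℕ) => isPr (min n (B a)) && !decide (n = 2))
    (UPoly.add hB (UPoly.const 1)).range h2).congr fun a => ?_
  unfold oddPr
  refine List.filter_congr fun n hn => ?_
  rw [List.mem_range] at hn
  rw [min_eq_left (by omega)]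

theorem P_powU {x k : α → ℕ} (hx : NPC.Poly x) (hk : UPoly k) :
    NPC.Poly (fun a => x a ^ k a) :=
  (poly_prod (P_replicate hk hx)).congr fun a => List.prod_replicate _ _

theorem mem_oddPr_le {B n : ℕ} (h : n ∈ oddPr B) : n ≤ B := by
  unfold oddPr at h
  have := List.mem_of_mem_filter h
  rw [List.mem_range] at this
  omega

theorem P_crtL {B : α → ℕ} {rs : α → List ℕ} (hB : UPoly B) (hr : NPC.Poly rs) :
    NPC.Poly (fun a => crtL (oddPr (B a)) (rs a)) := by
  have hp := P_oddPr hB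
  have hP : NPC.Poly (fun a => (oddPr (B a)).prod) := poly_prod hp
  have h1 : NPC.Poly (fun q : α × ℕ × ℕ => q.2.1) := NPC.Poly.fst P_snd
  have h2 : NPC.Poly (fun q : α × ℕ × ℕ => q.2.2) := NPC.Poly.snd P_snd
  have h3 : NPC.Poly (fun q : α × ℕ × ℕ => (oddPr (B q.1)).prod / q.2.1) :=
    NPC.Poly.div (hP.comp P_fst) h1
  have h4 : UPoly (fun q : α × ℕ × ℕ => min (q.2.1 - 2) (B q.1)) :=
    UPoly.of_le (NPC.Poly.min (NPC.Poly.sub h1 (NPC.Poly.const 2)) (hB.toPoly.comp P_fst))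
      (hB.comp P_fst) fun p => min_le_right _ _
  have h5 : NPC.Poly (fun q : α × ℕ × ℕ => q.2.2 * (((oddPr (B q.1)).prod / q.2.1) *
      ((((oddPr (B q.1)).prod / q.2.1) % q.2.1) ^ (min (q.2.1 - 2) (B q.1)) % q.2.1))) :=
    NPC.Poly.mul h2 (NPC.Poly.mul h3 (NPC.Poly.mod (P_powU (NPC.Poly.mod h3 h1) h4) h1))
  have h6 : NPC.Poly (fun a => (oddPr (B a)).zip (rs a)) := NPC.Poly.zip hp hr
  have h7 := NPC.Poly.map (F := fun a (x : ℕ × ℕ) => x.2 * (((oddPr (B a)).prod / x.1) *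
      ((((oddPr (B a)).prod / x.1) % x.1) ^ (min (x.1 - 2) (B a)) % x.1))) h6 h5
  refine (NPC.Poly.mod (NPC.Poly.sum h7) hP).congr fun a => ?_
  unfold crtL
  refine congrArg (fun l : List ℕ => l.sum % (oddPr (B a)).prod) ?_
  refine List.map_congr_left fun x hx => ?_
  have hx1 : x.1 ≤ B a := mem_oddPr_le (List.of_mem_zip hx).1
  rw [min_eq_left (by omega)]

end CP

/-- CP: primes and Chinese remaindering in polynomial time -/
theorem stub_crtPoly : StubCrtPoly := fun _ _ _ _ hB hr => ⟨CP.P_oddPr hB, CP.P_crtL hB hr⟩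

end Pool.Agent.NPC.H570Mono
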