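import Pool.Agent.H570R2.Modp.Stubs
import Pool.Agent.H99R2.Mono.C

/-! Task CS: counting instructions (helper409, after task C of helper99) -/

namespace Pool.Agent.H570R2.Mono

open Pool.Agent.H549R2.PM Pool.Agent.H549R2.Convex

namespace TaskCS

open TaskC

theorem reads_cellS (n : ℕ) (e : Bool × Bool) :
    reads (cellS n e) = 1 ∧ reals (cellS n e) = 1 := by
  unfold cellS
  obtain ⟨a, b⟩ := e
  have h0 : reads (bif !a && b then at' 3 (n + 1) (spl 2 0) ++ at' 2 (n + 2) (mrg 2) else []) = 0 ∧
      reals (bif !a && b then at' 3 (n + 1) (spl 2 0) ++ at' 2 (n + 2) (mrg 2) else []) = 0 := by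
    cases a <;> cases b <;>
      simp [reads_append, reals_append, (reads_at _ _ _).1, (reads_at _ _ _).2, (reads_spl _ _).1,
        (reads_spl _ _).2, (reads_mrg _).1, (reads_mrg _).2, reads, reals]
  simp only [reads_append, reals_append, (reads_at _ _ _).1, (reads_at _ _ _).2, (reads_spl _ _).1,
    (reads_spl _ _).2, (reads_fxb _ _).1, (reads_fxb _ _).2, (reads_adv _ _).1, (reads_adv _ _).2,
    (reads_mrg _).1, (reads_mrg _).2, (reads_rots _).1, (reads_rots _).2, (reads_tok _).1,
    (reads_tok _).2, h0.1, h0.2]
  simp

theorem reads_cellsS (n : ℕ) (r : List (Bool × Bool)) :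
    reads (r.flatMap (cellS n)) = r.length ∧ reals (r.flatMap (cellS n)) = r.length := by
  induction r with
  | nil => simp [reads, reals]
  | cons b r ih =>
    rw [List.flatMap_cons, reads_append, reals_append, ih.1, ih.2, (reads_cellS n b).1,
      (reads_cellS n b).2, List.length_cons]
    constructor <;> ring

theorem reads_rowS (n : ℕ) (r : List (Bool × Bool)) :
    reads (rowS n r) = r.length + 2 ∧ reals (rowS n r) = r.length + 1 := by
  unfold rowS
  simp only [reads_append, reals_append, (reads_rots _).1, (reads_rots _).2, (reads_cellsS n r).1,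
    (reads_cellsS n r).2]
  simp only [reads, reals]
  constructor
  · simp; ring
  · simp; ring

theorem reads_rowsS (n m : ℕ) (A : List (List (Bool × Bool))) (h : ∀ r ∈ A, r.length = m) :
    reads (A.flatMap (rowS n)) = A.length * (m + 2) ∧
    reals (A.flatMap (rowS n)) = A.length * (m + 1) := by
  induction A with
  | nil => simp [reads, reals]
  | cons r A ih =>
    have ih' := ih fun r hr => h r (List.mem_cons_of_mem _ hr)
    have hr := h r List.mem_cons_self
    rw [List.flatMap_cons, reads_append, reals_append, ih'.1, ih'.2, (reads_rowS n r).1,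
      (reads_rowS n r).2, List.length_cons, hr]
    constructor <;> ring

theorem reads_unitB (m N : ℕ) : reads (unitB m N) = 1 ∧ reals (unitB m N) = 1 := by
  unfold unitB
  simp only [reads_append, reals_append, (reads_rots _).1, (reads_rots _).2]
  constructor <;> simp [reads, reals]

theorem reads_sufP (p m r : ℕ) : reads (sufP p m r) = reals (sufP p m r) := by
  unfold sufP
  rw [reads_append, reals_append, (reads_unitB m (r - 1)).1, (reads_unitB m (r - 1)).2]
  congr 1
  generalize p - 2 = k
  induction k with
  | zero => simp [reads, reals]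
  | succ k ih =>
    rw [List.replicate_succ, List.flatten_cons, reads_append, reals_append, ih,
      (reads_unitB m (r - 2)).1, (reads_unitB m (r - 2)).2]

end TaskCS

open TaskC TaskCS

theorem stub_countS : StubCountS := by
  intro A p m r hA
  rw [reads_append, reals_append, reads_sufP]
  congr 1
  unfold progS
  have h1 := reads_rowsS A.length A.length A hA
  simp only [reads_append, reals_append, (reads_reals _).1, (reads_reals _).2, h1.1, h1.2]
  simp only [reads, reals]
  simp
  ring

end Pool.Agent.H570R2.Mono
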