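import Pool.Agent.H570R2.Modp.Stubs

/-! Task DN: the dense form of a sparse matrix. -/

namespace Pool.Agent.H570R2.Mono

open Pool.Agent.NPC.Cnt Pool.Agent.H549R2.PM

namespace DNAux

open Finset

/-- the dense entries of a sparse row -/
def entR (r : List (ℕ × Bool)) (c : ℕ) : ℤ :=
  ent3 (decide ((c, true) ∈ r), decide ((c, false) ∈ r))

theorem form_eq (n : ℕ) (r : List (ℕ × Bool)) (hr : r.Nodup) (hc : ∀ c ∈ r, c.1 < n) :
    form r = ∑ c ∈ range n, MvPolynomial.C (entR r c) * MvPolynomial.X c := by
  unfold form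
  rw [← List.sum_toFinset _ hr]
  have hsub : r.toFinset ⊆ range n ×ˢ (univ : Finset Bool) := by
    intro c hcr
    rw [mem_product]
    exact ⟨mem_range.2 (hc c (List.mem_toFinset.1 hcr)), mem_univ _⟩
  have h1 : ∑ c ∈ r.toFinset, (MvPolynomial.C (bif c.2 then (1 : ℤ) else -1) *
      MvPolynomial.X c.1 : MvPolynomial ℕ ℤ) =
      ∑ c ∈ range n ×ˢ (univ : Finset Bool), if c ∈ r then
        (MvPolynomial.C (bif c.2 then (1 : ℤ) else -1) * MvPolynomial.X c.1 : MvPolynomial ℕ ℤ)
        else 0 := by
    rw [← Finset.sum_filter]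
    apply Finset.sum_congr _ (fun _ _ => rfl)
    ext c
    rw [mem_filter, List.mem_toFinset]
    exact ⟨fun h => ⟨hsub (List.mem_toFinset.2 h), h⟩, fun h => h.2⟩
  rw [h1, Finset.sum_product]
  apply Finset.sum_congr rfl
  intro c _
  rw [Fintype.sum_bool]
  unfold entR ent3
  by_cases h2 : (c, true) ∈ r <;> by_cases h3 : (c, false) ∈ r <;> simp [h2, h3]

theorem sum_single_eq_iff (n : ℕ) (g : Fin n → Fin n) :
    (∑ i, Finsupp.single (g i).val 1 : ℕ →₀ ℕ) = fullM n ↔ Function.Bijective g := by
  constructor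
  · intro h
    apply Finite.injective_iff_bijective.1
    intro i j hij
    by_contra hne
    have h1 := DFunLike.congr_fun h (g i).val
    rw [Finsupp.finsetSum_apply] at h1
    unfold fullM at h1
    rw [Finsupp.finsetSum_apply] at h1
    have h2 : ∑ c ∈ range n, (Finsupp.single c 1 : ℕ →₀ ℕ) (g i).val = 1 := by
      rw [Finset.sum_eq_single (g i).val]
      · simp
      · intro c _ hc
        rw [Finsupp.single_apply, if_neg hc]
      · intro hc
        exact absurd (mem_range.2 (g i).2) hc
    rw [h2] at h1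
    have h3 : ∑ k ∈ ({i, j} : Finset (Fin n)), (Finsupp.single (g k).val 1 : ℕ →₀ ℕ) (g i).val ≤
        ∑ k, (Finsupp.single (g k).val 1 : ℕ →₀ ℕ) (g i).val :=
      Finset.sum_le_sum_of_subset (subset_univ _)
    rw [Finset.sum_pair hne, h1, Finsupp.single_apply, Finsupp.single_apply, if_pos rfl,
      if_pos (by rw [hij])] at h3
    omega
  · intro h
    unfold fullM
    rw [Finset.sum_range (fun c => (Finsupp.single c 1 : ℕ →₀ ℕ))]
    exact Function.Bijective.sum_comp h (fun i : Fin n => (Finsupp.single i.val 1 : ℕ →₀ ℕ))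

theorem prod_X (n : ℕ) (g : Fin n → Fin n) :
    ∏ i, (MvPolynomial.X (g i).val : MvPolynomial ℕ ℤ) =
      MvPolynomial.monomial (∑ i, Finsupp.single (g i).val 1) 1 := by
  rw [MvPolynomial.monomial_sum_one]
  rfl

theorem coeff_prod (n : ℕ) (a : Fin n → Fin n → ℤ) :
    MvPolynomial.coeff (fullM n) (∏ i : Fin n, ∑ j : Fin n,
      (MvPolynomial.C (a i j) * MvPolynomial.X j.val : MvPolynomial ℕ ℤ)) =
      Matrix.permanent (Matrix.of a) := by
  classical
  rw [Finset.prod_univ_sum, Fintype.piFinset_univ, MvPolynomial.coeff_sum]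
  have h1 : ∀ g : Fin n → Fin n, MvPolynomial.coeff (fullM n)
      (∏ i : Fin n, (MvPolynomial.C (a i (g i)) * MvPolynomial.X (g i).val : MvPolynomial ℕ ℤ)) =
      if Function.Bijective g then ∏ i, a i (g i) else 0 := by
    intro g
    rw [Finset.prod_mul_distrib, ← map_prod, MvPolynomial.coeff_C_mul, prod_X,
      MvPolynomial.coeff_monomial]
    by_cases hg : Function.Bijective g
    · rw [if_pos ((sum_single_eq_iff n g).2 hg), if_pos hg, mul_one]
    · rw [if_neg (fun h => hg ((sum_single_eq_iff n g).1 h)), if_neg hg, mul_zero]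
  rw [Finset.sum_congr rfl (fun g _ => h1 g), ← Finset.sum_filter, ← Matrix.permanent_transpose]
  unfold Matrix.permanent
  refine Finset.sum_bij (fun g hg => Equiv.ofBijective g (mem_filter.1 hg).2) ?_ ?_ ?_ ?_
  · intro g _
    exact mem_univ _
  · intro g _ g' _ h
    funext i
    exact DFunLike.congr_fun h i
  · intro σ _
    refine ⟨σ, mem_filter.2 ⟨mem_univ _, σ.bijective⟩, ?_⟩
    ext i
    rfl
  · intro g _
    rfl

theorem permS_cast (m n : ℕ) (h : m = n) (M : ℕ → ℕ → ℤ) :
    Matrix.permanent (Matrix.of fun i j : Fin m => M i.val j.val) =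
      Matrix.permanent (Matrix.of fun i j : Fin n => M i.val j.val) := by
  subst h
  rfl

end DNAux

open DNAux in
theorem stub_dense : StubDense := by
  intro n R hn hR
  subst hn
  unfold permS
  rw [permS_cast (denseR R.length R).length R.length (by unfold denseR; rw [List.length_map])
    (fun i j => ent3 (((denseR R.length R).getD i []).getD j (false, false)))]
  rw [← Fin.prod_univ_fun_getElem R form]
  have h1 : ∀ i : Fin R.length, form R[i.val] = ∑ j : Fin R.length,
      (MvPolynomial.C (entR R[i.val] j.val) * MvPolynomial.X j.val : MvPolynomial ℕ ℤ) := by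
    intro i
    have h2 := hR R[i.val] (List.getElem_mem i.2)
    rw [form_eq R.length R[i.val] h2.1 h2.2]
    exact Finset.sum_range (fun c => (MvPolynomial.C (entR R[i.val] c) * MvPolynomial.X c :
      MvPolynomial ℕ ℤ))
  rw [Finset.prod_congr rfl (fun i _ => h1 i),
    coeff_prod R.length (fun i j => entR R[i.val] j.val)]
  congr 1
  ext i j
  simp only [Matrix.of_apply]
  have h3 : (denseR R.length R).getD i.val [] = (List.range R.length).map
      (fun c => (decide ((c, true) ∈ R[i.val]), decide ((c, false) ∈ R[i.val]))) := by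
    unfold denseR
    rw [List.getD_eq_getElem _ _ (by rw [List.length_map]; exact i.2), List.getElem_map]
  rw [h3, List.getD_eq_getElem _ _ (by rw [List.length_map, List.length_range]; exact j.2),
    List.getElem_map, List.getElem_range]
  rfl

end Pool.Agent.H570R2.Mono
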