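import Pool.Agent.H570R2.Mono.Stubs
import Pool.Agent.H549R2.PM9

/-!
# Counting modulo an odd prime: definitions

The program `progS A` of a matrix with entries `0, 1, -1`, its version `(progS A).map (tau p)` for
the prime `p` (the multiplicities `-1, -2, -3, -6, 1` are replaced by their residues modulo `p`),
and the matrix `satM φ` with `perm (satM φ) = 4 ^ L * #φ`.
-/

namespace Pool.Agent.H570R2.Mono

open Pool.Agent.NPC.Cnt Pool.Agent.H549R2.PM MvPolynomial

/-! ### Matrices with entries `0, 1, -1` -/

/-- Matrices; the entry `(true, false)` is `1`, `(false, true)` is `-1`, the others are `0`. -/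
abbrev SM := List (List (Bool × Bool))

def ent3 (e : Bool × Bool) : ℤ := (bif e.1 then 1 else 0) - (bif e.2 then 1 else 0)

/-- the permanent -/
noncomputable def permS (A : SM) : ℤ :=
  Matrix.permanent (Matrix.of fun i j : Fin A.length =>
    ent3 ((A.getD i.val []).getD j.val (false, false)))

/-- the cell of an entry -/
def cellS (n : ℕ) (e : Bool × Bool) : List Ins :=
  at' 2 n (spl 2 0) ++ at' 3 n (spl 2 0) ++
  (bif !e.1 && e.2 then at' 3 (n + 1) (spl 2 0) ++ at' 2 (n + 2) (mrg 2) else []) ++
  adv 1 (n + 2) ++ at' 0 (n + 4) (mrg 2) ++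
  (tok (xor e.1 e.2) ++ rots (n + 1)) ++
  (adv 1 n ++ at' 0 (n + 3) (spl 6 0) ++ at' 1 (n + 2) (mrg 2) ++ at' 2 (n + 1) (spl 0 1) ++
  fxb 0 (n + 1) ++ rots 1)

/-- the program of a row -/
def rowS (n : ℕ) (r : List (Bool × Bool)) : List Ins :=
  [real, read, rst] ++ rots (n + 1) ++ r.flatMap (cellS n) ++ [deq, read, deq] ++ rots 1

/-- the program of a square matrix -/
def progS (A : SM) : List Ins :=
  List.replicate A.length real ++ [rst] ++ A.flatMap (rowS A.length)

/-! ### The version modulo `p` -/

/-- The multiplicity `b - a` is replaced by its residue modulo `p`. -/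
def tau (p : ℕ) (i : Ins) : Ins :=
  if 3 ≤ i.1 then (3, 0, (((i.2.2 : ℤ) - (i.2.1 : ℤ)) % (p : ℤ)).toNat) else i

/-- a block that multiplies the value by `N + 1`, on a queue of length `m` -/
def unitB (m N : ℕ) : List Ins := [real, por 0 N, read, rst] ++ rots m ++ [deq, deq, deq]

/-- a sequence of blocks that multiplies the permanent by `r` modulo `p` (`1 ≤ r < p`) -/
def sufP (p m r : ℕ) : List Ins :=
  unitB m (r - 1) ++ (List.replicate (p - 2) (unitB m (r - 2))).flatten

/-! ### The matrix of a formula -/

/-- the number of literals -/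
def nL (φ : CNF ℕ) : ℕ := φ.flatten.length

/-- the literal number `e` -/
def litAt (φ : CNF ℕ) (e : ℕ) : Bool × ℕ := φ.flatten.getD e (false, 0)

/-- A block: a sign and a list of pairs of sets of tokens.  The columns `2 e`, `2 e + 1` are the
tokens of the literal number `e` for the values false and true of its variable. -/
abbrev Blk := Bool × List (List ℕ × List ℕ)

/-- the block of a variable -/
def varBlk (φ : CNF ℕ) (v : ℕ) : Blk :=
  (true, ((List.range (nL φ)).filter (fun e => decide ((litAt φ e).2 = v))).map
    (fun e => ([2 * e], [2 * e + 1])))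

/-- the number of the first literal of the clause number `k` -/
def startC (φ : CNF ℕ) (k : ℕ) : ℕ := (φ.take k).flatten.length

/-- the pair of a literal in a clause -/
def litPair (φ : CNF ℕ) (e : ℕ) : List ℕ × List ℕ :=
  ([2 * e, 2 * e + 1], [bif (litAt φ e).1 then 2 * e + 1 else 2 * e])

/-- the block of a clause -/
def clauseBlk (φ : CNF ℕ) (k : ℕ) : Blk :=
  (false, (List.range (φ.getD k []).length).map (fun i => litPair φ (startC φ k + i)))

/-- the blocks of a formula -/
def blks (φ : CNF ℕ) : List Blk :=
  (vsL φ).map (varBlk φ) ++ (List.range φ.length).map (clauseBlk φ)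

/-- the sparse rows of a chain of gadgets; `(c, true)` is the entry `1` in the column `c`,
`(c, false)` the entry `-1` -/
def chainR : ℕ → List (List ℕ × List ℕ) → List (List (ℕ × Bool))
  | _, [] => []
  | c, (a, b) :: ps =>
    [(c, false), (c + 1, true), (c + 2, true)] ::
    (a.map (fun x => (x, true)) ++ [(c + 1, true), (c + 2, true)]) ::
    (b.map (fun x => (x, true)) ++ [(c + 1, true), (c + 2, false)]) ::
    [(c + 3, true), (c + 1, true), (c + 2, false)] :: chainR (c + 3) ps

/-- the sparse rows of a block, its own columns are `o, ..., o + 3 d` -/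
def blockR (o : ℕ) (b : Blk) : List (List (ℕ × Bool)) :=
  chainR o b.2 ++ [[(o, b.1), (o + 3 * b.2.length, true)]]

/-- the sparse rows of a list of blocks -/
def blocksR : ℕ → List Blk → List (List (ℕ × Bool))
  | _, [] => []
  | o, b :: bs => blockR o b ++ blocksR (o + 3 * b.2.length + 1) bs

/-- the sparse rows of a formula -/
def satR (φ : CNF ℕ) : List (List (ℕ × Bool)) := blocksR (2 * nL φ) (blks φ)

/-- the size of the matrix -/
def nS (φ : CNF ℕ) : ℕ := 2 * nL φ + ((blks φ).map (fun b => 3 * b.2.length + 1)).sum

/-- dense form of a sparse matrix -/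
def denseR (n : ℕ) (R : List (List (ℕ × Bool))) : SM :=
  R.map (fun r => (List.range n).map (fun c => (decide ((c, true) ∈ r), decide ((c, false) ∈ r))))

/-- the matrix of a formula -/
def satM (φ : CNF ℕ) : SM := denseR (nS φ) (satR φ)

/-! ### Linear forms -/

/-- the linear form of a sparse row -/
noncomputable def form (r : List (ℕ × Bool)) : MvPolynomial ℕ ℤ :=
  (r.map (fun c => C (bif c.2 then (1 : ℤ) else -1) * X c.1)).sum

/-- the sum of some variables -/
noncomputable def lin (l : List ℕ) : MvPolynomial ℕ ℤ := (l.map X).sum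

/-- the sign of a block -/
def sgB (b : Bool) : ℤ := bif b then 1 else -1

/-- the polynomial of a block in the tokens -/
noncomputable def blockV (b : Blk) : MvPolynomial ℕ ℤ :=
  (b.2.map (fun ab => lin ab.1)).prod + C (sgB b.1) * (b.2.map (fun ab => lin ab.2)).prod

/-- the monomial `X 0 * ... * X (n - 1)` -/
noncomputable def fullM (n : ℕ) : ℕ →₀ ℕ := ∑ c ∈ Finset.range n, Finsupp.single c 1

/-- The coefficient of `X v` (to the power one) as a polynomial in the other variables. -/
noncomputable def Ev (v : ℕ) (f : MvPolynomial ℕ ℤ) : MvPolynomial ℕ ℤ :=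
  aeval (fun i => if i = v then (0 : MvPolynomial ℕ ℤ) else X i) (pderiv v f)

/-- the coefficient of the product of the variables in `l` -/
noncomputable def EvL (l : List ℕ) (f : MvPolynomial ℕ ℤ) : MvPolynomial ℕ ℤ := l.foldr Ev f

/-! ### The final construction -/

/-- the program of a formula without the unit factor -/
def baseP (φ : CNF ℕ) : List Ins := progS (satM φ)

/-- a natural number congruent modulo `p` to the factor between the number of satisfying
assignments and the permanent -/
def xM (p : ℕ) (φ : CNF ℕ) : ℕ :=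
  facP ((baseP φ).map (tau p)) 0 *
    (((List.range (nS φ)).map (fun k => 8 * (List.replicate k ((p - 1) * 16)).prod)).prod *
      (List.replicate (nL φ) 4).prod)

/-- the inverse residue -/
def rM (p : ℕ) (φ : CNF ℕ) : ℕ := (xM p φ % p) ^ (p - 2) % p

/-- the program of a formula modulo `p` -/
def fullP (p : ℕ) (φ : CNF ℕ) : List Ins :=
  (baseP φ ++ sufP p (nS φ + 1) (rM p φ)).map (tau p)

/-- the points of the bipartite permutation graph of a formula -/
def ptsM (p : ℕ) (φ : CNF ℕ) : List (ℕ × ℕ) :=
  pts (rws 0 (fullP p φ) (1, 1)) (cls 0 (fullP p φ) (1, 1))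

end Pool.Agent.H570R2.Mono
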