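import Pool.Agent.H570R2.Modp.Stubs

/-!
# Shape of the sparse matrix (task SH)
-/

namespace Pool.Agent.H570R2.Mono

open Pool.Agent.NPC.Cnt Pool.Agent.H549R2.PM Pool.Agent.H549R2.Convex

theorem sh_chain_length (ps : List (List ℕ × List ℕ)) : ∀ c, (chainR c ps).length = 4 * ps.length := by
  induction ps with
  | nil => intro c; rfl
  | cons p ps ih =>
    intro c
    obtain ⟨a, b⟩ := p
    simp only [chainR, List.length_cons, ih]
    omega

theorem sh_blocks_length (bs : List Blk) : ∀ o,
    (blocksR o bs).length = (bs.map (fun b => 3 * b.2.length + 1)).sum +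
      (bs.map (fun b => b.2.length)).sum := by
  induction bs with
  | nil => intro o; rfl
  | cons b bs ih =>
    intro o
    simp only [blocksR, blockR, List.length_append, sh_chain_length, List.length_cons,
      List.length_nil, ih, List.map_cons, List.sum_cons]
    omega

theorem sh_count_aux (vs : List ℕ) (hvs : vs.Nodup) (x : ℕ) (hx : x ∈ vs) :
    (vs.map (fun v => if x = v then 1 else 0)).sum = 1 := by
  induction vs with
  | nil => simp at hx
  | cons v vs ih =>
    rw [List.nodup_cons] at hvs
    rw [List.map_cons, List.sum_cons]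
    by_cases h : x = v
    · subst h
      rw [if_pos rfl]
      have : (vs.map (fun v => if x = v then 1 else 0)).sum = 0 := by
        apply List.sum_eq_zero
        intro y hy
        rw [List.mem_map] at hy
        obtain ⟨v, hv, rfl⟩ := hy
        rw [if_neg]
        rintro rfl
        exact hvs.1 hv
      rw [this]
    · rw [if_neg h, ih hvs.2]
      rcases List.mem_cons.1 hx with h' | h'
      · exact absurd h' h
      · exact h'

theorem sh_partition (vs : List ℕ) (hvs : vs.Nodup) (g : ℕ → ℕ) (E : List ℕ)
    (hE : ∀ e ∈ E, g e ∈ vs) :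
    (vs.map (fun v => (E.filter (fun e => decide (g e = v))).length)).sum = E.length := by
  induction E with
  | nil => simp
  | cons e E ih =>
    have h1 : (vs.map (fun v => ((e :: E).filter (fun e => decide (g e = v))).length)) =
        (vs.map (fun v => (if g e = v then 1 else 0) +
          (E.filter (fun e => decide (g e = v))).length)) := by
      apply List.map_congr_left
      intro v _
      rw [List.filter_cons]
      by_cases h : g e = v
      · simp [h]; omega
      · simp [h]
    rw [h1, List.sum_map_add, ih (fun e he => hE e (List.mem_cons_of_mem _ he)),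
      sh_count_aux vs hvs (g e) (hE e List.mem_cons_self), List.length_cons]
    omega

theorem sh_getD_lengths (φ : CNF ℕ) :
    ((List.range φ.length).map (fun k => (φ.getD k []).length)).sum = φ.flatten.length := by
  rw [List.length_flatten]
  congr 1
  apply List.ext_getElem
  · simp
  · intro i h1 h2
    simp only [List.length_map, List.length_range] at h1
    simp [List.getD_eq_getElem?_getD, List.getElem?_eq_getElem h1]

theorem sh_lit_mem (φ : CNF ℕ) (e : ℕ) (he : e < nL φ) : (litAt φ e).2 ∈ vsL φ := by
  rw [vsL, mem_dd, List.mem_map]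
  refine ⟨litAt φ e, ?_, rfl⟩
  unfold litAt
  have he' : e < φ.flatten.length := he
  rw [List.getD_eq_getElem?_getD, List.getElem?_eq_getElem he', Option.getD_some]
  exact List.getElem_mem he'

theorem sh_sum_d (φ : CNF ℕ) : ((blks φ).map (fun b => b.2.length)).sum = 2 * nL φ := by
  unfold blks
  rw [List.map_append, List.sum_append, List.map_map, List.map_map]
  have h1 : ((vsL φ).map ((fun b : Blk => b.2.length) ∘ varBlk φ)).sum = nL φ := by
    have : ((fun b : Blk => b.2.length) ∘ varBlk φ) = fun v =>
        ((List.range (nL φ)).filter (fun e => decide ((litAt φ e).2 = v))).length := by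
      funext v
      simp [varBlk]
    rw [this, sh_partition (vsL φ) (dd_nodup _) (fun e => (litAt φ e).2) (List.range (nL φ))
      (fun e he => sh_lit_mem φ e (List.mem_range.1 he)), List.length_range]
  have h2 : ((List.range φ.length).map ((fun b : Blk => b.2.length) ∘ clauseBlk φ)).sum =
      nL φ := by
    have : ((fun b : Blk => b.2.length) ∘ clauseBlk φ) = fun k => (φ.getD k []).length := by
      funext v
      simp [clauseBlk]
    rw [this, sh_getD_lengths]
    rfl
  rw [h1, h2]
  omega

theorem sh_nodup_tok (a : List ℕ) (c : ℕ) (s : Bool) (ha : a.Nodup) (hc : ∀ x ∈ a, x < c) :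
    (a.map (fun x => (x, true)) ++ [(c + 1, true), (c + 2, s)]).Nodup := by
  rw [List.nodup_append]
  refine ⟨?_, ?_, ?_⟩
  · exact ha.map (fun x y h => (Prod.mk.inj h).1)
  · simp
  · intro p hp p' hp'
    rw [List.mem_map] at hp
    obtain ⟨x, hx, rfl⟩ := hp
    have := hc x hx
    simp only [List.mem_cons, List.not_mem_nil, or_false] at hp'
    rcases hp' with rfl | rfl
    · intro h; rw [Prod.mk.injEq] at h; omega
    · intro h; rw [Prod.mk.injEq] at h; omega

theorem sh_chain (ps : List (List ℕ × List ℕ)) : ∀ c,
    (∀ ab ∈ ps, ab.1.Nodup ∧ ab.2.Nodup ∧ (∀ x ∈ ab.1, x < c) ∧ ∀ x ∈ ab.2, x < c) →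
    ∀ r ∈ chainR c ps, r.Nodup ∧ ∀ e ∈ r, e.1 ≤ c + 3 * ps.length := by
  induction ps with
  | nil => intro c _ r hr; simp [chainR] at hr
  | cons p ps ih =>
    intro c h r hr
    obtain ⟨a, b⟩ := p
    obtain ⟨ha, hb, ha', hb'⟩ := h (a, b) List.mem_cons_self
    simp only at ha hb ha' hb'
    have ih' := ih (c + 3) (fun ab hab => by
      obtain ⟨h1, h2, h3, h4⟩ := h ab (List.mem_cons_of_mem _ hab)
      exact ⟨h1, h2, fun x hx => by have := h3 x hx; omega, fun x hx => by
        have := h4 x hx; omega⟩)
    simp only [chainR, List.mem_cons] at hr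
    rw [List.length_cons]
    rcases hr with rfl | rfl | rfl | rfl | hr
    · refine ⟨by simp, ?_⟩
      intro e he
      simp only [List.mem_cons, List.not_mem_nil, or_false] at he
      rcases he with rfl | rfl | rfl <;> simp only <;> omega
    · refine ⟨sh_nodup_tok a c true ha ha', ?_⟩
      intro e he
      rw [List.mem_append, List.mem_map] at he
      rcases he with ⟨x, hx, rfl⟩ | he
      · have := ha' x hx
        simp only
        omega
      · simp only [List.mem_cons, List.not_mem_nil, or_false] at he
        rcases he with rfl | rfl <;> simp only <;> omega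
    · refine ⟨sh_nodup_tok b c false hb hb', ?_⟩
      intro e he
      rw [List.mem_append, List.mem_map] at he
      rcases he with ⟨x, hx, rfl⟩ | he
      · have := hb' x hx
        simp only
        omega
      · simp only [List.mem_cons, List.not_mem_nil, or_false] at he
        rcases he with rfl | rfl <;> simp only <;> omega
    · refine ⟨by simp, ?_⟩
      intro e he
      simp only [List.mem_cons, List.not_mem_nil, or_false] at he
      rcases he with rfl | rfl | rfl <;> simp only <;> omega
    · obtain ⟨h1, h2⟩ := ih' r hr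
      refine ⟨h1, fun e he => ?_⟩
      have := h2 e he
      omega

/-- a good block -/
def ShGood (m : ℕ) (b : Blk) : Prop :=
  (∀ ab ∈ b.2, ab.1.Nodup ∧ ab.2.Nodup ∧ (∀ x ∈ ab.1, x < m) ∧ ∀ x ∈ ab.2, x < m) ∧
    (b.1 = false ∨ b.2 ≠ [])

theorem sh_block {m o : ℕ} (hm : m ≤ o) {b : Blk} (hb : ShGood m b) :
    ∀ r ∈ blockR o b, r.Nodup ∧ ∀ e ∈ r, e.1 ≤ o + 3 * b.2.length := by
  intro r hr
  unfold blockR at hr
  rw [List.mem_append] at hr
  rcases hr with hr | hr
  · refine sh_chain b.2 o (fun ab hab => ?_) r hr
    obtain ⟨h1, h2, h3, h4⟩ := hb.1 ab hab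
    exact ⟨h1, h2, fun x hx => (h3 x hx).trans_le hm, fun x hx => (h4 x hx).trans_le hm⟩
  · rw [List.mem_singleton] at hr
    subst hr
    refine ⟨?_, ?_⟩
    · rw [List.nodup_cons]
      refine ⟨?_, by simp⟩
      rw [List.mem_singleton, Prod.mk.injEq]
      rintro ⟨h1, h2⟩
      rcases hb.2 with h | h
      · rw [h] at h2
        exact absurd h2 (by simp)
      · have := List.length_pos_of_ne_nil h
        omega
    · intro e he
      simp only [List.mem_cons, List.not_mem_nil, or_false] at he
      rcases he with rfl | rfl <;> simp only <;> omega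

theorem sh_blocks {m : ℕ} (bs : List Blk) (hbs : ∀ b ∈ bs, ShGood m b) : ∀ o, m ≤ o →
    ∀ r ∈ blocksR o bs, r.Nodup ∧
      ∀ e ∈ r, e.1 < o + (bs.map (fun b => 3 * b.2.length + 1)).sum := by
  induction bs with
  | nil => intro o _ r hr; simp [blocksR] at hr
  | cons b bs ih =>
    intro o ho r hr
    simp only [blocksR, List.mem_append] at hr
    rw [List.map_cons, List.sum_cons]
    rcases hr with hr | hr
    · obtain ⟨h1, h2⟩ := sh_block ho (hbs b List.mem_cons_self) r hr
      refine ⟨h1, fun e he => ?_⟩
      have := h2 e he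
      omega
    · obtain ⟨h1, h2⟩ := ih (fun b hb => hbs b (List.mem_cons_of_mem _ hb)) _
        (show m ≤ o + 3 * b.2.length + 1 by omega) r hr
      refine ⟨h1, fun e he => ?_⟩
      have := h2 e he
      omega

theorem sh_start (φ : CNF ℕ) (k : ℕ) (hk : k < φ.length) :
    startC φ k + (φ.getD k []).length ≤ nL φ := by
  unfold startC nL
  have h1 : φ.getD k [] = φ[k] := by
    rw [List.getD_eq_getElem?_getD, List.getElem?_eq_getElem hk, Option.getD_some]
  rw [h1]
  have h2 : (φ.take (k + 1)).flatten.length = (φ.take k).flatten.length + φ[k].length := by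
    rw [List.take_add_one, List.getElem?_eq_getElem hk, List.flatten_append, List.length_append]
    simp
  rw [← h2]
  conv_rhs => rw [← List.take_append_drop (k + 1) φ, List.flatten_append, List.length_append]
  omega

theorem sh_good (φ : CNF ℕ) : ∀ b ∈ blks φ, ShGood (2 * nL φ) b := by
  intro b hb
  unfold blks at hb
  rw [List.mem_append, List.mem_map, List.mem_map] at hb
  rcases hb with ⟨v, hv, rfl⟩ | ⟨k, hk, rfl⟩
  · refine ⟨?_, Or.inr ?_⟩
    · intro ab hab
      simp only [varBlk, List.mem_map, List.mem_filter, List.mem_range] at hab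
      obtain ⟨e, ⟨he, _⟩, rfl⟩ := hab
      refine ⟨by simp, by simp, ?_, ?_⟩
      · intro x hx
        simp only [List.mem_singleton] at hx
        omega
      · intro x hx
        simp only [List.mem_singleton] at hx
        omega
    · rw [vsL, mem_dd, List.mem_map] at hv
      obtain ⟨l, hl, rfl⟩ := hv
      obtain ⟨e, he, rfl⟩ := List.mem_iff_getElem.1 hl
      intro hnil
      have hmem : ([2 * e], [2 * e + 1]) ∈ (varBlk φ (φ.flatten[e]).2).2 := by
        simp only [varBlk, List.mem_map, List.mem_filter, List.mem_range]
        refine ⟨e, ⟨he, ?_⟩, rfl⟩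
        rw [decide_eq_true_eq]
        unfold litAt
        rw [List.getD_eq_getElem?_getD, List.getElem?_eq_getElem he, Option.getD_some]
      rw [hnil] at hmem
      exact absurd hmem (by simp)
  · rw [List.mem_range] at hk
    refine ⟨?_, Or.inl rfl⟩
    intro ab hab
    simp only [clauseBlk, List.mem_map, List.mem_range] at hab
    obtain ⟨i, hi, rfl⟩ := hab
    have h1 := sh_start φ k hk
    have he : startC φ k + i < nL φ := by omega
    generalize startC φ k + i = e at he
    unfold litPair
    refine ⟨by simp, by simp, ?_, ?_⟩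
    · intro x hx
      simp only [List.mem_cons, List.not_mem_nil, or_false] at hx
      omega
    · intro x hx
      simp only [List.mem_singleton] at hx
      cases h : (litAt φ e).1 <;> rw [h] at hx <;> simp only [cond_true, cond_false] at hx <;> omega

theorem stub_shape : StubShape := by
  intro φ
  refine ⟨?_, ?_⟩
  · unfold satR nS
    rw [sh_blocks_length, sh_sum_d]
    omega
  · exact sh_blocks (blks φ) (sh_good φ) (2 * nL φ) le_rfl

end Pool.Agent.H570R2.Mono
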