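import Pool.Agent.H570R2.Modp.Val3
import Pool.Agent.H570R2.Modp.SH
import Pool.Agent.H570R2.Modp.CS
import Pool.Agent.H570R2.Modp.BL
import Pool.Agent.H584R2.Modp.TK
import Pool.Agent.H573R2.Modp.TR
import Pool.Agent.H570R2.Mono.G
import Pool.Agent.H570R2.Mono.L
import Pool.Agent.H99R2.Mono.S

/-!
# The number of perfect matchings modulo `p`
-/

namespace Pool.Agent.H570R2.Mono

open Pool.Agent.NPC.Cnt Pool.Agent.H549R2.PM Pool.Agent.H549R2.Convex

theorem reads_tau (p : ℕ) : ∀ pr : List Ins, reads (pr.map (tau p)) = reads pr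
  | [] => rfl
  | i :: pr => by
    rw [List.map_cons, reads, reads, reads_tau p pr, tau]
    by_cases h : 3 ≤ i.1
    · rw [if_pos h, if_neg (by omega), if_neg (by omega)]
    · rw [if_neg h]

theorem reals_tau (p : ℕ) : ∀ pr : List Ins, reals (pr.map (tau p)) = reals pr
  | [] => rfl
  | i :: pr => by
    rw [List.map_cons, reals, reals, reals_tau p pr, tau]
    by_cases h : 3 ≤ i.1
    · rw [if_pos h, if_neg (by omega), if_neg (by omega)]
    · rw [if_neg h]

theorem satM_length (φ : CNF ℕ) : (satM φ).length = nS φ := by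
  rw [satM, denseR, List.length_map, (stub_shape φ).1]

theorem satM_square (φ : CNF ℕ) : ∀ x ∈ satM φ, x.length = (satM φ).length := by
  intro x hx
  rw [satM_length]
  rw [satM, denseR, List.mem_map] at hx
  obtain ⟨r, -, rfl⟩ := hx
  simp

section Arith

variable (p : ℕ) [hp : Fact p.Prime]

theorem unit_arith (hp2 : p ≠ 2) (x : ℕ) (hx : (x : ZMod p) ≠ 0) (r : ℕ)
    (hr : r = (x % p) ^ (p - 2) % p) :
    (x : ZMod p) * ((((r - 1).factorial : ℕ) : ZMod p) * (((r - 2).factorial : ℕ) : ZMod p) ^ (p - 2)) *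
      ((((r - 1 : ℕ) : ZMod p) + 1) * (((r - 2 : ℕ) : ZMod p) + 1) ^ (p - 2)) = 1 := by
  have hp3 : 3 ≤ p := by
    have := hp.1.two_le
    omega
  have hfermat : ∀ y : ZMod p, y ≠ 0 → y ^ (p - 1) = 1 := fun y hy => ZMod.pow_card_sub_one_eq_one hy
  have hxr : (x : ZMod p) * (r : ZMod p) = 1 := by
    rw [hr, ZMod.natCast_mod, Nat.cast_pow, ZMod.natCast_mod, ← pow_succ',
      show p - 2 + 1 = p - 1 by omega]
    exact hfermat _ hx
  have hr0 : (r : ZMod p) ≠ 0 := by
    intro h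
    rw [h, mul_zero] at hxr
    exact zero_ne_one hxr
  have hrp : r < p := by
    rw [hr]
    exact Nat.mod_lt _ (by omega)
  have hr1 : 1 ≤ r := by
    rcases Nat.eq_zero_or_pos r with h | h
    · rw [h] at hr0
      exact absurd Nat.cast_zero hr0
    · exact h
  obtain ⟨s, rfl⟩ : ∃ s, r = s + 1 := ⟨r - 1, by omega⟩
  rw [Nat.add_sub_cancel]
  rcases s with _ | s
  · have h1 : (x : ZMod p) = 1 := by
      simpa using hxr
    simp [h1]
  · rw [show s + 1 + 1 - 2 = s by omega]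
    have hf : (((s + 1).factorial : ℕ) : ZMod p) ≠ 0 := by
      rw [Ne, ZMod.natCast_eq_zero_iff, hp.1.dvd_factorial]
      omega
    have h2 : (((s + 1).factorial : ℕ) : ZMod p) = ((s : ZMod p) + 1) * ((s.factorial : ℕ) : ZMod p) := by
      rw [Nat.factorial_succ]
      push_cast
      ring
    calc (x : ZMod p) * ((((s + 1).factorial : ℕ) : ZMod p) * ((s.factorial : ℕ) : ZMod p) ^ (p - 2)) *
          ((((s + 1 : ℕ) : ZMod p) + 1) * (((s : ℕ) : ZMod p) + 1) ^ (p - 2))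
        = ((x : ZMod p) * ((s + 1 + 1 : ℕ) : ZMod p)) * ((((s + 1).factorial : ℕ) : ZMod p) *
          (((s : ZMod p) + 1) * ((s.factorial : ℕ) : ZMod p)) ^ (p - 2)) := by
          rw [mul_pow]
          push_cast
          ring
      _ = (((s + 1).factorial : ℕ) : ZMod p) * (((s + 1).factorial : ℕ) : ZMod p) ^ (p - 2) := by
          rw [hxr, one_mul, h2]
      _ = 1 := by
          rw [← pow_succ', show p - 2 + 1 = p - 1 by omega]
          exact hfermat _ hf

theorem cast_ne (k : ℕ) (a : ℕ) (hp2 : p ≠ 2) (ha : a = 2 ^ k) : ((a : ℕ) : ZMod p) ≠ 0 := by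
  rw [ha, Ne, ZMod.natCast_eq_zero_iff]
  intro h
  have h2 := hp.1.dvd_of_dvd_pow h
  exact hp2 ((Nat.prime_dvd_prime_iff_eq hp.1 Nat.prime_two).1 h2)

theorem prodK (n : ℕ) : (((((List.range n).map
      (fun k => 8 * (List.replicate k ((p - 1) * 16)).prod)).prod : ℕ) : ZMod p)) =
    ((∏ k ∈ Finset.range n, 8 * (-16 : ℤ) ^ k : ℤ) : ZMod p) := by
  have h1 : ((((p - 1) * 16 : ℕ)) : ZMod p) = ((-16 : ℤ) : ZMod p) := by
    rw [Nat.cast_mul, Nat.cast_sub hp.1.one_le]
    simp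
  induction n with
  | zero => simp
  | succ n ih =>
    rw [List.range_succ, List.map_append, List.prod_append, Nat.cast_mul, ih,
      Finset.prod_range_succ, Int.cast_mul]
    congr 1
    simp only [List.map_cons, List.map_nil, List.prod_cons, List.prod_nil, mul_one,
      List.prod_replicate]
    rw [Nat.cast_mul, Nat.cast_pow, h1]
    push_cast
    ring

theorem prodK_ne (hp2 : p ≠ 2) (n : ℕ) :
    ((∏ k ∈ Finset.range n, 8 * (-16 : ℤ) ^ k : ℤ) : ZMod p) ≠ 0 := by
  rw [Int.cast_prod, Finset.prod_ne_zero_iff]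
  intro k _
  have h1 : (((8 * (-16 : ℤ) ^ k : ℤ)) : ZMod p) = (-1) ^ k * ((2 ^ (3 + 4 * k) : ℕ) : ZMod p) := by
    push_cast
    rw [neg_pow, pow_add, pow_mul]
    norm_num
    ring
  rw [h1]
  refine mul_ne_zero ?_ (cast_ne p _ _ hp2 rfl)
  exact pow_ne_zero _ (neg_ne_zero.2 one_ne_zero)

end Arith

/-- **The number of perfect matchings modulo `p`.** -/
theorem pm_mod (hFC : StubFac) (hML : StubModLink) (hSA : StubSat) (p : ℕ) [hp : Fact p.Prime]
    (hp2 : p ≠ 2) (φ : CNF ℕ) :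
    ((pmP (ptsM p φ) : ℕ) : ZMod p) = ((satCount φ : ℕ) : ZMod p) ∧ BipPerm (ptsM p φ) := by
  have hlen := satM_length φ
  have hsq := satM_square φ
  have hp0 : 0 < p := hp.1.pos
  set pr := baseP φ ++ sufP p (nS φ + 1) (rM p φ) with hpr
  have hrp : rM p φ < p := Nat.mod_lt _ hp0
  have hcount : reads pr = reals pr := stub_countS (satM φ) p (nS φ + 1) (rM p φ) hsq
  obtain ⟨hne, hF⟩ := hML Pool.Agent.H573R2.Modp.stub_transfer stub_link p hp2 pr hcount
  have hval : V (-1) pr ℤ [] = (∏ k ∈ Finset.range (nS φ), 8 * (-16 : ℤ) ^ k) * permS (satM φ) *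
      (((rM p φ - 1 : ℕ) : ℤ) + 1) * (((rM p φ - 2 : ℕ) : ℤ) + 1) ^ (p - 2) := by
    have h := stub_val (satM φ) p (rM p φ) hsq
    rw [hlen] at h
    exact h
  have hperm : permS (satM φ) = 4 ^ nL φ * satCount φ := by
    have h1 := stub_dense (nS φ) (satR φ) (stub_shape φ).1 (stub_shape φ).2
    rw [← hSA stub_block Pool.Agent.H584R2.Modp.stub_tok φ, ← h1]
    rfl
  have hfac := hFC p hp2 (baseP φ) (nS φ + 1) (rM p φ) hrp
  rw [← hpr] at hfac
  have hbase : (facP ((baseP φ).map (tau p)) 0 : ZMod p) ≠ 0 := by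
    intro h
    rw [h, zero_mul] at hfac
    exact hne hfac
  -- the graph
  obtain ⟨s1, s2, s3, s4, s5, s6⟩ := stub_sort (fullP p φ) 0
  have hcount' : reads (fullP p φ) = reals (fullP p φ) := by
    rw [fullP, reads_tau, reals_tau]
    exact hcount
  obtain ⟨g1, g2⟩ := stub_graph (rws 0 (fullP p φ) (1, 1)) (cls 0 (fullP p φ) (1, 1))
    (s5 hcount') s1 s2 s3
  refine ⟨?_, g2⟩
  have hpts : pmP (ptsM p φ) = F (matP (pr.map (tau p)) 0) := g1
  rw [hpts, hF, hfac, hval, hperm]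
  -- arithmetic
  have hx : ((xM p φ : ℕ) : ZMod p) = (facP ((baseP φ).map (tau p)) 0 : ZMod p) *
      (((∏ k ∈ Finset.range (nS φ), 8 * (-16 : ℤ) ^ k : ℤ) : ZMod p) * 4 ^ nL φ) := by
    rw [xM, Nat.cast_mul, Nat.cast_mul, prodK, List.prod_replicate, Nat.cast_pow]
    norm_num
  have h4 : (4 ^ nL φ : ZMod p) ≠ 0 := by
    have := cast_ne p (2 * nL φ) (4 ^ nL φ) hp2 (by rw [pow_mul]; norm_num)
    push_cast at this
    exact this
  have hx0 : ((xM p φ : ℕ) : ZMod p) ≠ 0 := by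
    rw [hx]
    exact mul_ne_zero hbase (mul_ne_zero (prodK_ne p hp2 _) h4)
  have hunit := unit_arith p hp2 (xM p φ) hx0 (rM p φ) rfl
  rw [hx] at hunit
  push_cast
  push_cast at hunit
  linear_combination ((satCount φ : ℕ) : ZMod p) * hunit

end Pool.Agent.H570R2.Mono
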