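import Pool.Agent.H570R2.Modp.Stubs

/-! Task MB: perfect matchings of the graphs of point lists are in `#P` (adapted from
`Pool/Agent/H549R2/PM10.lean`; helper602) -/

namespace Pool.Agent.NPC.H570Mono

open Pool.Agent.NPC.Cnt Pool.Agent.H549R2.PM Pool.Agent.H570R2.Mono

/-- test for adjacency -/
def adjB (p q : ℕ × ℕ) : Bool :=
  (decide (p.1 < q.1) && decide (q.2 < p.2)) || (decide (q.1 < p.1) && decide (p.2 < q.2))

theorem adjB_iff (p q : ℕ × ℕ) : adjB p q = true ↔
    (p.1 < q.1 ∧ q.2 < p.2) ∨ (q.1 < p.1 ∧ p.2 < q.2) := by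
  simp [adjB]

/-- test of one entry of a certificate -/
def certP1 (x : (List (ℕ × ℕ) × List ℕ) × ℕ) : Bool :=
  decide (x.1.2.getD x.2 0 < x.1.1.length) && (decide (x.1.2.getD (x.1.2.getD x.2 0) 0 = x.2) &&
    (!decide (x.1.2.getD x.2 0 = x.2) &&
      adjB (x.1.1.getD x.2 (0, 0)) (x.1.1.getD (x.1.2.getD x.2 0) (0, 0))))

/-- test of a certificate: the list of the partners of all vertices -/
def certP (l : List (ℕ × ℕ)) (c : List ℕ) : Bool :=
  decide (c.length = l.length) && (List.range l.length).all (fun i => certP1 ((l, c), i))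

theorem certP_poly : Poly (fun x : List (ℕ × ℕ) × List ℕ => certP x.1 x.2) := by
  have h0 : Poly (fun x : List (ℕ × ℕ) × List ℕ => decide (x.2.length = x.1.length)) :=
    Poly.decide_eq (Poly.length (Poly.snd Poly.id)) (Poly.length (Poly.fst Poly.id))
  have hl : Poly (fun x : (List (ℕ × ℕ) × List ℕ) × ℕ => x.1.1) := Poly.fst (Poly.fst Poly.id)
  have hc : Poly (fun x : (List (ℕ × ℕ) × List ℕ) × ℕ => x.1.2) := Poly.snd (Poly.fst Poly.id)
  have hi : Poly (fun x : (List (ℕ × ℕ) × List ℕ) × ℕ => x.2) := Poly.snd Poly.id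
  have h1 : Poly (fun x : (List (ℕ × ℕ) × List ℕ) × ℕ => x.1.2.getD x.2 0) :=
    Poly.getD hc hi (Poly.const 0)
  have h2 : Poly (fun x : (List (ℕ × ℕ) × List ℕ) × ℕ => x.1.2.getD (x.1.2.getD x.2 0) 0) :=
    Poly.getD hc h1 (Poly.const 0)
  have h3 : Poly (fun x : (List (ℕ × ℕ) × List ℕ) × ℕ => x.1.1.getD x.2 (0, 0)) :=
    Poly.getD hl hi (Poly.const (0, 0))
  have h4 : Poly (fun x : (List (ℕ × ℕ) × List ℕ) × ℕ => x.1.1.getD (x.1.2.getD x.2 0) (0, 0)) :=
    Poly.getD hl h1 (Poly.const (0, 0))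
  have h5 : Poly (fun x : (List (ℕ × ℕ) × List ℕ) × ℕ => adjB (x.1.1.getD x.2 (0, 0))
      (x.1.1.getD (x.1.2.getD x.2 0) (0, 0))) :=
    Poly.or (Poly.and (Poly.decide_lt (Poly.fst h3) (Poly.fst h4))
        (Poly.decide_lt (Poly.snd h4) (Poly.snd h3)))
      (Poly.and (Poly.decide_lt (Poly.fst h4) (Poly.fst h3))
        (Poly.decide_lt (Poly.snd h3) (Poly.snd h4)))
  have h6 : Poly certP1 := Poly.and (Poly.decide_lt h1 (Poly.length hl))
    (Poly.and (Poly.decide_eq h2 hi) (Poly.and (Poly.not (Poly.decide_eq h1 hi)) h5))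
  exact Poly.and h0 (Poly.all (p := fun (x : List (ℕ × ℕ) × List ℕ) i => certP1 (x, i))
    (Poly.range_length (Poly.fst Poly.id)) h6)

theorem certP_iff (l : List (ℕ × ℕ)) (w : List ℕ) : certP l w = true ↔
    ∃ h : w.length = l.length, ∃ f : Fin l.length → Fin l.length,
      (∀ i : Fin l.length, (f i).val = w[i.val]) ∧ (∀ i, f (f i) = i) ∧
        ∀ i, (permGraph l).Adj i (f i) := by
  rw [certP, Bool.and_eq_true, decide_eq_true_eq, List.all_eq_true]
  constructor
  · rintro ⟨hlen, h⟩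
    refine ⟨hlen, ?_⟩
    have hall : ∀ i : Fin l.length, w[i.val] < l.length ∧ w.getD w[i.val] 0 = i.val ∧
        w[i.val] ≠ i.val ∧ adjB l[i.val] (l.getD w[i.val] (0, 0)) = true := by
      intro i
      have h1 := h i.val (List.mem_range.2 i.2)
      simp only [certP1, Bool.and_eq_true, decide_eq_true_eq, Bool.not_eq_true',
        decide_eq_false_iff_not] at h1
      rw [List.getD_eq_getElem w _ (by omega), List.getD_eq_getElem l _ i.2] at h1
      exact h1
    refine ⟨fun i => ⟨w[i.val], (hall i).1⟩, fun i => rfl, fun i => ?_, fun i => ?_⟩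
    · apply Fin.ext
      simp only
      have h2 := (hall i).2.1
      rw [List.getD_eq_getElem w _ (by have := (hall i).1; omega)] at h2
      exact h2
    · have h2 := (hall i).2.2.2
      rw [List.getD_eq_getElem l _ (hall i).1, adjB_iff] at h2
      exact h2
  · rintro ⟨hlen, f, hf1, hf2, hf3⟩
    refine ⟨hlen, fun i hi => ?_⟩
    rw [List.mem_range] at hi
    simp only [certP1, Bool.and_eq_true, decide_eq_true_eq, Bool.not_eq_true',
      decide_eq_false_iff_not]
    have h1 : w.getD i 0 = (f ⟨i, hi⟩).val := by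
      rw [List.getD_eq_getElem w _ (by omega)]
      exact (hf1 ⟨i, hi⟩).symm
    rw [h1]
    refine ⟨(f ⟨i, hi⟩).2, ?_, ?_, ?_⟩
    · rw [List.getD_eq_getElem w _ (by rw [hlen]; exact (f ⟨i, hi⟩).2), ← hf1 (f ⟨i, hi⟩), hf2]
    · intro h'
      exact (hf3 ⟨i, hi⟩).ne (Fin.ext h').symm
    · rw [List.getD_eq_getElem l _ hi, List.getD_eq_getElem l _ (f ⟨i, hi⟩).2, adjB_iff]
      exact hf3 ⟨i, hi⟩

theorem card_certP (l : List (ℕ × ℕ)) : Nat.card {w : List ℕ // certP l w = true} = pmP l := by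
  rw [pmP, card_pm]
  symm
  refine Nat.card_congr (Equiv.ofBijective
    (fun f => (⟨List.ofFn (fun i => (f.1 i).val), ?_⟩ : {w : List ℕ // certP l w = true})) ⟨?_, ?_⟩)
  · rw [certP_iff]
    exact ⟨List.length_ofFn, f.1, fun i => by rw [List.getElem_ofFn], f.2⟩
  · intro f g h
    apply Subtype.ext
    have h1 := congrArg Subtype.val h
    simp only at h1
    have h2 := List.ofFn_injective h1
    funext i
    exact Fin.ext (congrFun h2 i)
  · rintro ⟨w, hc⟩
    obtain ⟨hlen, f, hf1, hf2⟩ := (certP_iff l w).1 hc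
    refine ⟨⟨f, hf2⟩, ?_⟩
    apply Subtype.ext
    simp only
    apply List.ext_getElem
    · rw [List.length_ofFn, hlen]
    · intro i h1 h2
      rw [List.getElem_ofFn]
      exact hf1 ⟨i, by omega⟩

theorem stub_mem : StubMem := by
  have h := sharpP_typed certP certP_poly
    (Polynomial.X * (Polynomial.C 4 * Polynomial.X + Polynomial.C 2) + Polynomial.C 1) ?_
  · have e : (fun l : List (ℕ × ℕ) => Nat.card {w : List ℕ // certP l w = true}) = pmP :=
      funext card_certP
    rw [e] at h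
    exact h
  · intro l w hc
    obtain ⟨hlen, f, hf1, hf2⟩ := (certP_iff l w).1 hc
    have h1 : ∀ a ∈ w, sz a ≤ 4 * l.length + 1 := by
      intro a ha
      obtain ⟨i, hi, rfl⟩ := List.mem_iff_getElem.1 ha
      have h2 : w[i] < l.length := by
        rw [← hf1 ⟨i, by omega⟩]
        exact (f _).2
      have h3 := sz_nat_le w[i]
      have h4 : (w[i]).size ≤ w[i] := Nat.size_le.2 Nat.lt_two_pow_self
      omega
    have h2 := sz_le_length_mul w _ h1
    have h3 := length_lt_sz l
    simp only [Polynomial.eval_add, Polynomial.eval_mul, Polynomial.eval_X, Polynomial.eval_C]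
    have h4 : w.length * (4 * l.length + 1 + 1) ≤ sz l * (4 * sz l + 2) :=
      Nat.mul_le_mul (by omega) (by omega)
    omega

end Pool.Agent.NPC.H570Mono
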