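import Pool.Agent.H570R2.Modp.Stubs
import Pool.Agent.H570R2.Mono.L
import Pool.Agent.H570R2.Mono.Alg1

/-!
# Tasks ML and FC (helper473): factorials and the permanent of the matrix of a program modulo `p`
-/

set_option autoImplicit false

namespace Pool.Agent.H570R2.Mono

open Pool.Agent.NPC.Cnt Pool.Agent.H549R2.PM Pool.Agent.H549R2.Convex

theorem ml_list_prod (f : ℕ → ℕ) (n : ℕ) :
    ((List.range n).map f).prod = ∏ κ ∈ Finset.range n, f κ := by
  induction n with
  | zero => simp
  | succ n ih => rw [List.range_succ, List.map_append, List.prod_append, ih,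
      Finset.prod_range_succ]; simp

/-- the factor of an instruction -/
def mlFac (i : Ins) : ℕ := if i.1 ≤ 2 then 1 else i.2.2.factorial

theorem ml_prod_add {N t b : ℕ} (ht : t < N) {l : List ℕ} (hl : t ∉ l) :
    ∏ κ ∈ Finset.range N, ((List.replicate b t ++ l).count κ).factorial =
      b.factorial * ∏ κ ∈ Finset.range N, (l.count κ).factorial := by
  have h : ∀ κ ∈ Finset.range N, ((List.replicate b t ++ l).count κ).factorial =
      (if κ = t then b.factorial else 1) * (l.count κ).factorial := by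
    intro κ _
    rw [List.count_append, List.count_replicate]
    by_cases hκ : κ = t
    · subst hκ
      rw [List.count_eq_zero_of_not_mem hl]
      simp
    · have : ¬ (t == κ) = true := by
        rw [beq_iff_eq]
        exact fun h => hκ h.symm
      rw [if_neg this, if_neg hκ]
      simp
  rw [Finset.prod_congr rfl h, Finset.prod_mul_distrib, Finset.prod_ite_eq']
  rw [if_pos (Finset.mem_range.mpr ht)]

theorem ml_fac_aux : ∀ (pr : List Ins) (h t N : ℕ), t + pr.length ≤ N →
    ∏ κ ∈ Finset.range (N + 1), ((cls 0 pr (h, t)).count κ).factorial =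
      (pr.map mlFac).prod
  | [], h, t, N, _ => by simp [cls]
  | i :: pr, h, t, N, hN => by
    rw [List.length_cons] at hN
    rw [cls, List.map_cons, List.prod_cons]
    have hge : ∀ s : ℕ × ℕ, s.2 = t + 1 → t ∉ cls 0 pr s := by
      intro s hs hmem
      have := L_cls_ge 0 pr s t hmem
      omega
    by_cases h0 : i.1 = 0
    · have e1 : colsAt 0 i (h, t) = [] := by unfold colsAt; simp [h0]
      have e2 : step (h, t) i = (min (h + 1) t, t) := by unfold step; simp [h0]
      rw [e1, e2, List.nil_append, ml_fac_aux pr _ t N (by omega)]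
      have e3 : mlFac i = 1 := by unfold mlFac; simp [h0]
      rw [e3, one_mul]
    · by_cases h2 : i.1 = 2
      · have e1 : colsAt 0 i (h, t) = [] := by unfold colsAt; simp [h2]
        have e2 : step (h, t) i = (h, t) := by unfold step; simp [h2]
        rw [e1, e2, List.nil_append, ml_fac_aux pr _ t N (by omega)]
        have e3 : mlFac i = 1 := by unfold mlFac; simp [h2]
        rw [e3, one_mul]
      · have e2 : step (h, t) i = (h, t + 1) := by unfold step; simp [h0, h2]
        by_cases h1 : i.1 = 1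
        · have e1 : colsAt 0 i (h, t) = List.replicate 1 t := by unfold colsAt; simp [h1]
          rw [e1, e2, ml_prod_add (by omega) (hge _ rfl), ml_fac_aux pr _ (t + 1) N (by omega)]
          have e3 : mlFac i = 1 := by unfold mlFac; simp [h1]
          rw [e3]
          simp
        · have e1 : colsAt 0 i (h, t) = List.replicate i.2.2 t := by
            unfold colsAt; simp [h0, h1, h2]
          rw [e1, e2, ml_prod_add (by omega) (hge _ rfl), ml_fac_aux pr _ (t + 1) N (by omega)]
          have e3 : mlFac i = i.2.2.factorial := by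
            unfold mlFac; rw [if_neg (by omega)]
          rw [e3]

/-- The product formula for the factorials. -/
theorem ml_facP (pr : List Ins) : facP pr 0 = (pr.map mlFac).prod := by
  unfold facP
  rw [ml_list_prod (fun κ => ((cls 0 pr (1, 1)).count κ).factorial)]
  have h := ml_fac_aux pr 1 1 (pr.length + 1) (by omega)
  rw [Finset.prod_range_succ] at h
  have h2 : pr.length + 1 ∉ cls 0 pr (1, 1) := by
    intro hmem
    have := L_cls_lt 0 pr (1, 1) _ hmem
    simp only at this
    omega
  rw [List.count_eq_zero_of_not_mem h2, Nat.factorial_zero, mul_one] at h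
  exact h

theorem ml_reads_tau (p : ℕ) (pr : List Ins) : reads (pr.map (tau p)) = reads pr := by
  induction pr with
  | nil => rfl
  | cons i pr ih =>
    rw [List.map_cons, reads, reads, ih]
    congr 1
    unfold tau
    by_cases h : 3 ≤ i.1
    · rw [if_pos h]
      have : i.1 ≠ 2 := by omega
      simp [this]
    · rw [if_neg h]

theorem ml_reals_tau (p : ℕ) (pr : List Ins) : reals (pr.map (tau p)) = reals pr := by
  induction pr with
  | nil => rfl
  | cons i pr ih =>
    rw [List.map_cons, reals, reals, ih]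
    congr 1
    unfold tau
    by_cases h : 3 ≤ i.1
    · rw [if_pos h]
      have : i.1 ≠ 1 := by omega
      simp [this]
    · rw [if_neg h]

theorem ml_fac_tau (p : ℕ) (i : Ins) : mlFac (tau p i) =
    if i.1 ≤ 2 then 1 else ((((i.2.2 : ℤ) - (i.2.1 : ℤ)) % (p : ℤ)).toNat).factorial := by
  unfold mlFac tau
  by_cases h : 3 ≤ i.1
  · have h' : ¬ i.1 ≤ 2 := by omega
    rw [if_pos h, if_neg h']
    simp
  · rw [if_neg h]
    have : i.1 ≤ 2 := by omega
    rw [if_pos this, if_pos this]

theorem ml_ne_zero (p : ℕ) [hp : Fact p.Prime] (pr : List Ins) :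
    (facP (pr.map (tau p)) 0 : ZMod p) ≠ 0 := by
  rw [ml_facP, List.map_map]
  rw [Ne, ZMod.natCast_eq_zero_iff]
  rw [Nat.Prime.prime hp.out |>.dvd_prod_iff]
  rintro ⟨a, ha, hd⟩
  rw [List.mem_map] at ha
  obtain ⟨i, _, rfl⟩ := ha
  rw [Function.comp_apply, ml_fac_tau] at hd
  have hp0 := hp.out.pos
  split_ifs at hd with h
  · exact hp.out.one_lt.ne' (Nat.dvd_one.mp hd)
  · rw [hp.out.dvd_factorial] at hd
    have h1 := Int.emod_lt_of_pos ((i.2.2 : ℤ) - (i.2.1 : ℤ)) (by exact_mod_cast hp0 : (0 : ℤ) < p)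
    have h2 := Int.emod_nonneg ((i.2.2 : ℤ) - (i.2.1 : ℤ)) (by exact_mod_cast hp0.ne' : (p : ℤ) ≠ 0)
    omega

/-- TASK ML -/
theorem stub_modlink : StubModLink := by
  intro htr hlink p hp _ pr hpr
  refine ⟨ml_ne_zero p pr, ?_⟩
  have h1 := hlink (pr.map (tau p)) 0 (by rw [ml_reads_tau, ml_reals_tau, hpr])
  have h2 := congrArg (fun z : ℤ => (z : ZMod p)) h1
  simp only [Int.cast_natCast, Int.cast_mul] at h2
  rw [h2]
  congr 1
  have h3 := V_map 0 (pr.map (tau p)) ℤ (ZMod p) (Int.castRingHom (ZMod p)) []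
  have h4 := V_map (-1) pr ℤ (ZMod p) (Int.castRingHom (ZMod p)) []
  have h5 := htr p pr (ZMod p) [] (by simp)
  rw [List.map_nil] at h3 h4
  simp only [eq_intCast] at h3 h4
  rw [h4, ← h5, ← h3]
  rfl

/-- the factor of an instruction modulo `p` -/
def mlT (p : ℕ) (i : Ins) : ZMod p := (mlFac (tau p i) : ZMod p)

theorem fc_facP (p : ℕ) (pr : List Ins) :
    (facP (pr.map (tau p)) 0 : ZMod p) = (pr.map (mlT p)).prod := by
  rw [ml_facP, List.map_map, Nat.cast_list_prod, List.map_map]
  rfl

theorem fc_rst (p : ℕ) [hp : Fact p.Prime] : mlT p rst = -1 := by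
  have hp2 := hp.out.two_le
  unfold mlT
  rw [ml_fac_tau, if_neg (by simp)]
  have h1 : ((((0 : ℕ) : ℤ) - ((1 : ℕ) : ℤ)) % (p : ℤ)).toNat = p - 1 := by
    have : (((0 : ℕ) : ℤ) - ((1 : ℕ) : ℤ)) % (p : ℤ) = (p : ℤ) - 1 := by
      have h2 : (((0 : ℕ) : ℤ) - ((1 : ℕ) : ℤ)) = ((p : ℤ) - 1) + (p : ℤ) * (-1) := by push_cast; ring
      rw [h2, Int.add_mul_emod_self_left]
      exact Int.emod_eq_of_lt (by omega) (by omega)
    rw [this]
    omega
  change (((((((0 : ℕ) : ℤ) - ((1 : ℕ) : ℤ)) % (p : ℤ)).toNat).factorial : ℕ) : ZMod p) = -1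
  rw [h1]
  exact ZMod.wilsons_lemma p

theorem fc_por (p : ℕ) (N : ℕ) (hN : N < p) : mlT p (por 0 N) = (N.factorial : ZMod p) := by
  unfold mlT
  rw [ml_fac_tau, if_neg (by simp)]
  have h1 : (((N : ℤ) - ((0 : ℕ) : ℤ)) % (p : ℤ)).toNat = N := by
    have : ((N : ℤ) - ((0 : ℕ) : ℤ)) % (p : ℤ) = N := by
      rw [Nat.cast_zero, sub_zero]
      exact Int.emod_eq_of_lt (by omega) (by exact_mod_cast hN)
    rw [this]
    omega
  change ((((((N : ℤ) - ((0 : ℕ) : ℤ)) % (p : ℤ)).toNat).factorial : ℕ) : ZMod p) = _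
  rw [h1]

theorem fc_small (p : ℕ) (i : Ins) (hi : i.1 ≤ 2) : mlT p i = 1 := by
  unfold mlT
  rw [ml_fac_tau, if_pos hi, Nat.cast_one]

theorem fc_rots (p : ℕ) [hp : Fact p.Prime] (m : ℕ) : ((rots m).map (mlT p)).prod = (-1) ^ m := by
  unfold rots
  induction m with
  | zero => simp
  | succ m ih =>
    rw [List.replicate_succ, List.flatten_cons, List.map_append, List.prod_append, ih]
    simp only [List.map_cons, List.map_nil, List.prod_cons, List.prod_nil]
    rw [fc_rst, fc_small p deq (by simp)]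
    ring

theorem fc_unit (p : ℕ) [hp : Fact p.Prime] (m N : ℕ) (hN : N < p) :
    ((unitB m N).map (mlT p)).prod = (N.factorial : ZMod p) * (-1) ^ (m + 1) := by
  unfold unitB
  rw [List.map_append, List.map_append, List.prod_append, List.prod_append, fc_rots]
  simp only [List.map_cons, List.map_nil, List.prod_cons, List.prod_nil]
  rw [fc_rst, fc_por p N hN, fc_small p deq (by simp), fc_small p real (by simp),
    fc_small p read (by simp)]
  ring

/-- TASK FC -/
theorem stub_fac : StubFac := by
  intro p hp hp2 pr m r hr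
  rw [fc_facP, fc_facP, List.map_append, List.prod_append]
  congr 1
  unfold sufP
  rw [List.map_append, List.prod_append, fc_unit p m (r - 1) (by omega)]
  have h1 : ∀ k : ℕ, (((List.replicate k (unitB m (r - 2))).flatten).map (mlT p)).prod =
      (((r - 2).factorial : ZMod p) * (-1) ^ (m + 1)) ^ k := by
    intro k
    induction k with
    | zero => simp
    | succ k ih =>
      rw [List.replicate_succ, List.flatten_cons, List.map_append, List.prod_append, ih,
        fc_unit p m (r - 2) (by omega), pow_succ]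
      ring
  rw [h1, mul_pow]
  have hodd : Odd p := hp.out.odd_of_ne_two hp2
  obtain ⟨j, hj⟩ := hodd
  have h2 : ((-1 : ZMod p) ^ (m + 1)) * ((-1) ^ (m + 1)) ^ (p - 2) = 1 := by
    rw [← pow_succ', ← pow_mul]
    have h3 : p - 2 + 1 = 2 * j := by
      have := hp.out.two_le
      omega
    rw [h3]
    have h4 : (m + 1) * (2 * j) = 2 * ((m + 1) * j) := by ring
    rw [h4, pow_mul]
    simp
  calc ((r - 1).factorial : ZMod p) * (-1) ^ (m + 1) *
        (((r - 2).factorial : ZMod p) ^ (p - 2) * ((-1) ^ (m + 1)) ^ (p - 2))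
      = ((r - 1).factorial : ZMod p) * ((r - 2).factorial : ZMod p) ^ (p - 2) *
        (((-1 : ZMod p) ^ (m + 1)) * ((-1) ^ (m + 1)) ^ (p - 2)) := by ring
    _ = _ := by rw [h2, mul_one]

end Pool.Agent.H570R2.Mono
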