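import Pool.Agent.H570R2.Modp.Stubs
import Pool.Agent.H539R2.MonoP

/-!
# The reduction modulo `p` runs in polynomial time
-/

namespace Pool.Agent.NPC.H570Mono

open Pool.Agent.H549R2.Convex Pool.Agent.NPC.Cnt Pool.Agent.NPC.H549Convex Pool.Agent.H570R2.Mono
  Pool.Agent.H549R2.PM Pool.Agent.NPC.H549PM

section General

variable {α β : Type} [TEnc α] [TEnc β]

theorem Q_take {l : α → List β} {k : α → ℕ} (hl : NPC.Poly l) (hk : NPC.Poly k) :
    NPC.Poly (fun a => (l a).take (k a)) := by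
  have key : ∀ (l : List β) (k s : ℕ),
      ((l.zipIdx s).filter (fun x => decide (x.2 < s + k))).map Prod.fst = l.take k := by
    intro l
    induction l with
    | nil => intro k s; simp
    | cons x l ih =>
      intro k s
      rw [List.zipIdx_cons]
      cases k with
      | zero =>
        have h : (((x, s) :: l.zipIdx (s + 1)).filter (fun x => decide (x.2 < s + 0))) = [] := by
          rw [List.filter_eq_nil_iff]
          intro q hq
          rcases List.mem_cons.1 hq with h | h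
          · rw [h]; simp
          · have := List.le_snd_of_mem_zipIdx h
            simp only [decide_eq_true_eq]
            omega
        rw [h]; simp
      | succ k =>
        have h := ih k (s + 1)
        rw [show s + 1 + k = s + (k + 1) by omega] at h
        rw [List.filter_cons_of_pos (by simp), List.map_cons, List.take_succ_cons, h]
  have h1 : NPC.Poly (fun a => (l a).zipIdx.filter (fun x => decide (x.2 < 0 + k a))) := by
    have h0 : NPC.Poly (fun a => (l a).zipIdx) := NPC.Poly.zipIdx hl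
    exact NPC.Poly.filter (p := fun a (x : β × ℕ) => decide (x.2 < 0 + k a)) h0
      (NPC.Poly.decide_lt (NPC.Poly.snd P_snd) (NPC.Poly.add (NPC.Poly.const 0) (hk.comp P_fst)))
  refine (NPC.Poly.map (F := fun _ (x : β × ℕ) => x.1) h1 (NPC.Poly.fst P_snd)).congr fun a => ?_
  exact key (l a) (k a) 0

theorem Q_pow {x : α → ℕ} (hx : NPC.Poly x) (k : ℕ) : NPC.Poly (fun a => x a ^ k) := by
  induction k with
  | zero => exact (NPC.Poly.const 1).congr fun a => by simp
  | succ k ih => exact (NPC.Poly.mul ih hx).congr fun a => by rw [pow_succ]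

/-! ### The rows and the columns with parameter zero -/

theorem Q_tau_val {p : ℕ} (hp : 1 ≤ p) (a b : ℕ) :
    (((b : ℤ) - (a : ℤ)) % (p : ℤ)).toNat = (b + (p - 1) * a) % p := by
  have h1 : ((b : ℤ) - (a : ℤ)) % (p : ℤ) = (((b + (p - 1) * a) % p : ℕ) : ℤ) := by
    rw [Int.natCast_mod, Nat.cast_add, Nat.cast_mul, Nat.cast_sub hp]
    refine (Int.emod_emod_of_dvd _ (dvd_refl _)).symm.trans ?_
    have : (b : ℤ) + ((p : ℤ) - ((1 : ℕ) : ℤ)) * (a : ℤ) = (b : ℤ) - a + p * a := by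
      push_cast; ring
    rw [this, Int.add_mul_emod_self_left, Int.emod_emod_of_dvd _ (dvd_refl _)]
  rw [h1, Int.toNat_natCast]

theorem Q_tau {p : ℕ} (hp : 1 ≤ p) : NPC.Poly (tau p) := by
  have h0 : NPC.Poly (fun i : Ins => i.1) := P_fst
  have h1 : NPC.Poly (fun i : Ins => i.2.1) := NPC.Poly.fst P_snd
  have h2 : NPC.Poly (fun i : Ins => i.2.2) := NPC.Poly.snd P_snd
  have h3 : NPC.Poly (fun i : Ins => (i.2.2 + (p - 1) * i.2.1) % p) :=
    NPC.Poly.mod (NPC.Poly.add h2 (NPC.Poly.mul (NPC.Poly.const _) h1)) (NPC.Poly.const p)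
  refine (NPC.Poly.ite (NPC.Poly.decide_le (NPC.Poly.const 3) h0)
    (NPC.Poly.pair (NPC.Poly.const 3) (NPC.Poly.pair (NPC.Poly.const 0) h3))
    NPC.Poly.id).congr fun i => ?_
  unfold tau
  rw [Q_tau_val hp]

theorem Q_tau_small {p : ℕ} (hp : 1 ≤ p) (l : List Ins) :
    ∀ i ∈ l.map (tau p), i.1 ≤ 2 ∨ i.2.2 ≤ p := by
  intro i hi
  obtain ⟨j, _, rfl⟩ := List.mem_map.1 hi
  unfold tau
  by_cases h : 3 ≤ j.1
  · right
    rw [if_pos h]
    change (((j.2.2 : ℤ) - (j.2.1 : ℤ)) % (p : ℤ)).toNat ≤ p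
    rw [Q_tau_val hp]
    exact (Nat.mod_lt _ hp).le
  · left
    rw [if_neg h]
    omega

/-- clipped rows -/
def Q_rowsAt (C : ℕ) (i : Ins) (s : ℕ × ℕ) : List (ℕ × ℕ) :=
  if i.1 ≤ 1 then [] else if i.1 = 2 then [(s.1, s.2 - 1)]
  else List.replicate (min i.2.2 C) (s.1, s.2)

/-- clipped columns -/
def Q_colsAt (C : ℕ) (i : Ins) (s : ℕ × ℕ) : List ℕ :=
  if i.1 = 0 ∨ i.1 = 2 then [] else if i.1 = 1 then [s.2]
  else List.replicate (min i.2.2 C) s.2

theorem Q_rowsAt_poly {C : ℕ} {i : α → Ins} {s : α → ℕ × ℕ}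
    (hi : NPC.Poly i) (hs : NPC.Poly s) : NPC.Poly (fun a => Q_rowsAt C (i a) (s a)) := by
  have h0 : NPC.Poly (fun a => (i a).1) := NPC.Poly.fst hi
  have h1 : NPC.Poly (fun a => (s a).1) := NPC.Poly.fst hs
  have h2 : NPC.Poly (fun a => (s a).2) := NPC.Poly.snd hs
  have h3 : NPC.Poly (fun a => [((s a).1, (s a).2 - 1)]) := by fun_prop
  exact NPC.Poly.ite (NPC.Poly.decide_le h0 (NPC.Poly.const 1)) (NPC.Poly.const [])
    (NPC.Poly.ite (NPC.Poly.decide_eq h0 (NPC.Poly.const 2)) h3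
      (P_replicate (P_min (NPC.Poly.snd (NPC.Poly.snd hi)) C) (NPC.Poly.pair h1 h2)))

theorem Q_colsAt_poly {C : ℕ} {i : α → Ins} {s : α → ℕ × ℕ}
    (hi : NPC.Poly i) (hs : NPC.Poly s) : NPC.Poly (fun a => Q_colsAt C (i a) (s a)) := by
  have h0 : NPC.Poly (fun a => (i a).1) := NPC.Poly.fst hi
  have h2 : NPC.Poly (fun a => (s a).2) := NPC.Poly.snd hs
  have h3 : NPC.Poly (fun a => [(s a).2]) := NPC.Poly.cons h2 (NPC.Poly.const [])
  exact NPC.Poly.ite (NPC.Poly.decide_or (NPC.Poly.decide_eq h0 (NPC.Poly.const 0))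
    (NPC.Poly.decide_eq h0 (NPC.Poly.const 2))) (NPC.Poly.const [])
    (NPC.Poly.ite (NPC.Poly.decide_eq h0 (NPC.Poly.const 1)) h3
      (P_replicate (P_min (NPC.Poly.snd (NPC.Poly.snd hi)) C) h2))

theorem Q_rowsAt_eq {C : ℕ} {i : Ins} {s : ℕ × ℕ} (h : i.1 ≤ 2 ∨ i.2.2 ≤ C) :
    Q_rowsAt C i s = rowsAt 0 i s := by
  unfold Q_rowsAt rowsAt
  by_cases h1 : i.1 ≤ 1
  · rw [if_pos h1, if_pos h1]
  by_cases h2 : i.1 = 2
  · rw [if_neg h1, if_neg h1, if_pos h2, if_pos h2]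
  rw [if_neg h1, if_neg h1, if_neg h2, if_neg h2, Nat.min_eq_left (by omega), Nat.mul_zero,
    Nat.zero_add]

theorem Q_colsAt_eq {C : ℕ} {i : Ins} {s : ℕ × ℕ} (h : i.1 ≤ 2 ∨ i.2.2 ≤ C) :
    Q_colsAt C i s = colsAt 0 i s := by
  unfold Q_colsAt colsAt
  by_cases h1 : i.1 = 0 ∨ i.1 = 2
  · rw [if_pos h1, if_pos h1]
  by_cases h2 : i.1 = 1
  · rw [if_neg h1, if_neg h1, if_pos h2, if_pos h2]
  rw [if_neg h1, if_neg h1, if_neg h2, if_neg h2, Nat.min_eq_left (by omega), Nat.mul_zero,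
    Nat.zero_add]

theorem Q_rws {C : ℕ} {p : α → List Ins} (hp : NPC.Poly p)
    (h : ∀ x, ∀ i ∈ p x, i.1 ≤ 2 ∨ i.2.2 ≤ C) : NPC.Poly (fun a => rws 0 (p a) (1, 1)) := by
  refine (NPC.Poly.flatMap (F := fun (_ : α) (z : Ins × (ℕ × ℕ)) => Q_rowsAt C z.1 z.2)
    (P_stl_poly hp) (Q_rowsAt_poly (NPC.Poly.fst P_snd) (NPC.Poly.snd P_snd))).congr fun a => ?_
  rw [P_rws_eq, List.flatMap_def, List.flatMap_def]
  congr 1
  refine List.map_congr_left fun z hz => ?_
  exact Q_rowsAt_eq (h a z.1 (P_stl_mem _ _ z hz).1)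

theorem Q_cls {C : ℕ} {p : α → List Ins} (hp : NPC.Poly p)
    (h : ∀ x, ∀ i ∈ p x, i.1 ≤ 2 ∨ i.2.2 ≤ C) : NPC.Poly (fun a => cls 0 (p a) (1, 1)) := by
  refine (NPC.Poly.flatMap (F := fun (_ : α) (z : Ins × (ℕ × ℕ)) => Q_colsAt C z.1 z.2)
    (P_stl_poly hp) (Q_colsAt_poly (NPC.Poly.fst P_snd) (NPC.Poly.snd P_snd))).congr fun a => ?_
  rw [P_cls_eq, List.flatMap_def, List.flatMap_def]
  congr 1
  refine List.map_congr_left fun z hz => ?_
  exact Q_colsAt_eq (h a z.1 (P_stl_mem _ _ z hz).1)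

theorem Q_facP {C : ℕ} {p : α → List Ins} (hp : NPC.Poly p)
    (h : ∀ x, ∀ i ∈ p x, i.1 ≤ 2 ∨ i.2.2 ≤ C) : NPC.Poly (fun a => facP (p a) 0) := by
  have hc : NPC.Poly (fun z : α × ℕ => cls 0 (p z.1) (1, 1)) :=
    (Q_cls hp h).comp P_fst
  have hf : NPC.Poly (fun z : α × ℕ => (cls 0 (p z.1) (1, 1)).filter
      (fun x => decide (x = z.2))) :=
    NPC.Poly.filter (p := fun (z : α × ℕ) x => decide (x = z.2)) hc
      (NPC.Poly.decide_eq P_snd (P_snd.comp P_fst))
  have h1 := upoly_fact (UPoly.length hf)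
  have h2 := poly_prod (NPC.Poly.map (F := fun a κ =>
    ((cls 0 (p a) (1, 1)).filter (fun x => decide (x = κ))).length.factorial)
    (UPoly.add (UPoly.length hp) (UPoly.const 1)).range h1)
  refine h2.congr fun a => ?_
  rw [facP]
  congr 1
  refine List.map_congr_left fun κ _ => ?_
  rw [List.count, List.countP_eq_length_filter]
  rfl

/-! ### The programs -/

theorem Q_cellS {n : α → ℕ} {e : α → Bool × Bool} (hn : UPoly n) (he : NPC.Poly e) :
    NPC.Poly (fun a => cellS (n a) (e a)) := by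
  have c : ∀ k : ℕ, UPoly (fun _ : α => k) := fun k => UPoly.const k
  have kk : ∀ l : List Ins, NPC.Poly (fun _ : α => l) := fun l => NPC.Poly.const l
  have e1 : NPC.Poly (fun a => (e a).1) := NPC.Poly.fst he
  have e2 : NPC.Poly (fun a => (e a).2) := NPC.Poly.snd he
  refine NPC.Poly.append (NPC.Poly.append (NPC.Poly.append (NPC.Poly.append (NPC.Poly.append
    (NPC.Poly.append ?_ ?_) ?_) ?_) ?_) ?_) ?_
  · exact P_at (c 2) hn (kk _)
  · exact P_at (c 3) hn (kk _)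
  · exact NPC.Poly.cond (NPC.Poly.and (NPC.Poly.not e1) e2)
      (NPC.Poly.append (P_at (c 3) (P_add hn 1) (kk _)) (P_at (c 2) (P_add hn 2) (kk _)))
      (NPC.Poly.const [])
  · exact P_adv (c 1) (P_add hn 2)
  · exact P_at (c 0) (P_add hn 4) (kk _)
  · exact NPC.Poly.append (P_tok (NPC.Poly.xor e1 e2)) (P_rots (P_add hn 1))
  · refine NPC.Poly.append (NPC.Poly.append (NPC.Poly.append (NPC.Poly.append (NPC.Poly.append
      ?_ ?_) ?_) ?_) ?_) ?_
    · exact P_adv (c 1) hn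
    · exact P_at (c 0) (P_add hn 3) (kk _)
    · exact P_at (c 1) (P_add hn 2) (kk _)
    · exact P_at (c 2) (P_add hn 1) (kk _)
    · exact P_fxb (c 0) (P_add hn 1)
    · exact P_rots (c 1)

theorem Q_rowS {n : α → ℕ} {r : α → List (Bool × Bool)} (hn : UPoly n) (hr : NPC.Poly r) :
    NPC.Poly (fun a => rowS (n a) (r a)) := by
  refine NPC.Poly.append (NPC.Poly.append (NPC.Poly.append (NPC.Poly.append
    (NPC.Poly.const _) ?_) ?_) (NPC.Poly.const _)) ?_
  · exact P_rots (P_add hn 1)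
  · exact NPC.Poly.flatMap (F := fun a b => cellS (n a) b) hr (Q_cellS (hn.comp P_fst) P_snd)
  · exact P_rots (UPoly.const 1)

theorem Q_progS : NPC.Poly progS := by
  have hn : UPoly (fun A : SM => A.length) := UPoly.length (l := fun A : SM => A) NPC.Poly.id
  refine NPC.Poly.append (NPC.Poly.append ?_ (NPC.Poly.const _)) ?_
  · exact P_replicate hn (NPC.Poly.const _)
  · exact NPC.Poly.flatMap (F := fun (A : SM) r => rowS A.length r) NPC.Poly.id
      (Q_rowS (hn.comp P_fst) P_snd)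

theorem Q_unitB {m N : α → ℕ} (hm : UPoly m) (hN : NPC.Poly N) :
    NPC.Poly (fun a => unitB (m a) (N a)) := by
  have h1 : NPC.Poly (fun a => [real, por 0 (N a), read, rst]) := by fun_prop
  exact NPC.Poly.append (NPC.Poly.append h1 (P_rots hm)) (NPC.Poly.const _)

theorem Q_sufP (p : ℕ) {m r : α → ℕ} (hm : UPoly m) (hr : NPC.Poly r) :
    NPC.Poly (fun a => sufP p (m a) (r a)) := by
  refine NPC.Poly.append (Q_unitB hm (NPC.Poly.sub hr (NPC.Poly.const 1))) ?_
  exact NPC.Poly.flatten (P_replicate (UPoly.const _)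
    (Q_unitB hm (NPC.Poly.sub hr (NPC.Poly.const 2))))

end General

/-! ### The matrix of a formula -/

section Sat

variable {α β : Type} [TEnc α] [TEnc β]

theorem Q_flat : NPC.Poly (fun φ : CNF ℕ => φ.flatten) :=
  NPC.Poly.flatten (l := fun φ : CNF ℕ => φ) NPC.Poly.id

theorem Q_nL : UPoly nL := UPoly.length Q_flat

theorem Q_litAt {φ : α → CNF ℕ} {e : α → ℕ} (h : NPC.Poly φ) (he : NPC.Poly e) :
    NPC.Poly (fun a => litAt (φ a) (e a)) :=
  NPC.Poly.getD (Q_flat.comp h) he (NPC.Poly.const _)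

theorem Q_varBlk {φ : α → CNF ℕ} {v : α → ℕ} (h : NPC.Poly φ) (hv : NPC.Poly v) :
    NPC.Poly (fun a => varBlk (φ a) (v a)) := by
  have h1 : NPC.Poly (fun a => List.range (nL (φ a))) := (Q_nL.comp h).range
  have h2 : NPC.Poly (fun a => (List.range (nL (φ a))).filter
      (fun e => decide ((litAt (φ a) e).2 = v a))) :=
    NPC.Poly.filter (p := fun a e => decide ((litAt (φ a) e).2 = v a)) h1
      (NPC.Poly.decide_eq (NPC.Poly.snd (Q_litAt (h.comp P_fst) P_snd)) (hv.comp P_fst))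
  refine NPC.Poly.pair (NPC.Poly.const true) ?_
  refine NPC.Poly.map (F := fun (_ : α) (e : ℕ) => (([2 * e], [2 * e + 1]) : List ℕ × List ℕ))
    h2 ?_
  fun_prop

theorem Q_startC {φ : α → CNF ℕ} {k : α → ℕ} (h : NPC.Poly φ) (hk : NPC.Poly k) :
    NPC.Poly (fun a => startC (φ a) (k a)) :=
  NPC.Poly.length (NPC.Poly.flatten (Q_take h hk))

theorem Q_litPair {φ : α → CNF ℕ} {e : α → ℕ} (h : NPC.Poly φ) (he : NPC.Poly e) :
    NPC.Poly (fun a => litPair (φ a) (e a)) := by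
  have h1 : NPC.Poly (fun a => (litAt (φ a) (e a)).1) := NPC.Poly.fst (Q_litAt h he)
  have h2 : NPC.Poly (fun a => [2 * e a, 2 * e a + 1]) := by fun_prop
  have h3 : NPC.Poly (fun a => 2 * e a + 1) := by fun_prop
  have h4 : NPC.Poly (fun a => 2 * e a) := by fun_prop
  exact NPC.Poly.pair h2 (NPC.Poly.cons (NPC.Poly.cond h1 h3 h4) (NPC.Poly.const []))

theorem Q_clauseBlk {φ : α → CNF ℕ} {k : α → ℕ} (h : NPC.Poly φ) (hk : NPC.Poly k) :
    NPC.Poly (fun a => clauseBlk (φ a) (k a)) := by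
  have h1 : NPC.Poly (fun a => List.range ((φ a).getD (k a) []).length) :=
    NPC.Poly.range_length (NPC.Poly.getD h hk (NPC.Poly.const []))
  refine NPC.Poly.pair (NPC.Poly.const false) ?_
  exact NPC.Poly.map (F := fun a i => litPair (φ a) (startC (φ a) (k a) + i)) h1
    (Q_litPair (h.comp P_fst) (NPC.Poly.add ((Q_startC h hk).comp P_fst) P_snd))

theorem Q_blks : NPC.Poly blks := by
  refine NPC.Poly.append ?_ ?_
  · exact NPC.Poly.map (F := fun φ v => varBlk φ v) vsL_poly (Q_varBlk P_fst P_snd)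
  · exact NPC.Poly.map (F := fun φ k => clauseBlk φ k)
      (NPC.Poly.range_length (l := fun φ : CNF ℕ => φ) NPC.Poly.id) (Q_clauseBlk P_fst P_snd)

/-- four rows of a chain -/
def Q_four (c : ℕ) (x : List ℕ × List ℕ) : List (List (ℕ × Bool)) :=
  [[(c, false), (c + 1, true), (c + 2, true)],
    (x.1.map (fun x => (x, true)) ++ [(c + 1, true), (c + 2, true)]),
    (x.2.map (fun x => (x, true)) ++ [(c + 1, true), (c + 2, false)]),
    [(c + 3, true), (c + 1, true), (c + 2, false)]]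

theorem Q_chainR_eq (l : List (List ℕ × List ℕ)) : ∀ (c s : ℕ),
    (l.zipIdx s).flatMap (fun z => Q_four (c + 3 * z.2) z.1) = chainR (c + 3 * s) l := by
  induction l with
  | nil => intro c s; rfl
  | cons x l ih =>
    intro c s
    obtain ⟨a, b⟩ := x
    rw [List.zipIdx_cons, List.flatMap_cons, ih c (s + 1), chainR, Q_four]
    rw [show c + 3 * (s + 1) = c + 3 * s + 3 by ring]
    rfl

theorem Q_chainR {c : α → ℕ} {l : α → List (List ℕ × List ℕ)} (hc : NPC.Poly c)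
    (hl : NPC.Poly l) : NPC.Poly (fun a => chainR (c a) (l a)) := by
  have h1 : NPC.Poly (fun a => (l a).zipIdx) := NPC.Poly.zipIdx hl
  have h2 : NPC.Poly (fun z : α × ((List ℕ × List ℕ) × ℕ) =>
      Q_four (c z.1 + 3 * z.2.2) z.2.1) := by
    unfold Q_four
    fun_prop
  refine (NPC.Poly.flatMap (F := fun a (z : (List ℕ × List ℕ) × ℕ) =>
    Q_four (c a + 3 * z.2) z.1) h1 h2).congr fun a => ?_
  have := Q_chainR_eq (l a) (c a) 0
  simpa using this

theorem Q_blockR {o : α → ℕ} {b : α → Blk} (ho : NPC.Poly o) (hb : NPC.Poly b) :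
    NPC.Poly (fun a => blockR (o a) (b a)) := by
  have h1 := Q_chainR ho (NPC.Poly.snd hb)
  have h2 : NPC.Poly (fun a => [[(o a, (b a).1), (o a + 3 * (b a).2.length, true)]]) := by
    fun_prop
  exact NPC.Poly.append h1 h2

theorem Q_blocksR_eq (bs : List Blk) : ∀ (o : ℕ) (pre : List Blk),
    (bs.zipIdx pre.length).flatMap (fun z =>
      blockR (o + ((((pre ++ bs).take z.2).map (fun b => 3 * b.2.length + 1)).sum)) z.1) =
      blocksR (o + (pre.map (fun b => 3 * b.2.length + 1)).sum) bs := by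
  induction bs with
  | nil => intro o pre; rfl
  | cons b bs ih =>
    intro o pre
    rw [List.zipIdx_cons, List.flatMap_cons]
    have h1 := ih o (pre ++ [b])
    rw [List.length_append, List.length_singleton, List.append_assoc, List.singleton_append] at h1
    rw [h1, blocksR]
    simp [List.map_append, List.sum_append, add_assoc]

theorem Q_blocksR {o : α → ℕ} {bs : α → List Blk} (ho : NPC.Poly o) (hb : NPC.Poly bs) :
    NPC.Poly (fun a => blocksR (o a) (bs a)) := by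
  have h1 : NPC.Poly (fun a => (bs a).zipIdx) := NPC.Poly.zipIdx hb
  have h2 : NPC.Poly (fun z : α × (Blk × ℕ) => ((bs z.1).take z.2.2).map
      (fun b => 3 * b.2.length + 1)) :=
    NPC.Poly.map (F := fun _ (b : Blk) => 3 * b.2.length + 1)
      (Q_take (hb.comp P_fst) (NPC.Poly.snd P_snd)) (by fun_prop)
  have h3 : NPC.Poly (fun z : α × (Blk × ℕ) =>
      blockR (o z.1 + (((bs z.1).take z.2.2).map (fun b => 3 * b.2.length + 1)).sum) z.2.1) :=
    Q_blockR (NPC.Poly.add (ho.comp P_fst) (NPC.Poly.sum h2)) (NPC.Poly.fst P_snd)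
  refine (NPC.Poly.flatMap (F := fun a (z : Blk × ℕ) =>
    blockR (o a + (((bs a).take z.2).map (fun b => 3 * b.2.length + 1)).sum) z.1) h1 h3).congr
    fun a => ?_
  have := Q_blocksR_eq (bs a) (o a) []
  simpa using this

theorem Q_satR : NPC.Poly satR :=
  Q_blocksR (NPC.Poly.mul (NPC.Poly.const 2) Q_nL.toPoly) Q_blks

theorem Q_nS : UPoly nS := by
  have h1 : UPoly (fun φ : CNF ℕ => 2 * nL φ) := UPoly.mul (UPoly.const 2) Q_nL
  have h2 : NPC.Poly (fun φ : CNF ℕ => (blks φ).flatMap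
      (fun b => List.replicate (3 * b.2.length + 1) ())) :=
    NPC.Poly.flatMap (F := fun _ (b : Blk) => List.replicate (3 * b.2.length + 1) ()) Q_blks
      (UPoly.add (UPoly.mul (UPoly.const 3) (UPoly.length (NPC.Poly.snd P_snd))) (UPoly.const 1))
  have h3 : ∀ φ : CNF ℕ, 2 * nL φ + ((blks φ).flatMap
      (fun b => List.replicate (3 * b.2.length + 1) ())).length = nS φ := by
    intro φ
    rw [nS, List.length_flatMap]
    congr 2
    refine List.map_congr_left fun b _ => ?_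
    rw [List.length_replicate]
  refine (UPoly.add h1 (UPoly.length h2)).congr fun φ => ?_
  congr 1
  exact h3 φ

theorem Q_satM : NPC.Poly satM := by
  have h1 : NPC.Poly (fun φ : CNF ℕ => List.range (nS φ)) := Q_nS.range
  have h2 : NPC.Poly (fun z : (CNF ℕ × List (ℕ × Bool)) =>
      (List.range (nS z.1)).map (fun c => (decide ((c, true) ∈ z.2), decide ((c, false) ∈ z.2)))) :=
    NPC.Poly.map (F := fun (z : CNF ℕ × List (ℕ × Bool)) c =>
      (decide ((c, true) ∈ z.2), decide ((c, false) ∈ z.2))) (h1.comp P_fst) (by fun_prop)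
  exact NPC.Poly.map (F := fun (φ : CNF ℕ) (r : List (ℕ × Bool)) =>
    (List.range (nS φ)).map (fun c => (decide ((c, true) ∈ r), decide ((c, false) ∈ r))))
    Q_satR h2

theorem Q_baseP : NPC.Poly baseP := Q_progS.comp Q_satM

theorem Q_map_tau {p : ℕ} (hp : 1 ≤ p) {l : α → List Ins} (hl : NPC.Poly l) :
    NPC.Poly (fun a => (l a).map (tau p)) :=
  NPC.Poly.map (F := fun _ i => tau p i) hl ((Q_tau hp).comp P_snd)

theorem Q_xM {p : ℕ} (hp : 1 ≤ p) : NPC.Poly (xM p) := by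
  have h1 : NPC.Poly (fun φ : CNF ℕ => facP ((baseP φ).map (tau p)) 0) :=
    Q_facP (Q_map_tau hp Q_baseP) (fun φ => Q_tau_small hp (baseP φ))
  have h2 : UPoly (fun z : CNF ℕ × ℕ => min z.2 (nS z.1)) :=
    upoly_min P_snd (Q_nS.comp P_fst)
  have h3 : NPC.Poly (fun z : CNF ℕ × ℕ =>
      8 * (List.replicate (min z.2 (nS z.1)) ((p - 1) * 16)).prod) :=
    NPC.Poly.mul (NPC.Poly.const 8) (poly_prod (P_replicate h2 (NPC.Poly.const _)))
  have h4 := poly_prod (NPC.Poly.map (F := fun (φ : CNF ℕ) k =>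
    8 * (List.replicate (min k (nS φ)) ((p - 1) * 16)).prod) Q_nS.range h3)
  have h5 : NPC.Poly (fun φ : CNF ℕ => (List.replicate (nL φ) 4).prod) :=
    poly_prod (P_replicate Q_nL (NPC.Poly.const 4))
  refine (NPC.Poly.mul h1 (NPC.Poly.mul h4 h5)).congr fun φ => ?_
  rw [xM]
  congr 3
  refine List.map_congr_left fun k hk => ?_
  rw [Nat.min_eq_left (List.mem_range.1 hk).le]

theorem Q_rM {p : ℕ} (hp : 1 ≤ p) : NPC.Poly (rM p) :=
  NPC.Poly.mod (Q_pow (NPC.Poly.mod (Q_xM hp) (NPC.Poly.const p)) (p - 2)) (NPC.Poly.const p)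

theorem Q_fullP {p : ℕ} (hp : 1 ≤ p) : NPC.Poly (fullP p) :=
  Q_map_tau hp (NPC.Poly.append Q_baseP (Q_sufP p (UPoly.add Q_nS (UPoly.const 1)) (Q_rM hp)))

end Sat

theorem Q_ptsM {p : ℕ} (hp : 1 ≤ p) : NPC.Poly (fun φ : CNF ℕ => ptsM p φ) := by
  have h0 : ∀ φ : CNF ℕ, ∀ i ∈ fullP p φ, i.1 ≤ 2 ∨ i.2.2 ≤ p := by
    intro φ
    rw [fullP]
    exact Q_tau_small hp _
  have hF : NPC.Poly (fun φ : CNF ℕ => fullP p φ) := Q_fullP hp
  have h1 : NPC.Poly (fun φ : CNF ℕ => rws 0 (fullP p φ) (1, 1)) := Q_rws hF h0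
  have h2 : NPC.Poly (fun φ : CNF ℕ => cls 0 (fullP p φ) (1, 1)) := Q_cls hF h0
  have h3 : NPC.Poly (fun φ : CNF ℕ => (rws 0 (fullP p φ) (1, 1), cls 0 (fullP p φ) (1, 1))) :=
    NPC.Poly.pair h1 h2
  refine (P_pts.comp h3).congr fun φ => ?_
  rw [ptsM]

theorem stub_polyM : StubPolyM := fun _ hp => Q_ptsM hp

end Pool.Agent.NPC.H570Mono
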