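import Pool.Agent.H570R2.Modp.Fin
import Pool.Agent.H570R2.Modp.ML
import Pool.Agent.H570R2.Modp.PM
import Pool.Agent.H570R2.Modp.MB
import Pool.Agent.H782R2.Modp.SA
import Pool.Agent.H642R2.TMSim

/-!
# Counting perfect matchings of bipartite permutation graphs modulo an odd prime
-/

namespace Pool.Agent.NPC.H570Mono

open Pool.Agent.NPC.Cnt Pool.Agent.H549R2.PM Pool.Agent.H570R2.Mono

/-- **#SAT modulo `p`.** -/
theorem pm_mod_main (p : ℕ) (hp : p.Prime) (hp2 : p ≠ 2) (φ : CNF ℕ) :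
    pmP (ptsM p φ) ≡ satCount φ [MOD p] ∧ BipPerm (ptsM p φ) := by
  haveI : Fact p.Prime := ⟨hp⟩
  have h := pm_mod stub_fac stub_modlink Pool.Agent.H782R2.Modp.stub_sat p hp2 φ
  exact ⟨(ZMod.natCast_eq_natCast_iff _ _ _).1 h.1, h.2⟩

theorem polyTime_pts (p : ℕ) (hp : 1 ≤ p) {G : List Bool → CNF ℕ}
    (hG : PC (fun x : List Bool => x) (bits : CNF ℕ → List Bool) G) :
    PolyTime (fun x => bits (ptsM p (G x))) :=
  PC.toPolyTime_bits (f := fun φ : CNF ℕ => ptsM p φ) (stub_polyM p hp) G hG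

/-- parsimonious modulo `p` -/
theorem parsimonious_mod (p : ℕ) (hp : p.Prime) (hp2 : p ≠ 2) (f : List Bool → ℕ)
    (hf : SharpP f) : ∃ (G : List Bool → List (ℕ × ℕ)) (g : List Bool → List Bool),
      PolyTime g ∧ ∀ x, g x = bits (G x) ∧ BipPerm (G x) ∧ pmP (G x) ≡ f x [MOD p] := by
  obtain ⟨V, q, hV, hf⟩ := hf
  obtain ⟨G', hG', hGf⟩ := parsimonious hV q
  refine ⟨fun x => ptsM p (G' x), _, polyTime_pts p hp.one_le hG', fun x => ⟨rfl, ?_, ?_⟩⟩
  · exact (pm_mod_main p hp hp2 (G' x)).2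
  · rw [hf x, ← hGf x]
    exact (pm_mod_main p hp hp2 (G' x)).1

/-- the residues of all functions of `#P` from residues of numbers of perfect matchings -/
theorem fp_mod (p : ℕ) (hp : p.Prime) (hp2 : p ≠ 2) (k : ℕ) (hk : p ∣ k)
    (g : List Bool → List Bool) (hg : PolyTime g)
    (hgF : ∀ l : List (ℕ × ℕ), BipPerm l → g (bits l) = (pmP l % k).bits)
    (f : List Bool → ℕ) (hf : SharpP f) : FP (fun x => f x % p) := by
  have hid : PC (bits : List (ℕ × ℕ) → List Bool) (id : List Bool → List Bool)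
      (fun l => bits l) :=
    (PC.id : PC (bits : List (ℕ × ℕ) → List Bool) bits (fun l => l))
  have h1 : PC (bits : List (ℕ × ℕ) → List Bool) (id : List Bool → List Bool)
      (fun l => g (bits l)) :=
    PC.comp (Pool.Agent.H642R2.TMSim.polyTime_toPC hg) hid
  have h2 : PC (bits : List (ℕ × ℕ) → List Bool) (bits : List Bool → List Bool)
      (fun l => g (bits l)) :=
    PC.comp (g := fun x : List Bool => x) (f := fun l : List (ℕ × ℕ) => g (bits l)) PC.ofBits h1
  have h3 : Poly (fun l : List (ℕ × ℕ) => valB (g (bits l))) := Poly.valBits h2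
  have h4 : Poly (fun φ : CNF ℕ => ptsM p φ) := stub_polyM p hp.one_le
  have h5 : Poly (fun φ : CNF ℕ => valB (g (bits (ptsM p φ))) % p) :=
    Poly.mod (h3.comp (f := fun φ : CNF ℕ => ptsM p φ) h4) (Poly.const p)
  have h6 : Poly (fun φ : CNF ℕ => satCount φ % p) := h5.congr fun φ => by
    have h := pm_mod_main p hp hp2 φ
    rw [hgF _ h.2, valB_bits, Nat.mod_mod_of_dvd _ hk]
    exact h.1
  obtain ⟨V, q, hV, hf⟩ := hf
  obtain ⟨G', hG', hGf⟩ := parsimonious hV q
  have h7 : Poly G' := PC.comp hG' pc_raw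
  have h8 : Poly (fun x : List Bool => satCount (G' x) % p) := h6.comp (f := G') h7
  have h9 : Poly (fun x => f x % p) := h8.congr fun x => by rw [hf x, ← hGf x]
  exact Pool.Agent.NPC.H549Convex.fp_of_poly h9

end Pool.Agent.NPC.H570Mono
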