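import Pool.Agent.H570R2.Modp.Stubs

/-!
# The version uniform in the prime: definitions and exact statements of the tasks
-/

namespace Pool.Agent.H570R2.Mono

open Pool.Agent.NPC.Cnt Pool.Agent.H549R2.PM

/-- a name larger than all names of variables -/
def freshV (φ : CNF ℕ) : ℕ := (φ.flatten.map Prod.snd).sum + 1

/-- A formula with `c` more satisfying assignments: with the new variables
`z i = freshV φ + i`, `i < c`, either all `z i` are false and the formula holds, or exactly one
`z i` is true and all old variables are true. -/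
def addC (c : ℕ) (φ : CNF ℕ) : CNF ℕ :=
  φ.map (fun C => C ++ (List.range c).map (fun i => (true, freshV φ + i))) ++
  (List.range c).flatMap (fun i => (List.range i).map (fun j =>
    [(false, freshV φ + i), (false, freshV φ + j)])) ++
  (List.range c).flatMap (fun i => (vsL φ).map (fun v => [(false, freshV φ + i), (true, v)])) ++
  (List.range c).map (fun i => [(true, freshV φ + i), (false, freshV φ + i)])

/-- test of primality -/
def isPr (n : ℕ) : Bool :=
  decide (2 ≤ n) && (List.range n).all (fun d => decide (d < 2) || !decide (n % d = 0))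

/-- the odd primes up to `B` -/
def oddPr (B : ℕ) : List ℕ := (List.range (B + 1)).filter (fun n => isPr n && !decide (n = 2))

/-- Chinese remaindering: the number below the product of the primes `ps` with the residues
`rs` -/
def crtL (ps rs : List ℕ) : ℕ :=
  ((ps.zip rs).map (fun x => x.2 * ((ps.prod / x.1) *
    (((ps.prod / x.1) % x.1) ^ (x.1 - 2) % x.1)))).sum % ps.prod

/-- AD: adding to the number of satisfying assignments -/
def StubAdd : Prop := ∀ (c : ℕ) (φ : CNF ℕ), satCount (addC c φ) = satCount φ + c

/-- CR: Chinese remaindering; primes; a bound on the number of satisfying assignments -/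
def StubCrt : Prop :=
  (∀ B p : ℕ, p ∈ oddPr B ↔ p.Prime ∧ p ≠ 2 ∧ p ≤ B) ∧
  (∀ L x : ℕ, x ≤ 2 ^ L → crtL (oddPr ((L + 5) * (L + 5)))
    ((oddPr ((L + 5) * (L + 5))).map (fun p => x % p)) = x) ∧
  ∀ φ : CNF ℕ, satCount φ ≤ 2 ^ nL φ

end Pool.Agent.H570R2.Mono

namespace Pool.Agent.NPC.H570Mono

open Pool.Agent.NPC.Cnt Pool.Agent.H549R2.PM Pool.Agent.H570R2.Mono

/-- PU: polynomial time, uniformly in `p` (given in unary) -/
def StubPolyU : Prop := ∀ (α : Type) [TEnc α] (p : α → ℕ) (φ : α → CNF ℕ), UPoly p → Poly φ →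
  (∀ a, 1 ≤ p a) → Poly (fun a => ptsM (p a) (φ a))

/-- AP: `addC` in polynomial time -/
def StubAddPoly : Prop := ∀ (α : Type) [TEnc α] (c : α → ℕ) (φ : α → CNF ℕ), UPoly c → Poly φ →
  Poly (fun a => addC (c a) (φ a))

/-- CP: primes and Chinese remaindering in polynomial time -/
def StubCrtPoly : Prop := ∀ (α : Type) [TEnc α] (B : α → ℕ) (rs : α → List ℕ), UPoly B →
  Poly rs → Poly (fun a => oddPr (B a)) ∧ Poly (fun a => crtL (oddPr (B a)) (rs a))

end Pool.Agent.NPC.H570Mono
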