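import Pool.Agent.H570R2.Modp.Main
import Pool.Agent.H570R2.Modp.Stubs2

/-!
# The version uniform in the prime, and the decision problem
-/

namespace Pool.Agent.NPC.H570Mono

open Pool.Agent.NPC.Cnt Pool.Agent.H549R2.PM Pool.Agent.H570R2.Mono

/-! ### Structured and raw polynomial time -/

theorem poly_raw {α : Type} [TEnc α] {g : List Bool → List Bool} (hg : PolyTime g) :
    Poly (fun a : α => g (bits a)) := by
  have hid : PC (bits : α → List Bool) (id : List Bool → List Bool) (fun a => bits a) :=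
    (PC.id : PC (bits : α → List Bool) bits (fun a => a))
  have h1 : PC (bits : α → List Bool) (id : List Bool → List Bool) (fun a => g (bits a)) :=
    PC.comp (Pool.Agent.H642R2.TMSim.polyTime_toPC hg) hid
  exact PC.comp (g := fun x : List Bool => x) (f := fun a : α => g (bits a)) PC.ofBits h1

theorem poly_value {α : Type} [TEnc α] {g : List Bool → List Bool} (hg : PolyTime g) :
    Poly (fun a : α => valB (g (bits a))) := Poly.valBits (poly_raw hg)

theorem poly_lift {α β : Type} [TEnc α] [TDec α] [TEnc β] {f : α → β} (hf : Poly f) (d : β) :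
    Poly (fun x : List Bool => match (decode x : Option α) with | none => d | some a => f a) := by
  refine (Poly.optCases (o := fun x : List Bool => (decode x : Option α))
    (g := fun _ => d) (h := fun _ a => f a) poly_decode (Poly.const _)
    (hf.comp (Poly.snd Poly.id))).congr fun x => ?_
  cases (decode x : Option α) <;> rfl

theorem decode_bits {α : Type} [TEnc α] [TDec α] (a : α) :
    (decode (bits a) : Option α) = some a := decode_eq_some.2 rfl

/-- A structured polynomial-time function as a function on strings. -/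
theorem lift_bits {α β : Type} [TEnc α] [TDec α] [TEnc β] {f : α → β} (hf : Poly f) (d : β) :
    ∃ g : List Bool → List Bool, PolyTime g ∧ ∀ a, g (bits a) = bits (f a) := by
  refine ⟨fun x => bits (match (decode x : Option α) with | none => d | some a => f a),
    PC.toPolyTime_bits (poly_lift hf d) (fun x => x) PC.ofBits, fun a => ?_⟩
  simp only [decode_bits]

theorem lift_bool {α : Type} [TEnc α] [TDec α] {f : α → Bool} (hf : Poly f) :
    ∃ g : List Bool → List Bool, PolyTime g ∧ ∀ a, g (bits a) = [f a] := by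
  refine ⟨fun x => [match (decode x : Option α) with | none => false | some a => f a],
    polyTime_of_poly (poly_lift hf false), fun a => ?_⟩
  simp only [decode_bits]

theorem fp_lift {α : Type} [TEnc α] [TDec α] {f : α → ℕ} (hf : Poly f) : FP (strFn f) := by
  have h := Pool.Agent.NPC.H549Convex.fp_of_poly (poly_lift hf 0)
  have e : strFn f = fun x : List Bool => match (decode x : Option α) with
      | none => 0 | some a => f a := by
    funext x
    cases hx : (decode x : Option α) with
    | none =>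
      have hno : ¬ ∃ a : α, bits a = x := by
        rintro ⟨a, ha⟩
        have := decode_eq_some.2 ha
        rw [hx] at this
        exact absurd this (by simp)
      rw [strFn_of_not _ hno]
    | some a => rw [← decode_eq_some.1 hx, strFn_bits]
  rw [e]
  exact h

theorem poly_of_fp {α : Type} [TEnc α] {f : α → ℕ} (hf : FP (strFn f)) : Poly f :=
  (poly_value hf).congr fun a => by
    change valB (strFn f (bits a)).bits = f a
    rw [strFn_bits, valB_bits]

/-! ### The equivalences -/

/-- the residue of the number of satisfying assignments modulo `p` from the decision procedure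
`D` -/
def resD (D : List Unit × List (ℕ × ℕ) → Bool) (p : ℕ) (φ : CNF ℕ) : ℕ :=
  (p - ((List.range p).filter
    (fun c => D (List.replicate p (), ptsM p (addC (min c p) φ)))).head?.getD 0) % p

/-- `D` decides divisibility. -/
def Decides (D : List Unit × List (ℕ × ℕ) → Bool) : Prop :=
  ∀ p : ℕ, p.Prime → p ≠ 2 → ∀ l : List (ℕ × ℕ), BipPerm l →
    (D (List.replicate p (), l) = true ↔ p ∣ pmP l)

theorem resD_eq (hAD : StubAdd) {D : List Unit × List (ℕ × ℕ) → Bool} (hD : Decides D) (p : ℕ)
    (hp : p.Prime) (hp2 : p ≠ 2) (φ : CNF ℕ) : resD D p φ = satCount φ % p := by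
  have hp0 := hp.pos
  have key : ∀ c < p, (D (List.replicate p (), ptsM p (addC (min c p) φ)) = true ↔
      p ∣ satCount φ + c) := by
    intro c hc
    rw [min_eq_left hc.le]
    have h := pm_mod_main p hp hp2 (addC c φ)
    rw [hD p hp hp2 _ h.2, h.1.dvd_iff (dvd_refl p), hAD]
  set l := (List.range p).filter
    (fun c => D (List.replicate p (), ptsM p (addC (min c p) φ))) with hl
  have hmem : (p - satCount φ % p) % p ∈ l := by
    rw [hl, List.mem_filter]
    refine ⟨List.mem_range.2 (Nat.mod_lt _ hp0), ?_⟩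
    rw [key _ (Nat.mod_lt _ hp0), ← Nat.modEq_zero_iff_dvd]
    have h1 : satCount φ + (p - satCount φ % p) % p ≡ satCount φ % p + (p - satCount φ % p)
        [MOD p] := (Nat.mod_modEq _ _).symm.add (Nat.mod_modEq _ _)
    refine h1.trans ?_
    rw [Nat.add_sub_cancel' (Nat.mod_lt _ hp0).le]
    exact (Nat.modEq_zero_iff_dvd.2 (dvd_refl p))
  obtain ⟨c, t, hct⟩ : ∃ c t, l = c :: t := by
    cases h : l with
    | nil =>
      rw [h] at hmem
      simp at hmem
    | cons c t => exact ⟨c, t, rfl⟩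
  have hc : c ∈ l := by
    rw [hct]
    exact List.mem_cons_self
  have hres : resD D p φ = (p - c) % p := by
    rw [resD, ← hl, hct]
    rfl
  rw [hl, List.mem_filter, List.mem_range] at hc
  have h2 := (key c hc.1).1 hc.2
  rw [hres]
  refine Nat.ModEq.add_right_cancel' c ?_
  rw [Nat.sub_add_cancel hc.1.le]
  exact ((Nat.modEq_zero_iff_dvd.2 (dvd_refl p))).trans (Nat.modEq_zero_iff_dvd.2 h2).symm

/-- a prime bound to an interval -/
def clamp (B p : ℕ) : ℕ := max 1 (min p B)

theorem clamp_eq {B p : ℕ} (h1 : 1 ≤ p) (h2 : p ≤ B) : clamp B p = p := by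
  rw [clamp, min_eq_left h2, max_eq_right h1]

theorem uPoly_clamp {α : Type} [TEnc α] {B p : α → ℕ} (hB : UPoly B) (hp : Poly p) :
    UPoly (fun a => clamp (B a) (p a)) := by
  refine UPoly.of_le (n := fun a => 1 + B a)
    (Poly.max (Poly.const 1) (Poly.min hp hB.toPoly)) (UPoly.add (UPoly.const 1) hB) fun a => ?_
  rw [clamp]
  omega

/-- the number of satisfying assignments from the decision procedure -/
def cntD (D : List Unit × List (ℕ × ℕ) → Bool) (φ : CNF ℕ) : ℕ :=
  crtL (oddPr ((nL φ + 5) * (nL φ + 5))) ((oddPr ((nL φ + 5) * (nL φ + 5))).map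
    (fun p => resD D (clamp ((nL φ + 5) * (nL φ + 5)) p) φ))

theorem cntD_eq (hAD : StubAdd) (hCR : StubCrt) {D : List Unit × List (ℕ × ℕ) → Bool}
    (hD : Decides D) (φ : CNF ℕ) : cntD D φ = satCount φ := by
  have h : (oddPr ((nL φ + 5) * (nL φ + 5))).map
      (fun p => resD D (clamp ((nL φ + 5) * (nL φ + 5)) p) φ) =
      (oddPr ((nL φ + 5) * (nL φ + 5))).map (fun p => satCount φ % p) := by
    apply List.map_congr_left
    intro p hp
    obtain ⟨h1, h2, h3⟩ := (hCR.1 _ _).1 hp
    rw [clamp_eq h1.one_le h3, resD_eq hAD hD p h1 h2]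
  rw [cntD, h, hCR.2.1 _ _ (hCR.2.2 φ)]

theorem uPoly_nL : UPoly nL := UPoly.length (Poly.flatten Poly.id)

theorem resD_poly (hPU : StubPolyU) (hAP : StubAddPoly) {α : Type} [TEnc α]
    {D : List Unit × List (ℕ × ℕ) → Bool} (hD : Poly D) {p : α → ℕ} {φ : α → CNF ℕ}
    (hp : UPoly p) (hφ : Poly φ) (h1 : ∀ a, 1 ≤ p a) : Poly (fun a => resD D (p a) (φ a)) := by
  have hp' : UPoly (fun x : α × ℕ => p x.1) := hp.comp (Poly.fst Poly.id)
  have hφ' : Poly (fun x : α × ℕ => φ x.1) := hφ.comp (Poly.fst Poly.id)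
  have hc : UPoly (fun x : α × ℕ => min x.2 (p x.1)) :=
    UPoly.of_le (Poly.min (Poly.snd Poly.id) hp'.toPoly) hp' fun x => min_le_right _ _
  have h2 : Poly (fun x : α × ℕ => addC (min x.2 (p x.1)) (φ x.1)) := hAP _ _ _ hc hφ'
  have h3 : Poly (fun x : α × ℕ => ptsM (p x.1) (addC (min x.2 (p x.1)) (φ x.1))) :=
    hPU _ _ _ hp' h2 fun x => h1 x.1
  have h4 : Poly (fun x : α × ℕ => (List.replicate (p x.1) (),
      ptsM (p x.1) (addC (min x.2 (p x.1)) (φ x.1)))) := Poly.pair hp' h3
  have h5 : Poly (fun x : α × ℕ => D (List.replicate (p x.1) (),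
      ptsM (p x.1) (addC (min x.2 (p x.1)) (φ x.1)))) := hD.comp h4
  have h6 : Poly (fun a => (List.range (p a)).filter (fun c => D (List.replicate (p a) (),
      ptsM (p a) (addC (min c (p a)) (φ a))))) :=
    Poly.filter (p := fun a c => D (List.replicate (p a) (),
      ptsM (p a) (addC (min c (p a)) (φ a)))) hp.range h5
  exact Poly.mod (Poly.sub hp.toPoly (Poly.head?_getD h6 0)) hp.toPoly

theorem cntD_poly (hPU : StubPolyU) (hAP : StubAddPoly) (hCP : StubCrtPoly)
    {D : List Unit × List (ℕ × ℕ) → Bool} (hD : Poly D) : Poly (cntD D) := by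
  have hB : UPoly (fun φ : CNF ℕ => (nL φ + 5) * (nL φ + 5)) :=
    UPoly.mul (UPoly.add uPoly_nL (UPoly.const 5)) (UPoly.add uPoly_nL (UPoly.const 5))
  have hps : Poly (fun φ : CNF ℕ => oddPr ((nL φ + 5) * (nL φ + 5))) :=
    (hCP _ _ (fun _ => []) hB (Poly.const [])).1
  have h1 : Poly (fun x : CNF ℕ × ℕ => resD D (clamp ((nL x.1 + 5) * (nL x.1 + 5)) x.2) x.1) :=
    resD_poly hPU hAP hD (uPoly_clamp (hB.comp (Poly.fst Poly.id)) (Poly.snd Poly.id))
      (Poly.fst Poly.id) fun x => le_max_left _ _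
  have h2 : Poly (fun φ : CNF ℕ => (oddPr ((nL φ + 5) * (nL φ + 5))).map
      (fun p => resD D (clamp ((nL φ + 5) * (nL φ + 5)) p) φ)) :=
    Poly.map (F := fun φ p => resD D (clamp ((nL φ + 5) * (nL φ + 5)) p) φ) hps h1
  exact (hCP _ _ _ hB h2).2

/-- from `#SAT` to all functions of `#P` -/
theorem fp_of_satCount (h : Poly (fun φ : CNF ℕ => satCount φ)) (f : List Bool → ℕ)
    (hf : SharpP f) : FP f := by
  obtain ⟨V, q, hV, hf⟩ := hf
  obtain ⟨G', hG', hGf⟩ := parsimonious hV q
  have h7 : Poly G' := PC.comp hG' pc_raw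
  have h8 : Poly (fun x : List Bool => satCount (G' x)) := h.comp (f := G') h7
  exact Pool.Agent.NPC.H549Convex.fp_of_poly (h8.congr fun x => by rw [hf x, ← hGf x])

/-- the decision problem, on strings -/
def DecStr (D : List Bool → List Bool) : Prop :=
  ∀ p : ℕ, p.Prime → p ≠ 2 → ∀ l : List (ℕ × ℕ), BipPerm l →
    (D (bits (List.replicate p (), l)) = [true] ↔ p ∣ pmP l)

theorem dec_of_fp (h : ∀ f : List Bool → ℕ, SharpP f → FP f) :
    ∃ D : List Bool → List Bool, PolyTime D ∧ DecStr D := by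
  have h1 : Poly (fun l : List (ℕ × ℕ) => pmP l) := poly_of_fp (h _ stub_mem)
  have h2 : Poly (fun x : List Unit × List (ℕ × ℕ) => decide (pmP x.2 % x.1.length = 0)) :=
    Poly.decide_eq (Poly.mod (h1.comp (Poly.snd Poly.id)) (Poly.length (Poly.fst Poly.id)))
      (Poly.const 0)
  obtain ⟨g, hg, hgD⟩ := lift_bool h2
  refine ⟨g, hg, fun p _ _ l _ => ?_⟩
  rw [hgD, List.cons.injEq, and_iff_left rfl, decide_eq_true_eq]
  simp only [List.length_replicate]
  exact (Nat.dvd_iff_mod_eq_zero).symm

theorem satCount_of_dec (hPU : StubPolyU) (hAP : StubAddPoly) (hCP : StubCrtPoly) (hAD : StubAdd)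
    (hCR : StubCrt) (h : ∃ D : List Bool → List Bool, PolyTime D ∧ DecStr D) :
    Poly (fun φ : CNF ℕ => satCount φ) := by
  obtain ⟨D, hD, hDec⟩ := h
  have h1 : Poly (fun x : List Unit × List (ℕ × ℕ) => decide (D (bits x) = [true])) :=
    Poly.decide_eq (poly_raw hD) (Poly.const [true])
  refine (cntD_poly hPU hAP hCP h1).congr fun φ => ?_
  refine cntD_eq hAD hCR (fun p hp hp2 l hl => ?_) φ
  rw [decide_eq_true_eq]
  exact hDec p hp hp2 l hl

/-- **Q1 as a decision problem.** -/
theorem fp_iff_dec (hPU : StubPolyU) (hAP : StubAddPoly) (hCP : StubCrtPoly) (hAD : StubAdd)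
    (hCR : StubCrt) : (∀ f : List Bool → ℕ, SharpP f → FP f) ↔
      ∃ D : List Bool → List Bool, PolyTime D ∧ DecStr D :=
  ⟨dec_of_fp, fun h f hf => fp_of_satCount (satCount_of_dec hPU hAP hCP hAD hCR h) f hf⟩

theorem sat_iff_dec (hPU : StubPolyU) (hAP : StubAddPoly) (hCP : StubCrtPoly) (hAD : StubAdd)
    (hCR : StubCrt) : FP (strFn (fun φ : CNF ℕ => satCount φ)) ↔
      ∃ D : List Bool → List Bool, PolyTime D ∧ DecStr D :=
  ⟨fun h => dec_of_fp fun f hf => fp_of_satCount (poly_of_fp h) f hf,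
    fun h => fp_lift (satCount_of_dec hPU hAP hCP hAD hCR h)⟩

/-- the reduction, uniformly in `p` -/
theorem uniform_red (hPU : StubPolyU) : ∃ g : List Bool → List Bool, PolyTime g ∧
    ∀ p : ℕ, p.Prime → p ≠ 2 → ∀ φ : CNF ℕ, ∃ l : List (ℕ × ℕ),
      g (bits (List.replicate p (), φ)) = bits l ∧ BipPerm l ∧ pmP l ≡ satCount φ [MOD p] := by
  have h1 : UPoly (fun x : List Unit × CNF ℕ => max 1 x.1.length) := by
    refine UPoly.of_le (n := fun x : List Unit × CNF ℕ => 1 + x.1.length)
      (Poly.max (Poly.const 1) (Poly.length (Poly.fst Poly.id)))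
      (UPoly.add (UPoly.const 1) (UPoly.length (Poly.fst Poly.id))) fun x => ?_
    omega
  have h2 : Poly (fun x : List Unit × CNF ℕ => ptsM (max 1 x.1.length) x.2) :=
    hPU _ _ _ h1 (Poly.snd Poly.id) fun x => le_max_left _ _
  obtain ⟨g, hg, hgD⟩ := lift_bits h2 []
  refine ⟨g, hg, fun p hp hp2 φ => ⟨ptsM p φ, ?_, ?_, ?_⟩⟩
  · rw [hgD]
    simp only [List.length_replicate]
    rw [max_eq_right hp.one_le]
  · exact (pm_mod_main p hp hp2 φ).2
  · exact (pm_mod_main p hp hp2 φ).1

end Pool.Agent.NPC.H570Mono
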