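import Pool.Agent.H570R2.Modp.Stubs2
import Pool.Agent.H570R2.Modp.PM

/-!
# The reduction modulo `p` runs in polynomial time, uniformly in `p` (given in unary)

Generalisation of `Pool.Agent.H570R2.Modp.PM` (helper579) from a constant `p` to `UPoly p`.
-/

namespace Pool.Agent.NPC.H570Mono

open Pool.Agent.H549R2.Convex Pool.Agent.NPC.Cnt Pool.Agent.NPC.H549Convex Pool.Agent.H570R2.Mono
  Pool.Agent.H549R2.PM Pool.Agent.NPC.H549PM

section Uni

variable {α : Type} [TEnc α]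

theorem U_sub {p : α → ℕ} (hp : UPoly p) (c : ℕ) : UPoly (fun a => p a - c) :=
  UPoly.of_le (NPC.Poly.sub hp.toPoly (NPC.Poly.const c)) hp (fun _ => Nat.sub_le _ _)

theorem U_pow {x n : α → ℕ} (hx : NPC.Poly x) (hn : UPoly n) : NPC.Poly (fun a => x a ^ n a) :=
  (poly_prod (P_replicate hn hx)).congr fun a => by rw [List.prod_replicate]

theorem U_tau {p : α → ℕ} (hp : UPoly p) (h1 : ∀ a, 1 ≤ p a) {i : α → Ins} (hi : NPC.Poly i) :
    NPC.Poly (fun a => tau (p a) (i a)) := by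
  have e0 : NPC.Poly (fun a => (i a).1) := NPC.Poly.fst hi
  have e1 : NPC.Poly (fun a => (i a).2.1) := NPC.Poly.fst (NPC.Poly.snd hi)
  have e2 : NPC.Poly (fun a => (i a).2.2) := NPC.Poly.snd (NPC.Poly.snd hi)
  have e3 : NPC.Poly (fun a => ((i a).2.2 + (p a - 1) * (i a).2.1) % p a) :=
    NPC.Poly.mod (NPC.Poly.add e2 (NPC.Poly.mul (U_sub hp 1).toPoly e1)) hp.toPoly
  refine (NPC.Poly.ite (NPC.Poly.decide_le (NPC.Poly.const 3) e0)
    (NPC.Poly.pair (NPC.Poly.const 3) (NPC.Poly.pair (NPC.Poly.const 0) e3))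
    hi).congr fun a => ?_
  unfold tau
  rw [Q_tau_val (h1 a)]

theorem U_rowsAt {C : α → ℕ} (hC : UPoly C) {i : α → Ins} {s : α → ℕ × ℕ}
    (hi : NPC.Poly i) (hs : NPC.Poly s) : NPC.Poly (fun a => Q_rowsAt (C a) (i a) (s a)) := by
  have h0 : NPC.Poly (fun a => (i a).1) := NPC.Poly.fst hi
  have h1 : NPC.Poly (fun a => (s a).1) := NPC.Poly.fst hs
  have h2 : NPC.Poly (fun a => (s a).2) := NPC.Poly.snd hs
  have h3 : NPC.Poly (fun a => [((s a).1, (s a).2 - 1)]) := by fun_prop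
  exact NPC.Poly.ite (NPC.Poly.decide_le h0 (NPC.Poly.const 1)) (NPC.Poly.const [])
    (NPC.Poly.ite (NPC.Poly.decide_eq h0 (NPC.Poly.const 2)) h3
      (P_replicate (upoly_min (NPC.Poly.snd (NPC.Poly.snd hi)) hC) (NPC.Poly.pair h1 h2)))

theorem U_colsAt {C : α → ℕ} (hC : UPoly C) {i : α → Ins} {s : α → ℕ × ℕ}
    (hi : NPC.Poly i) (hs : NPC.Poly s) : NPC.Poly (fun a => Q_colsAt (C a) (i a) (s a)) := by
  have h0 : NPC.Poly (fun a => (i a).1) := NPC.Poly.fst hi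
  have h2 : NPC.Poly (fun a => (s a).2) := NPC.Poly.snd hs
  have h3 : NPC.Poly (fun a => [(s a).2]) := NPC.Poly.cons h2 (NPC.Poly.const [])
  exact NPC.Poly.ite (NPC.Poly.decide_or (NPC.Poly.decide_eq h0 (NPC.Poly.const 0))
    (NPC.Poly.decide_eq h0 (NPC.Poly.const 2))) (NPC.Poly.const [])
    (NPC.Poly.ite (NPC.Poly.decide_eq h0 (NPC.Poly.const 1)) h3
      (P_replicate (upoly_min (NPC.Poly.snd (NPC.Poly.snd hi)) hC) h2))

theorem U_rws {C : α → ℕ} (hC : UPoly C) {p : α → List Ins} (hp : NPC.Poly p)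
    (h : ∀ x, ∀ i ∈ p x, i.1 ≤ 2 ∨ i.2.2 ≤ C x) : NPC.Poly (fun a => rws 0 (p a) (1, 1)) := by
  refine (NPC.Poly.flatMap (F := fun (a : α) (z : Ins × (ℕ × ℕ)) => Q_rowsAt (C a) z.1 z.2)
    (P_stl_poly hp) (U_rowsAt (hC.comp P_fst) (NPC.Poly.fst P_snd)
      (NPC.Poly.snd P_snd))).congr fun a => ?_
  rw [P_rws_eq, List.flatMap_def, List.flatMap_def]
  congr 1
  refine List.map_congr_left fun z hz => ?_
  exact Q_rowsAt_eq (h a z.1 (P_stl_mem _ _ z hz).1)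

theorem U_cls {C : α → ℕ} (hC : UPoly C) {p : α → List Ins} (hp : NPC.Poly p)
    (h : ∀ x, ∀ i ∈ p x, i.1 ≤ 2 ∨ i.2.2 ≤ C x) : NPC.Poly (fun a => cls 0 (p a) (1, 1)) := by
  refine (NPC.Poly.flatMap (F := fun (a : α) (z : Ins × (ℕ × ℕ)) => Q_colsAt (C a) z.1 z.2)
    (P_stl_poly hp) (U_colsAt (hC.comp P_fst) (NPC.Poly.fst P_snd)
      (NPC.Poly.snd P_snd))).congr fun a => ?_
  rw [P_cls_eq, List.flatMap_def, List.flatMap_def]
  congr 1
  refine List.map_congr_left fun z hz => ?_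
  exact Q_colsAt_eq (h a z.1 (P_stl_mem _ _ z hz).1)

theorem U_facP {C : α → ℕ} (hC : UPoly C) {p : α → List Ins} (hp : NPC.Poly p)
    (h : ∀ x, ∀ i ∈ p x, i.1 ≤ 2 ∨ i.2.2 ≤ C x) : NPC.Poly (fun a => facP (p a) 0) := by
  have hc : NPC.Poly (fun z : α × ℕ => cls 0 (p z.1) (1, 1)) :=
    (U_cls hC hp h).comp P_fst
  have hf : NPC.Poly (fun z : α × ℕ => (cls 0 (p z.1) (1, 1)).filter
      (fun x => decide (x = z.2))) :=
    NPC.Poly.filter (p := fun (z : α × ℕ) x => decide (x = z.2)) hc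
      (NPC.Poly.decide_eq P_snd (P_snd.comp P_fst))
  have h1 := upoly_fact (UPoly.length hf)
  have h2 := poly_prod (NPC.Poly.map (F := fun a κ =>
    ((cls 0 (p a) (1, 1)).filter (fun x => decide (x = κ))).length.factorial)
    (UPoly.add (UPoly.length hp) (UPoly.const 1)).range h1)
  refine h2.congr fun a => ?_
  rw [facP]
  congr 1
  refine List.map_congr_left fun κ _ => ?_
  rw [List.count, List.countP_eq_length_filter]
  rfl

theorem U_sufP {p : α → ℕ} (hp : UPoly p) {m r : α → ℕ} (hm : UPoly m) (hr : NPC.Poly r) :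
    NPC.Poly (fun a => sufP (p a) (m a) (r a)) := by
  refine NPC.Poly.append (Q_unitB hm (NPC.Poly.sub hr (NPC.Poly.const 1))) ?_
  exact NPC.Poly.flatten (P_replicate (U_sub hp 2)
    (Q_unitB hm (NPC.Poly.sub hr (NPC.Poly.const 2))))

theorem U_map_tau {p : α → ℕ} (hp : UPoly p) (h1 : ∀ a, 1 ≤ p a) {l : α → List Ins}
    (hl : NPC.Poly l) : NPC.Poly (fun a => (l a).map (tau (p a))) :=
  NPC.Poly.map (F := fun a i => tau (p a) i) hl
    (U_tau (hp.comp P_fst) (fun z => h1 z.1) P_snd)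

theorem U_xM {p : α → ℕ} (hp : UPoly p) (hp1 : ∀ a, 1 ≤ p a) {φ : α → CNF ℕ} (hφ : NPC.Poly φ) :
    NPC.Poly (fun a => xM (p a) (φ a)) := by
  have h1 : NPC.Poly (fun a => facP ((baseP (φ a)).map (tau (p a))) 0) :=
    U_facP hp (U_map_tau hp hp1 (Q_baseP.comp hφ)) (fun a => Q_tau_small (hp1 a) (baseP (φ a)))
  have hn : UPoly (fun a => nS (φ a)) := Q_nS.comp hφ
  have h2 : UPoly (fun z : α × ℕ => min z.2 (nS (φ z.1))) :=
    upoly_min P_snd (hn.comp P_fst)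
  have h3 : NPC.Poly (fun z : α × ℕ =>
      8 * (List.replicate (min z.2 (nS (φ z.1))) ((p z.1 - 1) * 16)).prod) :=
    NPC.Poly.mul (NPC.Poly.const 8) (poly_prod (P_replicate h2
      (NPC.Poly.mul ((U_sub hp 1).toPoly.comp P_fst) (NPC.Poly.const 16))))
  have h4 := poly_prod (NPC.Poly.map (F := fun a k =>
    8 * (List.replicate (min k (nS (φ a))) ((p a - 1) * 16)).prod) hn.range h3)
  have h5 : NPC.Poly (fun a => (List.replicate (nL (φ a)) 4).prod) :=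
    poly_prod (P_replicate (Q_nL.comp hφ) (NPC.Poly.const 4))
  refine (NPC.Poly.mul h1 (NPC.Poly.mul h4 h5)).congr fun a => ?_
  rw [xM]
  congr 3
  refine List.map_congr_left fun k hk => ?_
  rw [Nat.min_eq_left (List.mem_range.1 hk).le]

theorem U_rM {p : α → ℕ} (hp : UPoly p) (hp1 : ∀ a, 1 ≤ p a) {φ : α → CNF ℕ} (hφ : NPC.Poly φ) :
    NPC.Poly (fun a => rM (p a) (φ a)) :=
  NPC.Poly.mod (U_pow (NPC.Poly.mod (U_xM hp hp1 hφ) hp.toPoly) (U_sub hp 2)) hp.toPoly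

theorem U_fullP {p : α → ℕ} (hp : UPoly p) (hp1 : ∀ a, 1 ≤ p a) {φ : α → CNF ℕ}
    (hφ : NPC.Poly φ) : NPC.Poly (fun a => fullP (p a) (φ a)) :=
  U_map_tau hp hp1 (NPC.Poly.append (Q_baseP.comp hφ)
    (U_sufP hp (UPoly.add (Q_nS.comp hφ) (UPoly.const 1)) (U_rM hp hp1 hφ)))

theorem U_ptsM {p : α → ℕ} (hp : UPoly p) (hp1 : ∀ a, 1 ≤ p a) {φ : α → CNF ℕ}
    (hφ : NPC.Poly φ) : NPC.Poly (fun a => ptsM (p a) (φ a)) := by
  have h0 : ∀ a, ∀ i ∈ fullP (p a) (φ a), i.1 ≤ 2 ∨ i.2.2 ≤ p a := by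
    intro a
    rw [fullP]
    exact Q_tau_small (hp1 a) _
  have hF : NPC.Poly (fun a => fullP (p a) (φ a)) := U_fullP hp hp1 hφ
  have h1 : NPC.Poly (fun a => rws 0 (fullP (p a) (φ a)) (1, 1)) := U_rws hp hF h0
  have h2 : NPC.Poly (fun a => cls 0 (fullP (p a) (φ a)) (1, 1)) := U_cls hp hF h0
  refine (P_pts.comp (NPC.Poly.pair h1 h2)).congr fun a => ?_
  rw [ptsM]

end Uni

theorem stub_polyU : StubPolyU := fun _ _ _ _ hp hφ h1 => U_ptsM hp h1 hφ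

end Pool.Agent.NPC.H570Mono
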