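import Pool.Agent.H570R2.Modp.Defs

/-!
# Exact statements of the tasks
-/

namespace Pool.Agent.H570R2.Mono

open Pool.Agent.NPC.Cnt Pool.Agent.H549R2.PM Pool.Agent.H549R2.Convex

/-- TR: transfer modulo `p` -/
def StubTransfer : Prop := ∀ (p : ℕ) [Fact p.Prime] (pr : List Ins) (A : Type) [CommRing A]
  [CharP A p] (q : List A), (∀ a ∈ q, a ^ p = 0) →
  V 0 (pr.map (tau p)) A q = V (-1) pr A q

/-- ML: the permanent of the matrix of a program modulo `p` (uses `StubTransfer`, `StubLink`) -/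
def StubModLink : Prop := StubTransfer → StubLink → ∀ (p : ℕ) [Fact p.Prime] (_ : p ≠ 2)
  (pr : List Ins), reads pr = reals pr →
  (facP (pr.map (tau p)) 0 : ZMod p) ≠ 0 ∧
  ((F (matP (pr.map (tau p)) 0) : ℕ) : ZMod p) =
    (facP (pr.map (tau p)) 0 : ZMod p) * ((V (-1) pr ℤ [] : ℤ) : ZMod p)

/-- FC: the factorials of the unit suffix (the factors `(p - 1)! = -1` occur an even number of
times) -/
def StubFac : Prop := ∀ (p : ℕ) [Fact p.Prime] (_ : p ≠ 2) (pr : List Ins) (m r : ℕ), r < p →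
  (facP ((pr ++ sufP p m r).map (tau p)) 0 : ZMod p) =
    (facP (pr.map (tau p)) 0 : ZMod p) *
      (((r - 1).factorial : ZMod p) * ((r - 2).factorial : ZMod p) ^ (p - 2))

/-- CS: counting instructions -/
def StubCountS : Prop := ∀ (A : SM) (p m r : ℕ), (∀ x ∈ A, x.length = A.length) →
  reads (progS A ++ sufP p m r) = reals (progS A ++ sufP p m r)

/-- BL: extraction of the private variables of a block -/
def StubBlock : Prop := ∀ (o : ℕ) (b : Blk),
  (∀ ab ∈ b.2, (∀ x ∈ ab.1, x < o) ∧ ∀ x ∈ ab.2, x < o) →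
  EvL (List.range' o (3 * b.2.length + 1)) ((blockR o b).map form).prod =
    MvPolynomial.C (2 ^ b.2.length) * blockV b

/-- TK: the token level -/
def StubTok : Prop := ∀ φ : CNF ℕ,
  MvPolynomial.coeff (fullM (2 * nL φ)) ((blks φ).map blockV).prod = satCount φ

/-- SA: the formula as a coefficient (uses `StubBlock`, `StubTok`) -/
def StubSat : Prop := StubBlock → StubTok → ∀ φ : CNF ℕ,
  MvPolynomial.coeff (fullM (nS φ)) ((satR φ).map form).prod = 4 ^ nL φ * satCount φ

/-- SH: shape of the sparse matrix -/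
def StubShape : Prop := ∀ φ : CNF ℕ, (satR φ).length = nS φ ∧
  ∀ r ∈ satR φ, r.Nodup ∧ ∀ c ∈ r, c.1 < nS φ

/-- DN: dense form -/
def StubDense : Prop := ∀ (n : ℕ) (R : List (List (ℕ × Bool))), R.length = n →
  (∀ r ∈ R, r.Nodup ∧ ∀ c ∈ r, c.1 < n) →
  permS (denseR n R) = MvPolynomial.coeff (fullM n) (R.map form).prod

/-- VA: the value of the program (helper570) -/
def StubVal : Prop := ∀ (A : SM) (p r : ℕ), (∀ x ∈ A, x.length = A.length) →
  V (-1) (progS A ++ sufP p (A.length + 1) r) ℤ [] =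
    (∏ k ∈ Finset.range A.length, 8 * (-16 : ℤ) ^ k) * permS A *
      (((r - 1 : ℕ) : ℤ) + 1) * (((r - 2 : ℕ) : ℤ) + 1) ^ (p - 2)

end Pool.Agent.H570R2.Mono

namespace Pool.Agent.NPC.H570Mono

open Pool.Agent.NPC.Cnt Pool.Agent.H549R2.PM Pool.Agent.H570R2.Mono

/-- PM: polynomial time -/
def StubPolyM : Prop := ∀ p : ℕ, 1 ≤ p → Poly (fun φ : CNF ℕ => ptsM p φ)

/-- MB: perfect matchings of the graphs of point lists are in `#P` -/
def StubMem : Prop := SharpP (strFn pmP)

end Pool.Agent.NPC.H570Mono
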