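import Pool.Agent.H570R2.Modp.Defs
import Pool.Agent.H570R2.Mono.Alg5

/-!
# The value of a row of a matrix with entries `0, 1, -1`
-/

namespace Pool.Agent.H570R2.Mono

open Pool.Agent.H549R2.Convex

section Row

variable {A : Type} [CommRing A]

/-- the token block -/
theorem V_tokS {n : ℕ} (β : Bool) (p : List Ins) (x w c : A) (R : List A) (hR : R.length = n)
    (h0 : c + R.sum = 0) :
    V (-1) (tok β ++ rots (n + 1) ++ p) A ((4 * x) :: w :: (-4 * x) :: (-w) :: c :: R) =
      ((DualNumber.eps - inl' A (4 * x + bif β then w else 0)) *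
        V (-1) p (DualNumber A) (DualNumber.eps :: -DualNumber.eps :: inl' A c ::
          R.map (inl' A))).snd := by
  have hrot : V (-1) (rst :: (rots (n + 1) ++ p)) (DualNumber A)
      (inl' A c :: (R.map (inl' A) ++ [DualNumber.eps])) =
      V (-1) p (DualNumber A) (DualNumber.eps :: -DualNumber.eps :: inl' A c :: R.map (inl' A)) := by
    have hs : inl' A c + (R.map (inl' A)).sum = 0 := by
      rw [sum_inl, ← map_add, h0, map_zero]
    rw [V_rst]
    have e1 : -(inl' A c :: (R.map (inl' A) ++ [DualNumber.eps])).sum = -DualNumber.eps := by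
      simp only [List.sum_cons, List.sum_append, List.sum_nil, neg_inj]
      linear_combination hs
    rw [e1]
    have e2 : inl' A c :: (R.map (inl' A) ++ [DualNumber.eps]) ++ [-DualNumber.eps] =
        (inl' A c :: R.map (inl' A)) ++ [DualNumber.eps, -DualNumber.eps] := by simp
    rw [e2, (step_rots (k := n + 1) (inl' A c :: R.map (inl' A))
      [DualNumber.eps, -DualNumber.eps] (by simp [hR])).2 _ (by
        simp only [List.sum_cons, List.sum_append, List.sum_nil]
        linear_combination hs)]
    rfl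
  cases β with
  | false =>
    have e : tok false ++ rots (n + 1) ++ p =
        deq :: real :: read :: deq :: deq :: deq :: rst :: (rots (n + 1) ++ p) := by
      simp [tok]
    rw [e, V_deq, List.tail_cons, V_real_dual, V_read]
    simp only [List.map_cons, List.cons_append]
    rw [V_deq, List.tail_cons, V_deq, List.tail_cons, V_deq, List.tail_cons, hrot]
    congr 2
    simp only [List.sum_cons, List.sum_append, List.sum_nil, sum_inl, cond_false, add_zero,
      map_mul, map_neg]
    have hs : inl' A c + inl' A R.sum = 0 := by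
      rw [← map_add, h0, map_zero]
    linear_combination hs
  | true =>
    have e : tok true ++ rots (n + 1) ++ p =
        deq :: real :: deq :: read :: deq :: deq :: rst :: (rots (n + 1) ++ p) := by
      simp [tok]
    rw [e, V_deq, List.tail_cons, V_real_dual]
    simp only [List.map_cons, List.cons_append]
    rw [V_deq, List.tail_cons, V_read, V_deq, List.tail_cons, V_deq, List.tail_cons, hrot]
    congr 2
    simp only [List.sum_cons, List.sum_append, List.sum_nil, sum_inl, cond_true,
      map_mul, map_neg, map_add]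
    have hs : inl' A c + inl' A R.sum = 0 := by
      rw [← map_add, h0, map_zero]
    linear_combination hs

/-- the part of a cell before the token block, general sign -/
theorem step_cellS1 {n : ℕ} (e : Bool × Bool) (x c : A) (R : List A) (hR : R.length = n)
    (hx : x ^ 2 = 0) (hc : c ^ 2 = 0) :
    Step A (at' 2 n (spl 2 0) ++ at' 3 n (spl 2 0) ++
      (bif !e.1 && e.2 then at' 3 (n + 1) (spl 2 0) ++ at' 2 (n + 2) (mrg 2) else []) ++
      adv 1 (n + 2) ++ at' 0 (n + 4) (mrg 2))
      (x :: -x :: c :: R)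
      ((4 * x) :: ((bif !e.1 && e.2 then -2 else 2) * c) :: (-4 * x) ::
        (-((bif !e.1 && e.2 then -2 else 2) * c)) :: c :: R) := by
  have s1 : Step A (at' 2 n (spl 2 0)) (x :: -x :: c :: R) (x :: -x :: (2 * c) :: (-c) :: R) :=
    step_spl 2 0 [x, -x] R rfl hR c (2 * c) (-c) hc (by push_cast; ring) (by push_cast; ring)
  have s2 : Step A (at' 3 n (spl 2 0)) (x :: -x :: (2 * c) :: (-c) :: R)
      (x :: -x :: (2 * c) :: (-2 * c) :: c :: R) :=
    step_spl 2 0 [x, -x, 2 * c] R rfl hR (-c) (-2 * c) c (by rw [neg_sq, hc])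
      (by push_cast; ring) (by push_cast; ring)
  have s3 : Step A (bif !e.1 && e.2 then at' 3 (n + 1) (spl 2 0) ++ at' 2 (n + 2) (mrg 2) else [])
      (x :: -x :: (2 * c) :: (-2 * c) :: c :: R)
      (x :: -x :: ((bif !e.1 && e.2 then -2 else 2) * c) ::
        (-((bif !e.1 && e.2 then -2 else 2) * c)) :: c :: R) := by
    cases h : (!e.1 && e.2)
    · simp only [cond_false]
      refine ⟨?_, fun p _ => ?_⟩
      · simp only [List.sum_cons]
        ring
      · rw [List.nil_append]
        congr 5
        ring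
    · simp only [cond_true]
      have t1 : Step A (at' 3 (n + 1) (spl 2 0)) (x :: -x :: (2 * c) :: (-2 * c) :: c :: R)
          (x :: -x :: (2 * c) :: (-4 * c) :: (2 * c) :: c :: R) :=
        step_spl 2 0 [x, -x, 2 * c] (c :: R) rfl (by simp [hR]) (-2 * c) (-4 * c) (2 * c)
          (by rw [mul_pow, hc, mul_zero]) (by push_cast; ring) (by push_cast; ring)
      have t2 : Step A (at' 2 (n + 2) (mrg 2)) (x :: -x :: (2 * c) :: (-4 * c) :: (2 * c) :: c :: R)
          (x :: -x :: (-2 * c) :: (2 * c) :: c :: R) :=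
        step_mrg [x, -x] [2 * c, -4 * c] ((2 * c) :: c :: R) rfl rfl (by simp [hR]) (-2 * c)
          (by simp only [List.sum_cons, List.sum_nil]; ring)
      refine (t1.trans t2).of_eq rfl ?_
      simp only [List.cons.injEq, and_true, true_and]
      ring
  set w : A := (bif !e.1 && e.2 then -2 else 2) * c with hw
  have hw2 : w ^ 2 = 0 := by rw [hw, mul_pow, hc, mul_zero]
  have s4 : Step A (adv 1 (n + 2)) (x :: -x :: w :: (-w) :: c :: R)
      (x :: (-3 * -x) :: w :: (4 * -x) :: (-w) :: c :: R) :=
    step_adv x (-x) w ((-w) :: c :: R) (by simp [hR]) (by rw [neg_sq, hx]) hw2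
  have s5 : Step A (at' 0 (n + 4) (mrg 2))
      (x :: (-3 * -x) :: w :: (4 * -x) :: (-w) :: c :: R)
      ((4 * x) :: w :: (4 * -x) :: (-w) :: c :: R) :=
    step_mrg [] [x, -3 * -x] (w :: (4 * -x) :: (-w) :: c :: R) rfl rfl
      (by simp [hR]) (4 * x) (by simp only [List.sum_cons, List.sum_nil]; ring)
  refine ((((s1.trans s2).trans s3).trans s4).trans s5).of_eq rfl ?_
  simp only [List.cons.injEq, and_true, true_and]
  ring

/-- the token term of an entry -/
theorem tok_term (e : Bool × Bool) (c : A) :
    (bif xor e.1 e.2 then (bif !e.1 && e.2 then -2 else 2) * c else 0) =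
      2 * (((ent3 e : ℤ) : A) * c) := by
  rcases e with ⟨a, b⟩
  cases a <;> cases b <;> simp [ent3]

/-- one cell -/
theorem V_cellS {n : ℕ} (e : Bool × Bool) (p : List Ins) (x c : A) (R : List A) (hR : R.length = n)
    (hx : x ^ 2 = 0) (hc : c ^ 2 = 0) (h0 : c + R.sum = 0) :
    V (-1) (cellS n e ++ p) A (x :: -x :: c :: R) =
      ((DualNumber.eps - inl' A (4 * x + 2 * (((ent3 e : ℤ) : A) * c))) *
        V (-1) p (DualNumber A) ((4 * DualNumber.eps) :: (-(4 * DualNumber.eps)) ::
          (R ++ [c]).map (inl' A))).snd := by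
  have e0 : cellS n e ++ p = (at' 2 n (spl 2 0) ++ at' 3 n (spl 2 0) ++
      (bif !e.1 && e.2 then at' 3 (n + 1) (spl 2 0) ++ at' 2 (n + 2) (mrg 2) else []) ++
      adv 1 (n + 2) ++ at' 0 (n + 4) (mrg 2)) ++ (tok (xor e.1 e.2) ++ rots (n + 1) ++
      ((adv 1 n ++ at' 0 (n + 3) (spl 6 0) ++
      at' 1 (n + 2) (mrg 2) ++ at' 2 (n + 1) (spl 0 1) ++ fxb 0 (n + 1) ++ rots 1) ++ p)) := by
    simp only [cellS, List.append_assoc]
  rw [e0, (step_cellS1 e x c R hR hx hc).2 _ (by
    simp only [List.sum_cons]
    linear_combination h0), V_tokS _ _ x _ c R hR h0, tok_term,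
    (step_cell2 DualNumber.eps (inl' A c) (R.map (inl' A)) (by simp [hR]) eps_sq (inl_sq hc)).2 _ (by
      simp only [List.sum_cons, sum_inl]
      have hs : inl' A c + inl' A R.sum = 0 := by
        rw [← map_add, h0, map_zero]
      linear_combination hs)]
  simp only [List.map_append, List.map_cons, List.map_nil]

/-- the linear form of a row -/
def alS {A : Type} [CommRing A] : List (Bool × Bool) → List A → A
  | e :: r, c :: cs => alS r cs + 8 * (-16) ^ r.length * ((ent3 e : ℤ) : A) * c
  | _, _ => 0

theorem alS_map {B : Type} [CommRing B] (f : A →+* B) : ∀ (r : List (Bool × Bool)) (cs : List A),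
    alS r (cs.map f) = f (alS r cs)
  | [], cs => by simp [alS]
  | e :: r, [] => by simp [alS]
  | e :: r, c :: cs => by
    rw [List.map_cons, alS, alS, alS_map f r cs, map_add]
    simp only [map_mul, map_pow, map_neg, map_ofNat, map_intCast]

/-- the cells of a row -/
theorem V_cellsS (n : ℕ) (p : List Ins) : ∀ (r : List (Bool × Bool)) (A : Type) [CommRing A] (x : A)
    (cs S : List A), x ^ 2 = 0 → (∀ c ∈ cs, c ^ 2 = 0) → cs.length = r.length →
    (cs ++ S).length = n + 1 → (cs ++ S).sum = 0 →
    V (-1) (r.flatMap (cellS n) ++ ([deq, read, deq] ++ p)) A (x :: -x :: (cs ++ S)) =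
      (alS r cs - (-16) ^ r.length * x) * V (-1) p A (S ++ cs)
  | [], A, _, x, cs, S, hx, hcs, hl, hn, h0 => by
    have : cs = [] := List.length_eq_zero_iff.1 hl
    subst this
    simp only [List.flatMap_nil, List.nil_append, List.cons_append, List.append_nil] at *
    rw [V_deq, List.tail_cons, V_read, V_deq, List.tail_cons, List.sum_cons, h0]
    simp [alS]
  | b :: r, A, _, x, cs, S, hx, hcs, hl, hn, h0 => by
    obtain ⟨c, cs, rfl⟩ : ∃ c cs', cs = c :: cs' := by
      cases cs with
      | nil => simp at hl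
      | cons c cs => exact ⟨c, cs, rfl⟩
    have hc : c ^ 2 = 0 := hcs c (by simp)
    have h0' : c + (cs ++ S).sum = 0 := by simpa using h0
    have hp : (b :: r).flatMap (cellS n) ++ ([deq, read, deq] ++ p) =
        cellS n b ++ (r.flatMap (cellS n) ++ ([deq, read, deq] ++ p)) := by
      rw [List.flatMap_cons, List.append_assoc]
    have hq : x :: -x :: (c :: cs ++ S) = x :: -x :: c :: (cs ++ S) := rfl
    rw [hp, hq, V_cellS b _ x c (cs ++ S) (by simp at hn; simp; omega) hx hc h0']
    have e1 : (cs ++ S ++ [c]).map (inl' A) = cs.map (inl' A) ++ (S ++ [c]).map (inl' A) := by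
      simp
    have e2 : (S ++ [c]).map (inl' A) ++ cs.map (inl' A) = (S ++ c :: cs).map (inl' A) := by simp
    have hlen : (cs.map (inl' A) ++ (S ++ [c]).map (inl' A)).length = n + 1 := by
      rw [← e1]
      simp at hn ⊢
      omega
    have hsum : (cs.map (inl' A) ++ (S ++ [c]).map (inl' A)).sum = 0 := by
      rw [← e1, sum_inl, List.sum_append, List.sum_cons, List.sum_nil, add_zero, add_comm, h0',
        map_zero]
    rw [e1, V_cellsS n p r (DualNumber A) (4 * DualNumber.eps) (cs.map (inl' A))
      ((S ++ [c]).map (inl' A)) (by rw [mul_pow, eps_sq, mul_zero]) (by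
        intro d hd
        rw [List.mem_map] at hd
        obtain ⟨d', hd', rfl⟩ := hd
        exact inl_sq (hcs d' (List.mem_cons_of_mem _ hd'))) (by simpa using hl) hlen hsum, e2,
      V_inl, alS_map]
    set v := V (-1) p A (S ++ c :: cs)
    set a' := alS r cs
    set k : A := (-16) ^ r.length with hk
    have hk' : ((-16) ^ r.length : DualNumber A) = inl' A k := by
      rw [hk, map_pow, map_neg, map_ofNat]
    have h4 : (4 : DualNumber A) = inl' A 4 := (map_ofNat (inl' A) 4).symm
    rw [hk', h4, alS, List.length_cons, pow_succ]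
    set t : A := 4 * x + 2 * (((ent3 b : ℤ) : A) * c) with ht
    have e3 : (DualNumber.eps - inl' A t) *
        ((inl' A a' - inl' A k * (inl' A 4 * DualNumber.eps)) * inl' A v) =
        inl' A (-t * a' * v) + inl' A ((a' + t * k * 4) * v) * DualNumber.eps := by
      simp only [map_mul, map_neg, map_add]
      linear_combination (-(inl' A k * inl' A 4 * inl' A v)) * (eps_sq (A := A))
    rw [e3]
    rw [← hk]
    have e4 : ∀ s t : A, (inl' A s + inl' A t * DualNumber.eps).snd = t := by
      intro s t
      simp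
    rw [e4, ht]
    ring

/-- **The value of a row.** -/
theorem V_rowS (n : ℕ) (p : List Ins) (r : List (Bool × Bool)) (cs : List A) (g : A)
    (hcs : ∀ c ∈ cs, c ^ 2 = 0) (hr : r.length = n) (hn : cs.length = n) (h0 : cs.sum + g = 0) :
    V (-1) (rowS n r ++ p) A (cs ++ [g]) = alS r cs * V (-1) p A (cs ++ [g]) := by
  have e : rowS n r ++ p = real :: read :: rst :: (rots (n + 1) ++ (r.flatMap (cellS n) ++
      ([deq, read, deq] ++ (rots 1 ++ p)))) := by
    simp [rowS]
  have hs : ((cs ++ [g]).map (inl' A)).sum = 0 := by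
    rw [sum_inl]
    simp [h0]
  rw [e, V_real_dual, V_read, V_rst]
  have e1 : ((cs ++ [g]).map (inl' A) ++ [DualNumber.eps]).sum = DualNumber.eps := by
    rw [List.sum_append, hs]
    simp
  have e0 : (cs ++ [g]).map (inl' A) ++ [DualNumber.eps] ++ [-DualNumber.eps] =
      (cs ++ [g]).map (inl' A) ++ [DualNumber.eps, -DualNumber.eps] := by
    rw [List.append_assoc]
    rfl
  rw [e1, e0,
    (step_rots (k := n + 1) ((cs ++ [g]).map (inl' A)) [DualNumber.eps, -DualNumber.eps]
      (by simp [hn])).2 _ (by
        rw [List.sum_append, hs]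
        simp)]
  have e2 : [DualNumber.eps, -DualNumber.eps] ++ (cs ++ [g]).map (inl' A) =
      DualNumber.eps :: -DualNumber.eps :: (cs.map (inl' A) ++ [inl' A g]) := by simp
  rw [e2, V_cellsS n _ r (DualNumber A) DualNumber.eps (cs.map (inl' A)) [inl' A g] eps_sq (by
        intro d hd
        rw [List.mem_map] at hd
        obtain ⟨d', hd', rfl⟩ := hd
        exact inl_sq (hcs d' hd')) (by simp [hn, hr]) (by simp [hn]) (by
          rw [← hs]
          simp)]
  have e3 : [inl' A g] ++ cs.map (inl' A) = (g :: cs).map (inl' A) := by simp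
  have e4 : V (-1) (rots 1 ++ p) A (g :: cs) = V (-1) p A (cs ++ [g]) :=
    (step_rots (k := 1) [g] cs rfl).2 p (by
      rw [List.sum_append, List.sum_cons, List.sum_nil]
      linear_combination h0)
  rw [e3, V_inl, alS_map, e4]
  set v := V (-1) p A (cs ++ [g])
  set k : A := (-16) ^ r.length with hk
  have hk' : ((-16) ^ r.length : DualNumber A) = inl' A k := by
    rw [hk, map_pow, map_neg, map_ofNat]
  rw [hk']
  have e5 : DualNumber.eps * ((inl' A (alS r cs) - inl' A k * DualNumber.eps) * inl' A v) =
      inl' A 0 + inl' A (alS r cs * v) * DualNumber.eps := by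
    simp only [map_mul, map_zero, zero_add]
    linear_combination (-(inl' A k * inl' A v)) * (eps_sq (A := A))
  rw [e5]
  simp

/-- **The value of the rows.** -/
theorem V_rowsS (n : ℕ) (p : List Ins) (cs : List A) (g : A)
    (hcs : ∀ c ∈ cs, c ^ 2 = 0) (hn : cs.length = n) (h0 : cs.sum + g = 0) :
    ∀ (R : SM), (∀ r ∈ R, r.length = n) →
    V (-1) (R.flatMap (rowS n) ++ p) A (cs ++ [g]) =
      (R.map (fun r => alS r cs)).prod * V (-1) p A (cs ++ [g])
  | [], _ => by simp
  | r :: R, hR => by
    rw [List.flatMap_cons, List.append_assoc, V_rowS n _ r cs g hcs (hR r (by simp)) hn h0,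
      V_rowsS n p cs g hcs hn h0 R (fun x hx => hR x (by simp [hx])), List.map_cons,
      List.prod_cons, mul_assoc]

end Row

end Pool.Agent.H570R2.Mono
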