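import Pool.Agent.H570R2.Modp.Val1

/-!
# The value of the whole program as a coefficient
-/

namespace Pool.Agent.H570R2.Mono

open Pool.Agent.H549R2.Convex

section Suffix

variable {A : Type} [CommRing A]

/-- the block that multiplies by `N + 1` -/
theorem V_unitB (m N : ℕ) (p : List Ins) (q : List A) (hq : q.length = m) (h0 : q.sum = 0) :
    V (-1) (unitB m N ++ p) A q = ((N : A) + 1) * V (-1) p A q := by
  have e : unitB m N ++ p = real :: por 0 N :: read :: rst :: (rots m ++ ([deq, deq, deq] ++ p)) := by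
    simp [unitB]
  have hs : (q.map (inl' A)).sum = 0 := by rw [sum_inl, h0, map_zero]
  have hsum : (q.map (inl' A) ++ [DualNumber.eps]).sum = DualNumber.eps := by
    rw [List.sum_append, hs]
    simp
  rw [e, V_real_dual, V_por_sq _ _ _ _ (by rw [hsum, eps_sq]), V_read, V_rst, hsum]
  have e1 : (q.map (inl' A) ++ [DualNumber.eps] ++
      [(((N : ℕ) : DualNumber A) - ((0 : ℕ) : DualNumber A)) * DualNumber.eps]).sum =
      ((N : DualNumber A) + 1) * DualNumber.eps := by
    rw [List.sum_append, hsum]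
    simp only [List.sum_cons, List.sum_nil, Nat.cast_zero]
    ring
  rw [e1]
  have e2 : q.map (inl' A) ++ [DualNumber.eps] ++
      [(((N : ℕ) : DualNumber A) - ((0 : ℕ) : DualNumber A)) * DualNumber.eps] ++
      [-(((N : DualNumber A) + 1) * DualNumber.eps)] = q.map (inl' A) ++
      [DualNumber.eps, (((N : ℕ) : DualNumber A) - ((0 : ℕ) : DualNumber A)) * DualNumber.eps,
      -(((N : DualNumber A) + 1) * DualNumber.eps)] := by simp
  rw [e2, (step_rots (k := m) (q.map (inl' A)) _ (by simp [hq])).2 _ (by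
    rw [List.sum_append, hs]
    simp only [List.sum_cons, List.sum_nil, Nat.cast_zero]
    ring)]
  simp only [List.cons_append, List.nil_append]
  rw [V_deq, List.tail_cons, V_deq, List.tail_cons, V_deq, List.tail_cons, V_inl]
  have h4 : ((N : DualNumber A) + 1) = inl' A ((N : A) + 1) := by
    rw [map_add, map_natCast, map_one]
  rw [h4]
  have e5 : inl' A ((N : A) + 1) * DualNumber.eps * inl' A (V (-1) p A q) =
      inl' A 0 + inl' A (((N : A) + 1) * V (-1) p A q) * DualNumber.eps := by
    simp only [map_mul, map_zero, zero_add]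
    ring
  rw [e5]
  simp

theorem V_unitBs (m N : ℕ) (p : List Ins) (q : List A) (hq : q.length = m) (h0 : q.sum = 0)
    (k : ℕ) : V (-1) ((List.replicate k (unitB m N)).flatten ++ p) A q =
      ((N : A) + 1) ^ k * V (-1) p A q := by
  induction k with
  | zero => simp
  | succ k ih =>
    rw [List.replicate_succ, List.flatten_cons, List.append_assoc, V_unitB m N _ q hq h0, ih,
      pow_succ]
    ring

theorem V_sufP (p m r : ℕ) (q : List A) (hq : q.length = m) (h0 : q.sum = 0) :
    V (-1) (sufP p m r) A q = (((r - 1 : ℕ) : A) + 1) * (((r - 2 : ℕ) : A) + 1) ^ (p - 2) := by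
  have h := V_unitBs m (r - 2) [] q hq h0 (p - 2)
  rw [List.append_nil, V_nil, mul_one] at h
  rw [sufP, V_unitB m (r - 1) _ q hq h0, h]

end Suffix

section Prefix

open MvPolynomial

/-- keep only the first `n` variables -/
noncomputable def keep (n : ℕ) : MvPolynomial ℕ ℤ →+* MvPolynomial ℕ ℤ :=
  (bind₁ (fun i => if i < n then (X i : MvPolynomial ℕ ℤ) else 0)).toRingHom

theorem keep_X {n i : ℕ} (h : i < n) : keep n (X i) = X i := by
  simp [keep, h]

theorem coeff_keep (n : ℕ) (g : MvPolynomial ℕ ℤ) (m : ℕ →₀ ℕ) (hm : m n ≠ 0) :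
    coeff m (keep n g) = 0 := by
  classical
  by_contra h
  have h1 : m ∈ (keep n g).support := mem_support_iff.2 h
  have h2 : n ∈ (keep n g).vars := by
    rw [mem_vars_iff_mem_support]
    exact ⟨m, h1, by simp [hm]⟩
  have h3 := vars_bind₁ (fun i => if i < n then (X i : MvPolynomial ℕ ℤ) else 0) g h2
  rw [Finset.mem_biUnion] at h3
  obtain ⟨i, -, hi⟩ := h3
  by_cases hin : i < n
  · rw [if_pos hin, vars_X, Finset.mem_singleton] at hi
    omega
  · rw [if_neg hin, vars_0] at hi
    simp at hi

theorem fullM_succ (n : ℕ) : fullM (n + 1) = fullM n + Finsupp.single n 1 := by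
  rw [fullM, Finset.sum_range_succ, fullM]

theorem fullM_apply (n j : ℕ) : fullM n j = if j < n then 1 else 0 := by
  classical
  rw [fullM, Finsupp.finsetSum_apply]
  simp only [Finsupp.single_apply]
  simp

/-- one column -/
theorem coeff_eval_X (n : ℕ) (G : Polynomial (MvPolynomial ℕ ℤ)) (hG : G.map (keep n) = G) :
    coeff (fullM (n + 1)) (G.eval (X n)) = coeff (fullM n) (G.coeff 1) := by
  classical
  have hk : ∀ k, G.coeff k = keep n (G.coeff k) := by
    intro k
    conv_lhs => rw [← hG]
    rw [Polynomial.coeff_map]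
  have key : ∀ k, coeff (fullM (n + 1)) (G.coeff k * X n ^ k) =
      if k = 1 then coeff (fullM n) (G.coeff 1) else 0 := by
    intro k
    rcases k with _ | _ | k
    · rw [pow_zero, mul_one, if_neg (by norm_num), hk, coeff_keep]
      rw [fullM_apply, if_pos (by omega)]
      norm_num
    · rw [zero_add, pow_one, if_pos rfl, fullM_succ, coeff_mul_X]
    · rw [if_neg (by omega), X_pow_eq_monomial, coeff_mul_monomial', if_neg]
      intro h
      have := h n
      rw [Finsupp.single_eq_same, fullM_apply, if_pos (by omega)] at this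
      omega
  rw [Polynomial.eval_eq_sum_range' (n := G.natDegree + 2) (by omega), coeff_sum]
  rw [Finset.sum_congr rfl (fun k _ => key k), Finset.sum_ite_eq', if_pos]
  rw [Finset.mem_range]
  omega

/-- the columns of a queue -/
noncomputable def Xs (n : ℕ) : List (MvPolynomial ℕ ℤ) := (List.range n).map X

theorem Xs_succ (n : ℕ) : Xs (n + 1) = Xs n ++ [X n] := by
  rw [Xs, List.range_succ, List.map_append, List.map_cons, List.map_nil, Xs]

theorem V_reals (M : ℤ) : ∀ (n : ℕ) (p : List Ins),
    V M (List.replicate n real ++ p) ℤ [] = coeff (fullM n) (V M p (MvPolynomial ℕ ℤ) (Xs n))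
  | 0, p => by
    have h : ([] : List (MvPolynomial ℕ ℤ)) = ([] : List ℤ).map (C : ℤ →+* MvPolynomial ℕ ℤ) := rfl
    have h0 : fullM 0 = 0 := by simp [fullM]
    have h1 : Xs 0 = ([] : List ℤ).map (C : ℤ →+* MvPolynomial ℕ ℤ) := by simp [Xs]
    rw [h1, ← V_map, h0, List.replicate_zero, List.nil_append, coeff_zero_C]
  | n + 1, p => by
    rw [List.replicate_succ', List.append_assoc, V_reals M n, List.cons_append, List.nil_append,
      V_real, Xs_succ, ← eval_V, coeff_eval_X]
    have h := V_map M p (Polynomial (MvPolynomial ℕ ℤ)) (Polynomial (MvPolynomial ℕ ℤ))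
      (Polynomial.mapRingHom (keep n)) (ext (Xs n))
    rw [← ext_map, Polynomial.coe_mapRingHom] at h
    rw [h]
    congr 2
    rw [Xs, List.map_map]
    apply List.map_congr_left
    intro i hi
    exact keep_X (List.mem_range.1 hi)

/-- the ideal of the squares -/
noncomputable def sqI : Ideal (MvPolynomial ℕ ℤ) := Ideal.span (Set.range fun j => X j ^ 2)

theorem coeff_sqI (g : MvPolynomial ℕ ℤ) (hg : g ∈ sqI) :
    ∀ m : ℕ →₀ ℕ, (∀ j, m j ≤ 1) → coeff m g = 0 := by
  classical
  refine Submodule.span_induction (p := fun g _ => ∀ m : ℕ →₀ ℕ, (∀ j, m j ≤ 1) → coeff m g = 0)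
    ?_ ?_ ?_ ?_ hg
  · rintro _ ⟨j, rfl⟩ m hm
    change coeff m (X j ^ 2) = 0
    rw [X_pow_eq_monomial, coeff_monomial, if_neg]
    rintro rfl
    have := hm j
    rw [Finsupp.single_eq_same] at this
    omega
  · intro m _
    exact coeff_zero m
  · intro x y _ _ hx hy m hm
    rw [coeff_add, hx m hm, hy m hm, add_zero]
  · intro a x _ hx m hm
    rw [smul_eq_mul, coeff_mul]
    apply Finset.sum_eq_zero
    intro uv huv
    rw [Finset.HasAntidiagonal.mem_antidiagonal] at huv
    rw [hx uv.2 (fun j => ?_), mul_zero]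
    have h1 : m j = uv.1 j + uv.2 j := by rw [← huv, Finsupp.add_apply]
    have h2 := hm j
    omega

/-- **The value of the whole program as a coefficient.** -/
theorem V_progS (A : SM) (p r : ℕ) (hA : ∀ x ∈ A, x.length = A.length) :
    V (-1) (progS A ++ sufP p (A.length + 1) r) ℤ [] =
      coeff (fullM A.length) (A.map (fun x => alS x (Xs A.length))).prod *
        ((((r - 1 : ℕ) : ℤ) + 1) * (((r - 2 : ℕ) : ℤ) + 1) ^ (p - 2)) := by
  set n := A.length with hn
  have e : progS A ++ sufP p (n + 1) r =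
      List.replicate n real ++ (rst :: (A.flatMap (rowS n) ++ sufP p (n + 1) r)) := by
    simp [progS, hn]
  rw [e, V_reals]
  set P := rst :: (A.flatMap (rowS n) ++ sufP p (n + 1) r) with hP
  set K : MvPolynomial ℕ ℤ := (((r - 1 : ℕ) : MvPolynomial ℕ ℤ) + 1) *
    (((r - 2 : ℕ) : MvPolynomial ℕ ℤ) + 1) ^ (p - 2) with hK
  set f : MvPolynomial ℕ ℤ →+* MvPolynomial ℕ ℤ ⧸ sqI := Ideal.Quotient.mk sqI with hf
  have hsq : ∀ c ∈ (Xs n).map f, c ^ 2 = 0 := by
    intro c hc
    rw [List.mem_map] at hc
    obtain ⟨d, hd, rfl⟩ := hc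
    rw [Xs, List.mem_map] at hd
    obtain ⟨j, -, rfl⟩ := hd
    rw [← map_pow, hf, Ideal.Quotient.eq_zero_iff_mem]
    exact Ideal.subset_span ⟨j, rfl⟩
  have hlen : ((Xs n).map f).length = n := by simp [Xs]
  have h1 : f (V (-1) P (MvPolynomial ℕ ℤ) (Xs n)) =
      f ((A.map (fun x => alS x (Xs n))).prod * K) := by
    rw [V_map, hP, V_rst, V_rowsS n _ _ _ hsq hlen (by ring) A (fun x hx => hA x hx),
      V_sufP _ _ _ _ (by rw [List.length_append, hlen]; rfl) (by
        rw [List.sum_append, List.sum_cons, List.sum_nil]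
        ring), map_mul, map_list_prod, List.map_map]
    refine congrArg₂ (fun a b => a * b) ?_ ?_
    · refine congrArg List.prod ?_
      apply List.map_congr_left
      intro x _
      exact alS_map f x (Xs n)
    · rw [hK]
      simp only [map_mul, map_add, map_pow, map_natCast, map_one]
  have h2 : V (-1) P (MvPolynomial ℕ ℤ) (Xs n) - (A.map (fun x => alS x (Xs n))).prod * K ∈ sqI := by
    rw [← Ideal.Quotient.eq_zero_iff_mem, map_sub, sub_eq_zero]
    exact h1
  have h3 := coeff_sqI _ h2 (fullM n) (fun j => by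
    rw [fullM_apply]
    split_ifs <;> norm_num)
  rw [coeff_sub, sub_eq_zero] at h3
  rw [h3]
  have h4 : K = C ((((r - 1 : ℕ) : ℤ) + 1) * (((r - 2 : ℕ) : ℤ) + 1) ^ (p - 2)) := by
    rw [hK]
    simp only [map_mul, map_add, map_pow, map_natCast, map_one]
  rw [h4, mul_comm, coeff_C_mul, mul_comm]

end Prefix

end Pool.Agent.H570R2.Mono
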