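import Pool.Agent.H570R2.Modp.Val2
import Pool.Agent.H570R2.Modp.DN

/-!
# The value of the whole program as a permanent
-/

namespace Pool.Agent.H570R2.Mono

open Pool.Agent.H549R2.Convex MvPolynomial

theorem alS_sum {A : Type} [CommRing A] : ∀ (x : List (Bool × Bool)) (cs : List A),
    cs.length = x.length → alS x cs = ∑ j ∈ Finset.range x.length,
      8 * (-16) ^ (x.length - 1 - j) * ((ent3 (x.getD j (false, false)) : ℤ) : A) * cs.getD j 0
  | [], cs, _ => by simp [alS]
  | e :: r, [], h => by simp at h
  | e :: r, c :: cs, h => by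
    rw [alS, alS_sum r cs (by simpa using h), List.length_cons, Finset.sum_range_succ']
    congr 1
    apply Finset.sum_congr rfl
    intro j hj
    rw [Finset.mem_range] at hj
    rw [List.getD_cons_succ, List.getD_cons_succ]
    congr 4
    omega

theorem alS_Xs (n : ℕ) (x : List (Bool × Bool)) (hx : x.length = n) :
    alS x (Xs n) = ∑ j : Fin n, (C (8 * (-16) ^ (n - 1 - j.val) *
      ent3 (x.getD j.val (false, false))) * X j.val : MvPolynomial ℕ ℤ) := by
  rw [alS_sum x (Xs n) (by simp [Xs, hx]), hx, Finset.sum_range]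
  apply Finset.sum_congr rfl
  intro j _
  have h : (Xs n).getD j.val 0 = X j.val := by
    rw [Xs, List.getD_eq_getElem _ _ (by simp), List.getElem_map, List.getElem_range]
  rw [h]
  simp only [map_mul, map_pow, map_neg, map_ofNat, eq_intCast]

theorem perm_scale (n : ℕ) (w : Fin n → ℤ) (M : Fin n → Fin n → ℤ) :
    Matrix.permanent (Matrix.of fun i j => w j * M i j) =
      (∏ j, w j) * Matrix.permanent (Matrix.of fun i j => M i j) := by
  unfold Matrix.permanent
  rw [Finset.mul_sum]
  apply Finset.sum_congr rfl
  intro σ _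
  rw [← Finset.prod_mul_distrib]
  rfl

/-- **The value of the program.** -/
theorem stub_val : StubVal := by
  intro A p r hA
  rw [V_progS A p r hA, ← Fin.prod_univ_fun_getElem A (fun x => alS x (Xs A.length))]
  rw [Finset.prod_congr rfl (fun i _ => alS_Xs A.length A[i.val] (hA _ (List.getElem_mem i.2))),
    DNAux.coeff_prod A.length (fun i j => 8 * (-16) ^ (A.length - 1 - j.val) *
      ent3 (A[i.val].getD j.val (false, false)))]
  rw [perm_scale A.length (fun j => 8 * (-16) ^ (A.length - 1 - j.val))
    (fun i j => ent3 (A[i.val].getD j.val (false, false)))]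
  have h1 : (∏ j : Fin A.length, (8 * (-16) ^ (A.length - 1 - j.val) : ℤ)) =
      ∏ k ∈ Finset.range A.length, 8 * (-16 : ℤ) ^ k := by
    rw [← Finset.prod_range_reflect (fun k => 8 * (-16 : ℤ) ^ k), Finset.prod_range]
  have h2 : Matrix.permanent (Matrix.of fun i j : Fin A.length =>
      ent3 (A[i.val].getD j.val (false, false))) = permS A := by
    unfold permS
    congr 1
    ext i j
    simp only [Matrix.of_apply]
    rw [List.getD_eq_getElem A _ i.2]
  rw [h1, h2]
  ring

end Pool.Agent.H570R2.Mono
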